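import Pool.Agent.H673R3.UC.L1b

/-! Task L2: locality and planting. -/

namespace Pool.Agent.H673R3.UC

open MeasureTheory Pool.Agent.NPC Pool.Agent.H628R3.RO

private theorem L2_Zero {n s b i : ℕ} (hb : b < BB s) (hi : i < KK s) {A A' : Oracle}
    (h : ∀ x ∈ (spotsB n s : Set (List Bool)), A x = A' x) :
    A ∈ Zero n s b i ↔ A' ∈ Zero n s b i :=
  loc_Zero n s b i A A' fun x hx => h x (sp_subset hb hi hx)

private theorem L2_Low {n s b i : ℕ} (hb : b < BB s) (hi : i < KK s) {A A' : Oracle}
    (h : ∀ x ∈ (spotsB n s : Set (List Bool)), A x = A' x) :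
    A ∈ Low (Zero n s) (One n s) b i ↔ A' ∈ Low (Zero n s) (One n s) b i := by
  unfold Low
  rw [Set.mem_union, Set.mem_union]
  exact or_congr (L2_Zero hb hi h)
    (loc_One n s b i A A' fun x hx => h x (sp_subset hb hi hx))

theorem loc_AllHit {n s b : ℕ} (hb : b < BB s) : Loc (spotsB n s) (AllHit n s b) := by
  intro A A' h
  unfold AllHit AllH
  simp only [Set.mem_ofPred_eq]
  exact forall₂_congr fun i hi => not_congr (L2_Low hb hi h)

theorem loc_Others {n s b j : ℕ} (hb : b < BB s) : Loc (spotsB n s) (Others n s b j) := by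
  intro A A' h
  unfold Others Oth
  simp only [Set.mem_ofPred_eq]
  exact forall₂_congr fun i hi => forall_congr' fun _ => not_congr (L2_Low hb hi h)

private theorem L2_OneL {n s b : ℕ} (hb : b < BB s) :
    Loc (spotsB n s) (OneL (Zero n s) (One n s) (KK s) b) := by
  intro A A' h
  unfold OneL
  simp only [Set.mem_ofPred_eq]
  refine exists_congr fun i₀ => and_congr_right fun hi₀ => and_congr (L2_Low hb hi₀ h) ?_
  exact forall₂_congr fun i hi => forall_congr' fun _ => not_congr (L2_Low hb hi h)

theorem loc_Quiet (n s b : ℕ) : Loc (spotsB n s) (Quiet n s b) := by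
  intro A A' h
  unfold Quiet QuiG
  simp only [Set.mem_ofPred_eq]
  exact forall₂_congr fun b' hb' => forall_congr' fun _ =>
    and_congr (not_congr (loc_AllHit hb' A A' h)) (not_congr (L2_OneL hb' A A' h))

theorem loc_Bad (n s : ℕ) : Loc (spotsB n s) (Bad n s) := by
  intro A A' h
  unfold Bad BadG
  simp only [Set.mem_ofPred_eq]
  exact exists_congr fun b => and_congr_right fun hb => loc_AllHit hb A A' h

private theorem L2_Two (n s : ℕ) : Loc (spotsB n s) (Two n s) := by
  intro A A' h
  unfold Two TwoG
  simp only [Set.mem_ofPred_eq]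
  exact exists_congr fun b => and_congr_right fun hb => exists_congr fun j =>
    and_congr_right fun hj => and_congr (loc_Others hb A A' h) (L2_Zero hb hj h)

theorem loc_Inv (n s : ℕ) : Loc (spotsB n s) (Inv n s) := by
  intro A A' h
  unfold Inv
  rw [Set.mem_union, Set.mem_union]
  exact or_congr (loc_Bad n s A A' h) (L2_Two n s A A' h)

end Pool.Agent.H673R3.UC
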