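import Pool.Agent.H673R3.UC.L1b

/-! Task L2b: planting. -/

namespace Pool.Agent.H673R3.UC

open MeasureTheory Pool.Agent.NPC Pool.Agent.H628R3.RO

/-- planting hits in one pair does not change the other pairs -/
theorem plant_Low {n s b j : ℕ} {h : Finset Cand} (hd : Disjoint h (pair n s b j)) (A : Oracle) :
    plant (allSpots (wl n) h) A ∈ Low (Zero n s) (One n s) b j ↔
      A ∈ Low (Zero n s) (One n s) b j := by
  have key : ∀ κ ∈ pair n s b j,
      (Hit (wl n) κ (plant (allSpots (wl n) h) A) ↔ Hit (wl n) κ A) := fun κ hκ =>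
    M2.hit_plant (fun hκ' => Finset.disjoint_left.1 hd hκ' hκ) A
  unfold Low
  rw [Set.mem_union, Set.mem_union]
  refine or_congr ?_ ?_
  · unfold Zero NoHit
    simp only [Set.mem_ofPred_eq]
    exact forall₂_congr fun κ hκ => not_congr (key κ hκ)
  · unfold One HitSet
    simp only [Set.mem_ofPred_eq]
    refine exists_congr fun κ₀ => and_congr_right fun _ => ?_
    exact forall₂_congr fun κ hκ => by rw [key κ hκ]

theorem plant_Others {n s b j : ℕ} {h : Finset Cand} (hj : j < KK s)
    (hh : h ⊆ pair n s b j) (A : Oracle) :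
    plant (allSpots (wl n) h) A ∈ Others n s b j ↔ A ∈ Others n s b j := by
  unfold Others Oth
  simp only [Set.mem_ofPred_eq]
  exact forall₂_congr fun i hi => forall_congr' fun hne => not_congr
    (plant_Low (Finset.disjoint_of_subset_left hh
      (pair_disjoint hj hi (Or.inr (Ne.symm hne)))) A)

theorem plant_Quiet {n s b j : ℕ} {h : Finset Cand} (hj : j < KK s)
    (hh : h ⊆ pair n s b j) (A : Oracle) :
    plant (allSpots (wl n) h) A ∈ Quiet n s b ↔ A ∈ Quiet n s b := by
  unfold Quiet QuiG
  simp only [Set.mem_ofPred_eq]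
  refine forall₂_congr fun b' hb' => forall_congr' fun hne => ?_
  have hz : ∀ i, i < KK s →
      (plant (allSpots (wl n) h) A ∈ Low (Zero n s) (One n s) b' i ↔
        A ∈ Low (Zero n s) (One n s) b' i) := fun i hi =>
    plant_Low (Finset.disjoint_of_subset_left hh
      (pair_disjoint hj hi (Or.inl (Ne.symm hne)))) A
  refine and_congr (not_congr ?_) (not_congr ?_)
  · unfold AllH
    simp only [Set.mem_ofPred_eq]
    exact forall₂_congr fun i hi => not_congr (hz i hi)
  · unfold OneL
    simp only [Set.mem_ofPred_eq]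
    refine exists_congr fun i₀ => and_congr_right fun hi₀ => and_congr (hz i₀ hi₀) ?_
    exact forall₂_congr fun i hi => forall_congr' fun _ => not_congr (hz i hi)

/-- planting hits of the stage does not change events on short strings -/
theorem plant_short {n s t : ℕ} (ht : t ≤ n) {η : Set Oracle} (hη : Loc {x | x.length ≤ t} η)
    {h : Finset Cand} (hh : h ⊆ blk n s) (A : Oracle) :
    plant (allSpots (wl n) h) A ∈ η ↔ A ∈ η := by
  apply hη
  intro x hx
  have hx' : x.length ≤ t := hx
  unfold plant
  rw [if_neg]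
  intro hmem
  obtain ⟨κ, hκ, hx2⟩ := M2.mem_allSpots.1 hmem
  obtain ⟨i, hi, rfl⟩ := M2.mem_spots.1 hx2
  have := lt_length_spotsB _ (pos_mem_spotsB (hh hκ) hi)
  omega

end Pool.Agent.H673R3.UC
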