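import Pool.Agent.H673R3.UC.L1b

/-! Task L2c: pairs which are not low. -/

namespace Pool.Agent.H673R3.UC

open MeasureTheory Pool.Agent.NPC Pool.Agent.H628R3.RO

theorem mem_One_iff {n s b j : ℕ} {A : Oracle} : A ∈ One n s b j ↔
    ∃ κ ∈ pair n s b j, Hit (wl n) κ A ∧ ∀ κ' ∈ pair n s b j, Hit (wl n) κ' A → κ' = κ := by
  constructor
  · rintro ⟨κ, hκ, hA⟩
    refine ⟨κ, hκ, (hA κ hκ).2 (Finset.mem_singleton_self κ), ?_⟩
    intro κ' hκ' h'
    exact Finset.mem_singleton.1 ((hA κ' hκ').1 h')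
  · rintro ⟨κ, hκ, h1, h2⟩
    refine ⟨κ, hκ, ?_⟩
    intro κ' hκ'
    constructor
    · intro h
      exact Finset.mem_singleton.2 (h2 κ' hκ' h)
    · intro h
      rw [Finset.mem_singleton.1 h]
      exact h1

/-- a pair which is not low has two hits -/
theorem not_low_iff {n s b j : ℕ} {A : Oracle} : A ∉ Low (Zero n s) (One n s) b j ↔
    ∃ κ ∈ pair n s b j, ∃ κ' ∈ pair n s b j, κ ≠ κ' ∧ Hit (wl n) κ A ∧ Hit (wl n) κ' A := by
  constructor
  · intro h
    by_contra hc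
    apply h
    by_cases hz : A ∈ Zero n s b j
    · exact Or.inl hz
    · right
      have hz' : ∃ κ ∈ pair n s b j, Hit (wl n) κ A := by
        by_contra hn
        apply hz
        intro κ hκ hh
        exact hn ⟨κ, hκ, hh⟩
      obtain ⟨κ, hκ, h1⟩ := hz'
      refine mem_One_iff.2 ⟨κ, hκ, h1, ?_⟩
      intro κ' hκ' h'
      by_contra hne
      exact hc ⟨κ, hκ, κ', hκ', fun he => hne he.symm, h1, h'⟩
  · rintro ⟨κ, hκ, κ', hκ', hne, h1, h2⟩ hl
    rcases hl with hl | hl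
    · exact hl κ hκ h1
    · obtain ⟨κ₀, _, _, h0⟩ := mem_One_iff.1 hl
      exact hne ((h0 κ hκ h1).trans (h0 κ' hκ' h2).symm)

/-- the promise: exactly one hit in the pair -/
theorem one_of_not_Inv {n s b j : ℕ} {A : Oracle} (hb : b < BB s) (hj : j < KK s)
    (hA : A ∉ Inv n s) (hO : A ∈ Others n s b j) : A ∈ One n s b j := by
  have hBad : A ∉ Bad n s := fun h => hA (Or.inl h)
  have hTwo : A ∉ Two n s := fun h => hA (Or.inr h)
  have h1 : ∃ i < KK s, A ∈ Low (Zero n s) (One n s) b i := by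
    by_contra hn
    apply hBad
    refine ⟨b, hb, ?_⟩
    intro i hi hl
    exact hn ⟨i, hi, hl⟩
  obtain ⟨i, hi, hl⟩ := h1
  have hij : i = j := by
    by_contra hne
    exact hO i hi hne hl
  subst hij
  rcases hl with hl | hl
  · exact absurd (show A ∈ Two n s from ⟨b, hb, i, hj, hO, hl⟩) hTwo
  · exact hl

end Pool.Agent.H673R3.UC
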