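import Pool.Agent.H673R3.UC.N6
import Pool.Agent.H673R3.UC.L2
import Pool.Agent.H673R3.UC.L2b
import Pool.Agent.H673R3.UC.L2c
import Pool.Agent.H628R3.RO.E2

/-! Task C1: the check can be carried out. -/

namespace Pool.Agent.H673R3.UC

open MeasureTheory Pool.Agent.NPC Pool.Agent.H628R3.RO

namespace Chk

/-- all copies of the stage -/
def tot (s : ℕ) : ℕ := BB s * (2 * KK s) * rr s

theorem le_tot {s b i c : ℕ} (hb : b < BB s) (hi : i < KK s) (hc : InP s b i c) : c < tot s := by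
  have h1 : b * (2 * KK s) + 2 * i + 2 ≤ (b + 1) * (2 * KK s) := by
    rw [add_mul, one_mul]; omega
  have h2 : (b + 1) * (2 * KK s) ≤ BB s * (2 * KK s) := Nat.mul_le_mul_right _ hb
  exact hc.2.trans_le (Nat.mul_le_mul_right _ (h1.trans h2))

/-- the list of all hits of the stage -/
def hitL (S : List (List Bool)) (n s : ℕ) : List (ℕ × List Bool) :=
  (List.range (tot s)).flatMap (fun c =>
    ((strsEq (wl n)).filter (fun w => hitB S (wl n) (min c (tot s)) w)).map (fun w => (c, w)))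

theorem mem_hitL {S : List (List Bool)} {n s : ℕ} {κ : ℕ × List Bool} :
    κ ∈ hitL S n s ↔ κ.1 < tot s ∧ κ.2.length = wl n ∧ Hit (wl n) κ (ofL S) := by
  obtain ⟨c, w⟩ := κ
  unfold hitL
  simp only [List.mem_flatMap, List.mem_range, List.mem_map, List.mem_filter, mem_strsEq]
  constructor
  · rintro ⟨c', h1, w', ⟨h2, h3⟩, h4⟩
    obtain ⟨rfl, rfl⟩ := Prod.mk.inj h4
    rw [min_eq_left h1.le] at h3
    exact ⟨h1, h2, hitB_iff.1 h3⟩
  · rintro ⟨h1, h2, h3⟩
    refine ⟨c, h1, w, ⟨h2, ?_⟩, rfl⟩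
    rw [min_eq_left h1.le]
    exact hitB_iff.2 h3

theorem poly_hitL {α : Type} [TEnc α] {S : α → List (List Bool)} {n s N : α → ℕ}
    (hS : Poly S) (hn : UPoly n) (hs : UPoly s) (hN : UPoly N)
    (h : ∀ a, 2 ^ (wl (n a)) ≤ N a) : Poly (fun a => hitL (S a) (n a) (s a)) := by
  have hwl : UPoly (fun a => wl (n a)) := ((UPoly.const 2).mul hn).add (UPoly.const 16)
  have ht : UPoly (fun a => tot (s a)) := ((u_BB hs).mul ((UPoly.const 2).mul (u_KK hs))).mul
    (u_rr hs.toPoly)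
  refine Poly.flatMap (F := fun a c => ((strsEq (wl (n a))).filter
    (fun w => hitB (S a) (wl (n a)) (min c (tot (s a))) w)).map (fun w => (c, w))) ht.range ?_
  have h1 : Poly (fun q : α × ℕ => q.1) := Poly.fst Poly.id
  refine NPC.Poly.map (F := fun (q : α × ℕ) w => (q.2, w)) ?_
    (Poly.pair (Poly.snd (Poly.fst Poly.id)) (Poly.snd Poly.id))
  refine Poly.filter (p := fun (q : α × ℕ) w =>
    hitB (S q.1) (wl (n q.1)) (min q.2 (tot (s q.1))) w)
    (p_strsEq (l := fun q : α × ℕ => wl (n q.1)) (hwl.comp h1) (hN.comp h1) fun q => h q.1) ?_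
  have m1 : Poly (fun q : (α × ℕ) × List Bool => q.1.1) := Poly.fst (Poly.fst Poly.id)
  have m2 : Poly (fun q : (α × ℕ) × List Bool => q.1.2) := Poly.snd (Poly.fst Poly.id)
  have m3 : Poly (fun q : (α × ℕ) × List Bool => q.2) := Poly.snd Poly.id
  exact p_hitB (hS.comp m1) (hwl.comp m1)
    (UPoly.of_le (Poly.min m2 ((ht.comp m1).toPoly)) (ht.comp m1)
      fun p => min_le_right _ _) m3

/-- two different hits in the pair -/
def twoB (L : List (ℕ × List Bool)) (s b i : ℕ) : Bool :=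
  L.any (fun κ => L.any (fun κ' => !decide (κ = κ') &&
    (((decide ((b * (2 * KK s) + 2 * i) * rr s ≤ κ.1) &&
      decide (κ.1 < (b * (2 * KK s) + 2 * i + 2) * rr s))) &&
    (decide ((b * (2 * KK s) + 2 * i) * rr s ≤ κ'.1) &&
      decide (κ'.1 < (b * (2 * KK s) + 2 * i + 2) * rr s)))))

theorem twoB_iff {S : List (List Bool)} {n s b i : ℕ} (hb : b < BB s) (hi : i < KK s) :
    twoB (hitL S n s) s b i = true ↔ ofL S ∉ Low (Zero n s) (One n s) b i := by
  rw [not_low_iff]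
  unfold twoB
  simp only [List.any_eq_true, Bool.and_eq_true, decide_eq_true_eq, Bool.not_eq_true',
    decide_eq_false_iff_not, mem_hitL, mem_pair]
  constructor
  · rintro ⟨κ, ⟨h1, h2, h3⟩, κ', ⟨h4, h5, h6⟩, h7, h8, h9⟩
    exact ⟨κ, ⟨h8, h2⟩, κ', ⟨h9, h5⟩, h7, h3, h6⟩
  · rintro ⟨κ, ⟨h8, h2⟩, κ', ⟨h9, h5⟩, h7, h3, h6⟩
    exact ⟨κ, ⟨le_tot hb hi h8, h2, h3⟩, κ', ⟨le_tot hb hi h9, h5, h6⟩, h7, h8, h9⟩

theorem poly_twoB {α : Type} [TEnc α] {L : α → List (ℕ × List Bool)} {s b i : α → ℕ}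
    (hL : Poly L) (hs : UPoly s) (hb : Poly b) (hi : Poly i) :
    Poly (fun a => twoB (L a) (s a) (b a) (i a)) := by
  have hx : Poly (fun a => b a * (2 * KK (s a)) + 2 * i a) :=
    Poly.add (Poly.mul hb (Poly.mul (NPC.Poly.const 2) (u_KK hs).toPoly))
      (Poly.mul (NPC.Poly.const 2) hi)
  have hr : Poly (fun a => rr (s a)) := (u_rr hs.toPoly).toPoly
  have hlo : Poly (fun a => (b a * (2 * KK (s a)) + 2 * i a) * rr (s a)) := Poly.mul hx hr
  have hhi : Poly (fun a => (b a * (2 * KK (s a)) + 2 * i a + 2) * rr (s a)) :=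
    Poly.mul (Poly.add hx (NPC.Poly.const 2)) hr
  refine Poly.any (p := fun a (κ : ℕ × List Bool) => (L a).any (fun κ' => !decide (κ = κ') &&
    (((decide ((b a * (2 * KK (s a)) + 2 * i a) * rr (s a) ≤ κ.1) &&
      decide (κ.1 < (b a * (2 * KK (s a)) + 2 * i a + 2) * rr (s a)))) &&
    (decide ((b a * (2 * KK (s a)) + 2 * i a) * rr (s a) ≤ κ'.1) &&
      decide (κ'.1 < (b a * (2 * KK (s a)) + 2 * i a + 2) * rr (s a)))))) hL ?_
  refine Poly.any (p := fun (q : α × (ℕ × List Bool)) (κ' : ℕ × List Bool) =>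
    !decide (q.2 = κ') &&
    (((decide ((b q.1 * (2 * KK (s q.1)) + 2 * i q.1) * rr (s q.1) ≤ q.2.1) &&
      decide (q.2.1 < (b q.1 * (2 * KK (s q.1)) + 2 * i q.1 + 2) * rr (s q.1)))) &&
    (decide ((b q.1 * (2 * KK (s q.1)) + 2 * i q.1) * rr (s q.1) ≤ κ'.1) &&
      decide (κ'.1 < (b q.1 * (2 * KK (s q.1)) + 2 * i q.1 + 2) * rr (s q.1)))))
    (hL.comp (Poly.fst Poly.id)) ?_
  have k1 : Poly (fun q : (α × (ℕ × List Bool)) × (ℕ × List Bool) => q.1.1) :=
    Poly.fst (Poly.fst Poly.id)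
  have k2 : Poly (fun q : (α × (ℕ × List Bool)) × (ℕ × List Bool) => q.1.2) :=
    Poly.snd (Poly.fst Poly.id)
  have k3 : Poly (fun q : (α × (ℕ × List Bool)) × (ℕ × List Bool) => q.2) := Poly.snd Poly.id
  have hlo' := hlo.comp k1
  have hhi' := hhi.comp k1
  exact Poly.and (Poly.not (Poly.decide_eq k2 k3))
    (Poly.and (Poly.and (Poly.decide_le hlo' (Poly.fst k2)) (Poly.decide_lt (Poly.fst k2) hhi'))
      (Poly.and (Poly.decide_le hlo' (Poly.fst k3)) (Poly.decide_lt (Poly.fst k3) hhi')))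

theorem pBad_B (b : Polynomial ℕ) (hb8 : ∀ n, wl n ≤ b.eval (2 ^ n)) :
    ∃ f : List (List Bool) → ℕ → ℕ → Bool, (∀ S n j, f S n j = true ↔ ofL S ∈ Bad n j) ∧
    ∀ {α : Type} [TEnc α] {S : α → List (List Bool)} {n j N : α → ℕ}, Poly S → UPoly n →
      UPoly j → UPoly N → (∀ a, 2 ^ (b.eval (2 ^ (n a))) ≤ N a) →
      Poly (fun a => f (S a) (n a) (j a)) := by
  refine ⟨fun S n j => (List.range (BB j)).any (fun b => (List.range (KK j)).all (fun i =>
    twoB (hitL S n j) j b i)), fun S n j => ?_, ?_⟩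
  · rw [List.any_eq_true, Bad, BadG, Set.mem_ofPred_eq]
    refine exists_congr fun b => ?_
    rw [List.mem_range, List.all_eq_true]
    refine and_congr_right fun hb => ?_
    rw [AllH, Set.mem_ofPred_eq]
    refine forall_congr' fun i => ?_
    rw [List.mem_range]
    exact imp_congr_right fun hi => twoB_iff hb hi
  · intro α _ S n j N hS hn hj hN h
    have hp1 : ∀ a, 2 ^ (wl (n a)) ≤ N a := fun a =>
      (Nat.pow_le_pow_right (by norm_num) (hb8 _)).trans (h a)
    have hL : Poly (fun a => hitL (S a) (n a) (j a)) := poly_hitL hS hn hj hN hp1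
    refine Poly.any (p := fun a b => (List.range (KK (j a))).all (fun i =>
      twoB (hitL (S a) (n a) (j a)) (j a) b i)) (u_BB hj).range ?_
    have h1 : Poly (fun q : α × ℕ => q.1) := Poly.fst Poly.id
    refine Poly.all (p := fun (q : α × ℕ) i =>
      twoB (hitL (S q.1) (n q.1) (j q.1)) (j q.1) q.2 i) ((u_KK hj).comp h1).range ?_
    have k1 : Poly (fun q : (α × ℕ) × ℕ => q.1.1) := Poly.fst (Poly.fst Poly.id)
    exact poly_twoB (hL.comp k1) (hj.comp k1) (Poly.snd (Poly.fst Poly.id)) (Poly.snd Poly.id)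

theorem check_gen {E : ℕ → ℕ → Set Oracle} {b0 p0 : Polynomial ℕ}
    (hE : ∀ n j, Loc {x | x.length ≤ b0.eval (2 ^ n)} (E n j))
    (hf : ∀ b : Polynomial ℕ, (∀ m, m ≤ b.eval m) → (∀ m, p0.eval m ≤ b.eval m) →
      ∃ f : List (List Bool) → ℕ → ℕ → Bool, (∀ S n j, f S n j = true ↔ ofL S ∈ E n j) ∧
      ∀ {α : Type} [TEnc α] {S : α → List (List Bool)} {n j N : α → ℕ}, Poly S → UPoly n →
        UPoly j → UPoly N → (∀ a, 2 ^ (b.eval (2 ^ (n a))) ≤ N a) →
        Poly (fun a => f (S a) (n a) (j a))) : ∃ b, Check Bad E b := by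
  obtain ⟨P, hP⟩ := length_spotsB
  refine ⟨(b0 + p0 + P) + Polynomial.C 16 * Polynomial.X + Polynomial.C 16, ?_⟩
  have hle : ∀ m, m ≤
      ((b0 + p0 + P) + Polynomial.C 16 * Polynomial.X + Polynomial.C 16).eval m := by
    intro m
    simp only [Polynomial.eval_add, Polynomial.eval_mul, Polynomial.eval_C, Polynomial.eval_X]
    omega
  have hle' : ∀ m, p0.eval m ≤
      ((b0 + p0 + P) + Polynomial.C 16 * Polynomial.X + Polynomial.C 16).eval m := by
    intro m
    simp only [Polynomial.eval_add]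
    omega
  have hwl : ∀ n, wl n ≤ ((b0 + p0 + P) + Polynomial.C 16 * Polynomial.X +
      Polynomial.C 16).eval (2 ^ n) := by
    intro n
    have : n ≤ 2 ^ n := Nat.lt_two_pow_self.le
    simp only [Polynomial.eval_add, Polynomial.eval_mul, Polynomial.eval_C, Polynomial.eval_X, wl]
    omega
  refine ⟨hle, fun n j => (hE n j).monoE fun x hx => ?_, fun n j hj => (loc_Bad n j).monoE
    fun x hx => ?_, hf _ hle hle', pBad_B _ hwl⟩
  · simp only [Set.mem_ofPred_eq, Polynomial.eval_add] at hx ⊢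
    omega
  · have h1 := hP n j hj x hx
    have h2 : P.eval n ≤ P.eval (2 ^ n) := eval_mono _ Nat.lt_two_pow_self.le
    simp only [Set.mem_ofPred_eq, Polynomial.eval_add]
    omega

end Chk

theorem check_BN (V : Bool → Alg) (p : Bool → Polynomial ℕ) :
    ∃ b, Check Bad (fun n _ => ErrN V p n) b := by
  obtain ⟨b0, hb0⟩ := loc_ErrN V p
  refine Chk.check_gen (b0 := b0) (p0 := p false + p true) (fun n _ => hb0 n) fun b hb hp => ?_
  refine pErr_N V p b hb fun i m => le_trans ?_ (hp m)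
  rw [Polynomial.eval_add]
  cases i <;> omega

theorem check_BU (V : Alg) (p : Polynomial ℕ) :
    ∃ b, Check Bad (fun n _ => ErrU V p n) b := by
  obtain ⟨b0, hb0⟩ := loc_ErrU V p
  exact Chk.check_gen (b0 := b0) (p0 := p) (fun n _ => hb0 n) fun b hb hp =>
    pErr_U V p b hb hp

end Pool.Agent.H673R3.UC
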