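import Pool.Agent.H673R3.UC.N1
import Pool.Agent.H583R2.NC.NumP

/-! Task N5: numbers: polynomial bounds. -/

namespace Pool.Agent.H673R3.UC

open MeasureTheory Pool.Agent.NPC Pool.Agent.H628R3.RO

private theorem N5_vpos (s : ℕ) : 0 < vv s := by unfold vv; positivity

private theorem N5_upos (s : ℕ) : 0 < uu s := by
  have h : 2 ≤ 2 ^ mm s := by
    unfold mm
    calc 2 = 2 ^ 1 := rfl
      _ ≤ _ := Nat.pow_le_pow_right (by norm_num) (by omega)
  unfold uu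
  exact Nat.pow_pos (by omega)

private theorem N5_ap_pos (s : ℕ) : 0 < ap s := by
  rw [ap_eq]
  have h1 : (0 : ℝ) < (uu s : ℝ) := by exact_mod_cast N5_upos s
  have h2 : (0 : ℝ) < (vv s : ℝ) := by exact_mod_cast N5_vpos s
  exact div_pos h1 h2

private theorem N5_KK (s : ℕ) : (KK s : ℝ) ≤ 64 / ap s + 1 := by
  unfold KK
  push_cast
  have h := Nat.cast_div_le (α := ℝ) (m := 64 * vv s) (n := uu s)
  push_cast at h
  have e : 64 / ap s = 64 * (vv s : ℝ) / uu s := by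
    rw [ap_eq, div_div_eq_mul_div]
  rw [e]
  linarith

private theorem N5_KK_nat (s : ℕ) : KK s ≤ 64 * 4 ^ (2 * rr s) + 1 := by
  have h1 := N5_KK s
  have h2 := ap_ge s
  have h3 := N5_ap_pos s
  have h4 : 64 / ap s ≤ 64 * 4 ^ (2 * rr s) := by
    rw [div_le_iff₀ h3]
    have h5 : (1 : ℝ) ≤ 4 ^ (2 * rr s) * ap s := by
      calc (1 : ℝ) = 4 ^ (2 * rr s) * (1 / 4) ^ (2 * rr s) := by rw [← mul_pow]; norm_num
        _ ≤ _ := mul_le_mul_of_nonneg_left h2 (by positivity)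
    nlinarith
  have h5 : (KK s : ℝ) ≤ ((64 * 4 ^ (2 * rr s) + 1 : ℕ) : ℝ) := by
    push_cast
    linarith
  exact_mod_cast h5

private theorem N5_x_aux {r z a q : ℝ} (hr : 0 ≤ r) (hz : 0 < z) (hq0 : 0 < q) (hq : q ≤ 1 / 4)
    (ha : a ≤ z) (hl : z + 2 * r * z / (1 - q) ≤ 1 / 16) : (2 * r + 1) * a ≤ 1 / 16 := by
  have hop : 2 * r * z ≤ 2 * r * z / (1 - q) := by
    rw [le_div_iff₀ (by linarith)]
    have h3 : 0 ≤ 2 * r * z := by positivity
    nlinarith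
  have h3 : (2 * r + 1) * a ≤ (2 * r + 1) * z :=
    mul_le_mul_of_nonneg_left ha (by positivity)
  linarith

private theorem N5_x {s : ℕ} (hs : 4 ≤ s) : (2 * (rr s : ℝ) + 1) * ap s ≤ 1 / 16 := by
  have hq : (1 / 2 : ℝ) ^ wl s ≤ 1 / 4 := by
    calc (1 / 2 : ℝ) ^ wl s ≤ (1 / 2) ^ 2 :=
          pow_le_pow_of_le_one (by norm_num) (by norm_num) (by unfold wl; omega)
      _ = 1 / 4 := by norm_num
  exact N5_x_aux (Nat.cast_nonneg _) (zp_pos s s) (by positivity) hq (ap_le (le_refl s))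
    (lp_le hs (le_refl s))

private theorem N5_vK_aux (u v K r : ℕ) (a : ℝ) (ha : a = (u : ℝ) / v) (hv : (0 : ℝ) < v)
    (ha0 : 0 < a) (hx : (2 * (r : ℝ) + 1) * a ≤ 1 / 16) (hK : (K : ℝ) ≤ 64 / a + 1) :
    v ^ K ≤ 4 ^ (130 * (2 * r + 1)) * (v - (2 * r + 1) * u) ^ K := by
  have hr' : (0 : ℝ) ≤ r := Nat.cast_nonneg _
  have hav : a * v = u := by rw [ha]; field_simp
  have huv : (2 * r + 1) * u ≤ v := by
    have h1 : ((2 * r + 1 : ℕ) : ℝ) * (u : ℝ) ≤ v := by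
      have h2 : (2 * (r : ℝ) + 1) * a * v ≤ 1 / 16 * v :=
        mul_le_mul_of_nonneg_right hx hv.le
      rw [mul_assoc, hav] at h2
      push_cast
      linarith
    exact_mod_cast h1
  obtain ⟨x, hxd⟩ : ∃ x : ℝ, x = (2 * (r : ℝ) + 1) * a := ⟨_, rfl⟩
  have h1 : ((v - (2 * r + 1) * u : ℕ) : ℝ) = v * (1 - x) := by
    rw [Nat.cast_sub huv, hxd]
    push_cast
    rw [← hav]
    ring
  have hx0 : 0 ≤ x := by rw [hxd]; positivity
  have hx1 : x ≤ 1 / 2 := by rw [hxd]; linarith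
  have h2 := H583R2.NC.NumP_exp hx0 hx1
  have h3 : x * K ≤ 65 * (2 * r + 1) := by
    have h4 : a * K ≤ 64 + a := by
      calc a * K ≤ a * (64 / a + 1) := mul_le_mul_of_nonneg_left hK ha0.le
        _ = 64 + a := by field_simp
    have h5 : a ≤ 1 := by nlinarith
    have h6 : a * K ≤ 65 := by linarith
    calc x * K = (2 * (r : ℝ) + 1) * (a * K) := by rw [hxd]; ring
      _ ≤ (2 * (r : ℝ) + 1) * 65 := mul_le_mul_of_nonneg_left h6 (by positivity)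
      _ = _ := by ring
  have h4 : Real.exp (-(130 * (2 * (r : ℝ) + 1))) ≤ (1 - x) ^ K := by
    calc Real.exp (-(130 * (2 * (r : ℝ) + 1)))
        ≤ Real.exp (-(2 * (x * K))) :=
          Real.exp_le_exp.2 (by linarith)
      _ = Real.exp (-(2 * x)) ^ K := by
          rw [← Real.exp_nat_mul]
          congr 1
          ring
      _ ≤ _ := pow_le_pow_left₀ (Real.exp_pos _).le h2 _
  have h5 : Real.exp (130 * (2 * (r : ℝ) + 1)) ≤ 4 ^ (130 * (2 * r + 1)) := by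
    have h6 : Real.exp (130 * (2 * (r : ℝ) + 1)) = Real.exp 1 ^ (130 * (2 * r + 1)) := by
      rw [← Real.exp_nat_mul]
      congr 1
      push_cast
      ring
    rw [h6]
    apply pow_le_pow_left₀ (Real.exp_pos _).le
    have := Real.exp_one_lt_d9
    linarith
  have h6 : (1 : ℝ) ≤ 4 ^ (130 * (2 * r + 1)) * (1 - x) ^ K := by
    calc (1 : ℝ) = Real.exp (130 * (2 * (r : ℝ) + 1)) *
          Real.exp (-(130 * (2 * (r : ℝ) + 1))) := by
          rw [← Real.exp_add, add_neg_cancel, Real.exp_zero]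
      _ ≤ _ := mul_le_mul h5 h4 (Real.exp_pos _).le (by positivity)
  have h7 : ((v ^ K : ℕ) : ℝ) ≤
      ((4 ^ (130 * (2 * r + 1)) * (v - (2 * r + 1) * u) ^ K : ℕ) : ℝ) := by
    rw [Nat.cast_pow, Nat.cast_mul, Nat.cast_pow, Nat.cast_pow, h1, mul_pow]
    have e4 : ((4 : ℕ) : ℝ) = 4 := by norm_num
    rw [e4]
    calc (v : ℝ) ^ K = v ^ K * 1 := by rw [mul_one]
      _ ≤ v ^ K * (4 ^ (130 * (2 * r + 1)) * (1 - x) ^ K) :=
          mul_le_mul_of_nonneg_left h6 (by positivity)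
      _ = _ := by rw [mul_left_comm]
  exact_mod_cast h7

private theorem N5_vK {s : ℕ} (hs : 4 ≤ s) :
    vv s ^ KK s ≤ 4 ^ (130 * (2 * rr s + 1)) * (vv s - (2 * rr s + 1) * uu s) ^ KK s :=
  N5_vK_aux (uu s) (vv s) (KK s) (rr s) (ap s) (ap_eq s) (by exact_mod_cast N5_vpos s)
    (N5_ap_pos s) (N5_x hs) (N5_KK s)

private theorem N5_BB {s : ℕ} (hs : 4 ≤ s) : BB s ≤ 4 ^ (130 * (2 * rr s + 1)) + 1 := by
  unfold BB
  apply Nat.succ_le_succ
  apply Nat.div_le_of_le_mul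
  refine (N5_vK hs).trans ?_
  have hr : 3 ≤ rr s := three_le_rr hs
  have h1 : 1 ≤ 2 ^ (rr s + 11) * rr s ^ 2 := Nat.succ_le_of_lt (by positivity)
  calc 4 ^ (130 * (2 * rr s + 1)) * (vv s - (2 * rr s + 1) * uu s) ^ KK s
      = 1 * ((vv s - (2 * rr s + 1) * uu s) ^ KK s * 4 ^ (130 * (2 * rr s + 1))) := by
        rw [one_mul, mul_comm]
    _ ≤ (2 ^ (rr s + 11) * rr s ^ 2) *
        ((vv s - (2 * rr s + 1) * uu s) ^ KK s * 4 ^ (130 * (2 * rr s + 1))) :=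
        Nat.mul_le_mul_right _ h1
    _ = _ := by rw [mul_assoc (2 ^ (rr s + 11) * rr s ^ 2)]

private theorem N5_main {s : ℕ} (hs : 4 ≤ s) :
    KK s ≤ 1024 * s ^ 4 + 1 ∧ BB s ≤ 4 ^ 130 * (2 ^ 520 * s ^ 520) + 1 ∧
      2 ^ mm s ≤ 2 ^ 16 * s ^ 2 := by
  have h2r : 2 ^ rr s ≤ 2 * s := pow_rr_le (by omega)
  refine ⟨?_, ?_, ?_⟩
  · refine (N5_KK_nat s).trans ?_
    apply Nat.succ_le_succ
    calc 64 * 4 ^ (2 * rr s) = 64 * (2 ^ rr s) ^ 4 := by
          rw [← pow_mul, show (4 : ℕ) = 2 ^ 2 by norm_num, ← pow_mul]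
          congr 2
          ring
      _ ≤ 64 * (2 * s) ^ 4 := Nat.mul_le_mul_left _ (Nat.pow_le_pow_left h2r 4)
      _ = _ := by ring
  · refine (N5_BB hs).trans ?_
    apply Nat.succ_le_succ
    calc 4 ^ (130 * (2 * rr s + 1)) = 4 ^ 130 * (2 ^ rr s) ^ 520 := by
          rw [show 130 * (2 * rr s + 1) = 130 + 260 * rr s by ring, pow_add]
          congr 1
          rw [← pow_mul, show (4 : ℕ) = 2 ^ 2 from rfl, ← pow_mul]
          congr 1
          omega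
      _ ≤ 4 ^ 130 * (2 * s) ^ 520 := Nat.mul_le_mul_left _ (Nat.pow_le_pow_left h2r 520)
      _ = _ := by rw [mul_pow]
  · have hr : 3 ≤ rr s := three_le_rr hs
    have h1 : 2 ^ (rr s).size ≤ 2 * rr s := H583R2.NC.NumP_pow_size (by omega)
    have hrs : rr s ≤ s := rr_le s
    unfold mm
    calc 2 ^ (2 * (rr s).size + 14) = 2 ^ 14 * (2 ^ (rr s).size) ^ 2 := by
          rw [pow_add, mul_comm 2, pow_mul]
          ring
      _ ≤ 2 ^ 14 * (2 * s) ^ 2 :=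
          Nat.mul_le_mul_left _ (Nat.pow_le_pow_left (h1.trans (Nat.mul_le_mul_left 2 hrs)) 2)
      _ = _ := by ring

theorem size_poly : ∃ P : Polynomial ℕ, ∀ s, BB s * (2 * KK s) * rr s + BB s + KK s + rr s
    + 2 ^ mm s + 2 * rr s * 2 ^ mm s ≤ P.eval s := by
  set f : ℕ → ℕ := fun s => BB s * (2 * KK s) * rr s + BB s + KK s + rr s
    + 2 ^ mm s + 2 * rr s * 2 ^ mm s with hf
  obtain ⟨c, hc⟩ : ∃ c : ℕ, c = 4 ^ 130 * 2 ^ 520 := ⟨_, rfl⟩
  refine ⟨(Polynomial.C c * Polynomial.X ^ 520 + 1) * (Polynomial.C 2 * (Polynomial.C 1024 *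
    Polynomial.X ^ 4 + 1)) * Polynomial.X + (Polynomial.C c * Polynomial.X ^ 520 + 1) +
    (Polynomial.C 1024 * Polynomial.X ^ 4 + 1) + Polynomial.X +
    Polynomial.C (2 ^ 16) * Polynomial.X ^ 2 +
    Polynomial.C 2 * Polynomial.X * (Polynomial.C (2 ^ 16) * Polynomial.X ^ 2) +
    Polynomial.C (∑ i ∈ Finset.range 4, f i), ?_⟩
  intro s
  have e : Polynomial.eval s ((Polynomial.C c * Polynomial.X ^ 520 + 1) * (Polynomial.C 2 *
    (Polynomial.C 1024 * Polynomial.X ^ 4 + 1)) * Polynomial.X +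
    (Polynomial.C c * Polynomial.X ^ 520 + 1) +
    (Polynomial.C 1024 * Polynomial.X ^ 4 + 1) + Polynomial.X +
    Polynomial.C (2 ^ 16) * Polynomial.X ^ 2 +
    Polynomial.C 2 * Polynomial.X * (Polynomial.C (2 ^ 16) * Polynomial.X ^ 2) +
    Polynomial.C (∑ i ∈ Finset.range 4, f i) : Polynomial ℕ) =
      (c * s ^ 520 + 1) * (2 * (1024 * s ^ 4 + 1)) * s + (c * s ^ 520 + 1) + (1024 * s ^ 4 + 1) +
      s + 2 ^ 16 * s ^ 2 + 2 * s * (2 ^ 16 * s ^ 2) + ∑ i ∈ Finset.range 4, f i := by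
    simp only [Polynomial.eval_add, Polynomial.eval_mul, Polynomial.eval_C, Polynomial.eval_pow,
      Polynomial.eval_X, Polynomial.eval_one]
  rw [e]
  clear e
  change f s ≤ _
  rcases Nat.lt_or_ge s 4 with hs | hs
  · have h1 : f s ≤ ∑ i ∈ Finset.range 4, f i :=
      Finset.single_le_sum (f := f) (fun i _ => Nat.zero_le _) (Finset.mem_range.2 hs)
    exact h1.trans (Nat.le_add_left _ _)
  · obtain ⟨hK, hB, hm⟩ := N5_main hs
    have hB' : BB s ≤ c * s ^ 520 + 1 := by rw [hc, mul_assoc]; exact hB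
    have hr : rr s ≤ s := rr_le s
    clear hB hc
    have h1 : BB s * (2 * KK s) * rr s ≤ (c * s ^ 520 + 1) * (2 * (1024 * s ^ 4 + 1)) * s :=
      Nat.mul_le_mul (Nat.mul_le_mul hB' (Nat.mul_le_mul_left 2 hK)) hr
    have h2 : 2 * rr s * 2 ^ mm s ≤ 2 * s * (2 ^ 16 * s ^ 2) :=
      Nat.mul_le_mul (Nat.mul_le_mul_left 2 hr) hm
    refine le_trans ?_ (Nat.le_add_right _ _)
    rw [hf]
    exact Nat.add_le_add (Nat.add_le_add (Nat.add_le_add (Nat.add_le_add (Nat.add_le_add h1 hB')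
      hK) hr) hm) h2

end Pool.Agent.H673R3.UC
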