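import Pool.Agent.H673R3.UC.L2
import Pool.Agent.H673R3.UC.L2b
import Pool.Agent.H673R3.UC.L2c
import Pool.Agent.H673R3.UC.N5

/-! Task I1 (helper121): instances. -/

namespace Pool.Agent.H673R3.UC

open MeasureTheory Pool.Agent.NPC Pool.Agent.H628R3.RO

theorem I1_sz_unit_replicate (n : ℕ) : sz (List.replicate n ()) = 2 * n + 1 := by
  induction n with
  | zero => simp
  | succ n ih =>
    rw [List.replicate_succ, sz_list_cons, ih, sz_unit]
    ring

theorem I1_cd_mk (κ : Cand) : cd (List.replicate κ.1 (), κ.2) = κ := by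
  unfold cd
  rw [List.length_replicate]

theorem I1_cd_inj {x y : List Unit × List Bool} (h : cd x = cd y) : x = y := by
  unfold cd at h
  rw [Prod.mk.injEq] at h
  refine Prod.ext ?_ h.2
  rw [List.eq_replicate_of_mem (a := ()) (l := x.1) fun _ _ => rfl,
    List.eq_replicate_of_mem (a := ()) (l := y.1) fun _ _ => rfl, h.1]

theorem I1_mem_pick2 {n s b i : ℕ} {A : Oracle} {x : List Unit × List Bool}
    (h : x ∈ pick2 n s b i A) : cd x ∈ pair n s b i ∧ Hit (wl n) (cd x) A := by
  classical
  unfold pick2 at h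
  rw [List.mem_map] at h
  obtain ⟨κ, hκ, rfl⟩ := h
  have h1 := List.mem_of_mem_take hκ
  rw [Finset.mem_toList, Finset.mem_filter] at h1
  rw [I1_cd_mk]
  exact h1

theorem I1_exists_pick2 {n s b i : ℕ} {A : Oracle} (h : A ∉ Low (Zero n s) (One n s) b i) :
    ∃ x ∈ pick2 n s b i A, ∃ y ∈ pick2 n s b i A, x ≠ y := by
  classical
  obtain ⟨κ, hκ, κ', hκ', hne, hh, hh'⟩ := not_low_iff.1 h
  have hc : 1 < ((pair n s b i).filter (fun κ => Hit (wl n) κ A)).card :=
    Finset.one_lt_card.2 ⟨κ, Finset.mem_filter.2 ⟨hκ, hh⟩, κ', Finset.mem_filter.2 ⟨hκ', hh'⟩, hne⟩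
  have hnd := ((pair n s b i).filter (fun κ => Hit (wl n) κ A)).nodup_toList
  rw [← Finset.length_toList] at hc
  unfold pick2
  rcases hl : ((pair n s b i).filter (fun κ => Hit (wl n) κ A)).toList with _ | ⟨a, _ | ⟨b', l⟩⟩
  · rw [hl] at hc
    simp at hc
  · rw [hl] at hc
    simp at hc
  · rw [hl] at hnd
    have hab : a ≠ b' := by
      intro hab
      subst hab
      simp at hnd
    refine ⟨(List.replicate a.1 (), a.2), by simp, (List.replicate b'.1 (), b'.2), by simp, ?_⟩
    intro heq
    apply hab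
    rw [← I1_cd_mk a, ← I1_cd_mk b', heq]

theorem I1_pick2_congr {n s b i : ℕ} {A A' : Oracle}
    (h : ∀ κ ∈ pair n s b i, (Hit (wl n) κ A ↔ Hit (wl n) κ A')) :
    pick2 n s b i A = pick2 n s b i A' := by
  classical
  unfold pick2
  rw [Finset.filter_congr h]

theorem I1_flatMap_congr {α β : Type*} {l : List α} {f g : α → List β} (h : ∀ a ∈ l, f a = g a) :
    l.flatMap f = l.flatMap g := by
  induction l with
  | nil => rfl
  | cons a l ih =>
    rw [List.flatMap_cons, List.flatMap_cons, h a List.mem_cons_self,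
      ih fun x hx => h x (List.mem_cons_of_mem _ hx)]

theorem I1_certs_congr {n s b j : ℕ} {A A' : Oracle}
    (h : ∀ i < KK s, i ≠ j → pick2 n s b i A = pick2 n s b i A') :
    certs n s b j A = certs n s b j A' := by
  unfold certs
  apply I1_flatMap_congr
  intro i hi
  rw [List.mem_filter, List.mem_range, decide_eq_true_eq] at hi
  exact h i hi.1 hi.2

theorem I1_inst_of_certs {n s b j : ℕ} {A A' : Oracle} (h : certs n s b j A = certs n s b j A') :
    inst n s b j A = inst n s b j A' := by
  unfold inst instD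
  rw [h]

theorem I1_mem_certs {n s b j : ℕ} {A : Oracle} {x : List Unit × List Bool}
    (hx : x ∈ certs n s b j A) :
    ∃ i < KK s, i ≠ j ∧ cd x ∈ pair n s b i ∧ Hit (wl n) (cd x) A := by
  unfold certs at hx
  rw [List.mem_flatMap] at hx
  obtain ⟨i, hi, h⟩ := hx
  rw [List.mem_filter, List.mem_range, decide_eq_true_eq] at hi
  exact ⟨i, hi.1, hi.2, I1_mem_pick2 h⟩

theorem I1_certs_of_pick2 {n s b j i : ℕ} {A : Oracle} (hi : i < KK s) (h1 : i ≠ j)
    {x : List Unit × List Bool} (hx : x ∈ pick2 n s b i A) : x ∈ certs n s b j A := by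
  unfold certs
  rw [List.mem_flatMap]
  refine ⟨i, ?_, hx⟩
  rw [List.mem_filter, List.mem_range, decide_eq_true_eq]
  exact ⟨hi, h1⟩

theorem I1_length_flatMap {α β : Type*} (l : List α) (f : α → List β) (m : ℕ)
    (h : ∀ a, (f a).length ≤ m) : (l.flatMap f).length ≤ l.length * m := by
  induction l with
  | nil => simp
  | cons a l ih =>
    rw [List.flatMap_cons, List.length_append, List.length_cons, add_mul, one_mul]
    have := h a
    omega

theorem I1_length_certs (n s b j : ℕ) (A : Oracle) : (certs n s b j A).length ≤ KK s * 2 := by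
  unfold certs
  refine (I1_length_flatMap _ _ 2 ?_).trans (Nat.mul_le_mul_right _ ?_)
  · intro i
    unfold pick2
    rw [List.length_map]
    exact List.length_take_le _ _
  · refine (List.length_filter_le _ _).trans ?_
    rw [List.length_range]

theorem inst_length : ∃ P : Polynomial ℕ, ∀ n s b j A, s ≤ n → b < BB s → j < KK s →
    (inst n s b j A).length ≤ P.eval n := by
  obtain ⟨P, hP⟩ := size_poly
  refine ⟨Polynomial.C 300 * (Polynomial.X + P + 1) * (Polynomial.X + P + 1), ?_⟩
  intro n s b j A hs hb hj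
  have h1 : BB s * (2 * KK s) * rr s + BB s + KK s ≤ P.eval s := by
    have h0 := hP s
    generalize 2 ^ mm s = z at h0
    omega
  have h2 : P.eval s ≤ P.eval n := eval_mono P hs
  set N := P.eval n with hN
  have hb' : b ≤ N := by omega
  have hK : KK s ≤ N := by omega
  have hj' : j ≤ N := by omega
  have hlen := I1_length_certs n s b j A
  have hsz : ∀ x ∈ certs n s b j A, sz x ≤ 2 * N + 4 * wl n + 3 := by
    rintro x hx
    obtain ⟨i, hi, -, hsl, -⟩ := I1_mem_certs hx
    have h3 := pair_subset (n := n) hb hi hsl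
    have h4 : (cd x).2.length = wl n := (mem_pair.1 hsl).2
    have h5 : (cd x).1 < BB s * (2 * KK s) * rr s := by
      unfold blk at h3
      rw [mem_cands, Finset.mem_range] at h3
      exact h3.1
    have h6 : x = (List.replicate x.1.length (), x.2) := by
      refine Prod.ext ?_ rfl
      exact List.eq_replicate_of_mem fun _ _ => rfl
    have h7 : sz x = sz (List.replicate x.1.length ()) + sz x.2 + 1 := by
      conv_lhs => rw [h6]
      rw [sz_pair]
    have h8 := sz_listBool_le x.2
    have h9 : x.2.length = wl n := h4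
    have h10 : x.1.length < BB s * (2 * KK s) * rr s := h5
    rw [h7, I1_sz_unit_replicate]
    omega
  have hc := sz_le_length_mul (certs n s b j A) _ hsz
  have hbz := sz_nat_le b
  have hjz := sz_nat_le j
  have hbs : b.size ≤ b := Nat.size_le.2 Nat.lt_two_pow_self
  have hjs : j.size ≤ j := Nat.size_le.2 Nat.lt_two_pow_self
  have hL : (inst n s b j A).length = sz (List.replicate n ()) +
      (sz b + (sz j + sz (certs n s b j A) + 1) + 1) + 1 := by
    unfold inst instD
    rw [bits_length, sz_pair, sz_pair, sz_pair]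
  rw [hL, I1_sz_unit_replicate]
  have hc2 : sz (certs n s b j A) ≤ (N * 2) * (2 * N + 4 * wl n + 3 + 1) + 1 :=
    hc.trans (by
      have h3 : (certs n s b j A).length ≤ N * 2 := hlen.trans (Nat.mul_le_mul_right _ hK)
      gcongr)
  have hw : wl n = 2 * n + 16 := rfl
  rw [hw] at hc2
  simp only [Polynomial.eval_add, Polynomial.eval_mul, Polynomial.eval_C, Polynomial.eval_X,
    Polynomial.eval_one, ← hN]
  nlinarith [Nat.zero_le (N * n), Nat.zero_le (N * N), Nat.zero_le (n * n), Nat.zero_le N,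
    Nat.zero_le n]

theorem inst_plant {n s b j : ℕ} (hj : j < KK s) {h : Finset Cand}
    (hh : h ⊆ pair n s b j) (A : Oracle) :
    inst n s b j (plant (allSpots (wl n) h) A) = inst n s b j A := by
  apply I1_inst_of_certs
  apply I1_certs_congr
  intro i hi h1
  apply I1_pick2_congr
  intro κ hκ
  apply M2.hit_plant
  intro hκ'
  exact Finset.disjoint_left.1 (pair_disjoint (n := n) (b := b) (b' := b) hi hj (Or.inr h1)) hκ
    (hh hκ')

theorem inst_congr {n s b j : ℕ} (hb : b < BB s) {A A' : Oracle}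
    (h : ∀ x ∈ spotsB n s, A x = A' x) : inst n s b j A = inst n s b j A' := by
  apply I1_inst_of_certs
  apply I1_certs_congr
  intro i hi h1
  apply I1_pick2_congr
  intro κ hκ
  unfold Hit
  refine forall₂_congr fun l hl => ?_
  rw [h _ (pos_mem_spotsB (pair_subset hb hi hκ) hl)]

theorem inst_cert {n s b j : ℕ} (hb : b < BB s) (hj : j < KK s) {A : Oracle}
    (hA : A ∈ Others n s b j) : Cert A s (instD n s b j A) := by
  have hlen : (List.replicate n ()).length = n := List.length_replicate
  refine ⟨⟨hb, hj, ?_, ?_⟩, ?_⟩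
  · intro κ hκ
    obtain ⟨i, -, -, h1, -⟩ := I1_mem_certs hκ
    show κ.2.length = wl (List.replicate n ()).length
    rw [hlen]
    exact (mem_pair.1 h1).2
  · intro i hi h1
    obtain ⟨x, hx, y, hy, hxy⟩ := I1_exists_pick2 (hA i hi h1)
    exact ⟨x, I1_certs_of_pick2 hi h1 hx, y, I1_certs_of_pick2 hi h1 hy, hxy,
      (mem_pair.1 (I1_mem_pick2 hx).1).1, (mem_pair.1 (I1_mem_pick2 hy).1).1⟩
  · intro κ hκ
    obtain ⟨i, -, -, -, h1⟩ := I1_mem_certs hκ
    show Hit (wl (List.replicate n ()).length) (cd κ) A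
    rw [hlen]
    exact h1

/-- correct certificates for pair `j` mean that all other pairs are not low -/
theorem others_of_cert {A : Oracle} {s : ℕ} {D : Data} (h : Cert A s D) :
    A ∈ Others D.1.length s D.2.1 D.2.2.1 := by
  intro i hi h1
  obtain ⟨⟨-, -, h3, h4⟩, h5⟩ := h
  obtain ⟨κ, hκ, κ', hκ', hne, h6, h7⟩ := h4 i hi h1
  rw [not_low_iff]
  exact ⟨cd κ, mem_pair.2 ⟨h6, h3 κ hκ⟩, cd κ', mem_pair.2 ⟨h7, h3 κ' hκ'⟩,
    fun he => hne (I1_cd_inj he), h5 κ hκ, h5 κ' hκ'⟩

end Pool.Agent.H673R3.UC
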