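import Pool.Agent.H673R3.UC.N6
import Pool.Agent.H673R3.UC.I1
import Pool.Agent.H628R3.RO.G2

/-! Task M1: the language is in UP and coUP. -/

namespace Pool.Agent.H673R3.UC

open MeasureTheory Pool.Agent.NPC Pool.Agent.H628R3.RO Pool.Agent.H628R3.RO.G2

namespace Mem

/-! ### halves -/

theorem notMem_noHit {A : Oracle} {n s b i : ℕ} : A ∉ NoHit (wl n) (half n s b i) ↔
    ∃ (c : ℕ) (w : List Bool), (b * (2 * KK s) + i) * rr s ≤ c ∧
      c < (b * (2 * KK s) + i + 1) * rr s ∧ w.length = wl n ∧ Hit (wl n) (c, w) A := by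
  unfold NoHit
  rw [Set.mem_ofPred_eq]
  push Not
  constructor
  · rintro ⟨κ, h1, h2⟩
    rw [mem_half] at h1
    exact ⟨κ.1, κ.2, h1.1, h1.2.1, h1.2.2, h2⟩
  · rintro ⟨c, w, h1, h2, h3, h4⟩
    exact ⟨(c, w), mem_half.2 ⟨h1, h2, h3⟩, h4⟩

/-! ### decoding -/

/-- decoding of an instance, with its level -/
def dcd (f : ℕ → Option ℕ) (x : List Bool) : Option (Data × ℕ) :=
  (unbits Data x).bind fun D => (f D.1.length).map fun s => (D, s)

theorem dcd_eq {f : ℕ → Option ℕ} {x : List Bool} {D : Data} {s : ℕ} :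
    dcd f x = some (D, s) ↔ bits D = x ∧ f D.1.length = some s := by
  unfold dcd
  rw [Option.bind_eq_some_iff]
  constructor
  · rintro ⟨D', h1, h2⟩
    rw [Option.map_eq_some_iff] at h2
    obtain ⟨s', h3, h4⟩ := h2
    obtain ⟨rfl, rfl⟩ := Prod.mk.inj h4
    exact ⟨bits_of_unbits h1, h3⟩
  · rintro ⟨rfl, h2⟩
    exact ⟨D, unbits_bits D, by rw [h2]; rfl⟩

theorem poly_dcd {f : ℕ → Option ℕ} (hf : Poly (fun x : List Unit => f x.length)) :
    Poly (dcd f) := by
  refine Poly.optBind (f := fun _ (D : Data) => (f D.1.length).map fun s => (D, s))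
    poly_unbits ?_
  refine Poly.optMap (f := fun (p : List Bool × Data) s => (p.2, s))
    (hf.comp (Poly.fst (Poly.snd Poly.id))) ?_
  exact Poly.pair (Poly.snd (Poly.fst Poly.id)) (Poly.snd Poly.id)

/-- the level, cut off at the stage -/
def lev (p : Data × ℕ) : ℕ := min p.2 p.1.1.length

section

variable {α : Type} [TEnc α]

theorem u_lev {p : α → Data × ℕ} (hp : Poly p) : UPoly (fun a => lev (p a)) :=
  UPoly.of_le (Poly.min (Poly.snd hp) (Poly.length (Poly.fst (Poly.fst hp))))
    (UPoly.length (Poly.fst (Poly.fst hp))) fun _ => min_le_right _ _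

theorem u_wl {l : α → List Unit} (hl : Poly l) : UPoly (fun a => wl (l a).length) :=
  (UPoly.add (UPoly.mul (UPoly.const 2) (UPoly.length hl)) (UPoly.const 16)).congr fun _ => rfl

/-- the range condition: copies of the halves `i, ..., i' - 1` -/
def rngB (p : Data × ℕ) (i i' c : ℕ) : Bool :=
  decide ((p.1.2.1 * (2 * KK (lev p)) + i) * rr (lev p) ≤ c) &&
    decide (c < (p.1.2.1 * (2 * KK (lev p)) + i') * rr (lev p))

theorem poly_rngB {p : α → Data × ℕ} {i i' c : α → ℕ} (hp : Poly p) (hi : Poly i)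
    (hi' : Poly i') (hc : Poly c) :
    Poly (fun a => rngB (p a) (i a) (i' a) (c a)) := by
  have hK := Poly.mul (NPC.Poly.const 2) (u_KK (u_lev hp)).toPoly
  have hq := (u_rr (u_lev hp).toPoly).toPoly
  have hb : Poly (fun a => (p a).1.2.1) := Poly.fst (Poly.snd (Poly.fst hp))
  have h1 := Poly.add (Poly.mul hb hK) hi
  have h2 := Poly.add (Poly.mul hb hK) hi'
  exact Poly.and (Poly.decide_le (Poly.mul h1 hq) hc)
    (Poly.decide_lt hc (Poly.mul h2 hq))

/-- two different certificates for pair `i` -/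
def anyB (p : Data × ℕ) (i : ℕ) : Bool :=
  p.1.2.2.2.any (fun κ => p.1.2.2.2.any (fun κ' => !decide (κ = κ') &&
    (rngB p (2 * i) (2 * i + 2) κ.1.length && rngB p (2 * i) (2 * i + 2) κ'.1.length)))

/-- the conditions on the data -/
def synB (p : Data × ℕ) : Bool :=
  (decide (p.1.2.1 < BB (lev p)) && decide (p.1.2.2.1 < KK (lev p))) &&
    (p.1.2.2.2.all (fun κ => decide (κ.2.length = wl p.1.1.length)) &&
      (List.range (KK (lev p))).all (fun i => decide (i = p.1.2.2.1) || anyB p i))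

theorem anyB_iff (p : Data × ℕ) (i : ℕ) : anyB p i = true ↔
    ∃ κ ∈ p.1.2.2.2, ∃ κ' ∈ p.1.2.2.2, κ ≠ κ' ∧
      InP (lev p) p.1.2.1 i κ.1.length ∧ InP (lev p) p.1.2.1 i κ'.1.length := by
  unfold anyB rngB InP
  simp only [Bool.and_eq_true, decide_eq_true_eq, List.any_eq_true, Bool.not_eq_true',
    decide_eq_false_iff_not, ← Nat.add_assoc]

theorem synB_iff (p : Data × ℕ) : synB p = true ↔ Syn (lev p) p.1 := by
  unfold synB Syn
  simp only [Bool.and_eq_true, decide_eq_true_eq, List.all_eq_true, List.mem_range,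
    Bool.or_eq_true, anyB_iff]
  constructor
  · rintro ⟨⟨h1, h2⟩, h3, h4⟩
    refine ⟨h1, h2, h3, fun i hi h5 => ?_⟩
    rcases h4 i hi with h | h
    · exact absurd h h5
    · exact h
  · rintro ⟨h1, h2, h3, h4⟩
    refine ⟨⟨h1, h2⟩, h3, fun i hi => ?_⟩
    by_cases h5 : i = p.1.2.2.1
    · exact Or.inl h5
    · exact Or.inr (h4 i hi h5)

theorem poly_anyB {p : α → Data × ℕ} {i : α → ℕ} (hp : Poly p) (hi : Poly i) :
    Poly (fun a => anyB (p a) (i a)) := by
  have hl : Poly (fun a => (p a).1.2.2.2) := Poly.snd (Poly.snd (Poly.snd (Poly.fst hp)))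
  have h1 : Poly (fun q : (α × (List Unit × List Bool)) × (List Unit × List Bool) =>
      !decide (q.1.2 = q.2) &&
      (rngB (p q.1.1) (2 * i q.1.1) (2 * i q.1.1 + 2) q.1.2.1.length &&
        rngB (p q.1.1) (2 * i q.1.1) (2 * i q.1.1 + 2) q.2.1.length)) := by
    have k1 : Poly (fun q : (α × (List Unit × List Bool)) × (List Unit × List Bool) => q.1.1) :=
      Poly.fst (Poly.fst Poly.id)
    have k2 : Poly (fun q : (α × (List Unit × List Bool)) × (List Unit × List Bool) => q.1.2) :=
      Poly.snd (Poly.fst Poly.id)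
    have k3 : Poly (fun q : (α × (List Unit × List Bool)) × (List Unit × List Bool) => q.2) :=
      Poly.snd Poly.id
    have k4 : Poly (fun q : (α × (List Unit × List Bool)) × (List Unit × List Bool) =>
      2 * i q.1.1) := Poly.mul (NPC.Poly.const 2) (hi.comp k1)
    have k5 : Poly (fun q : (α × (List Unit × List Bool)) × (List Unit × List Bool) =>
      2 * i q.1.1 + 2) := Poly.add k4 (NPC.Poly.const 2)
    exact Poly.and (Poly.not (Poly.decide_eq k2 k3))
      (Poly.and (poly_rngB (hp.comp k1) k4 k5 (Poly.length (Poly.fst k2)))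
        (poly_rngB (hp.comp k1) k4 k5 (Poly.length (Poly.fst k3))))
  exact Poly.any (p := fun a (κ : List Unit × List Bool) =>
    (p a).1.2.2.2.any (fun κ' => !decide (κ = κ') &&
    (rngB (p a) (2 * i a) (2 * i a + 2) κ.1.length &&
      rngB (p a) (2 * i a) (2 * i a + 2) κ'.1.length))) hl
    (Poly.any (p := fun (q : α × (List Unit × List Bool)) (κ' : List Unit × List Bool) =>
      !decide (q.2 = κ') &&
      (rngB (p q.1) (2 * i q.1) (2 * i q.1 + 2) q.2.1.length &&
        rngB (p q.1) (2 * i q.1) (2 * i q.1 + 2) κ'.1.length))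
      (hl.comp (Poly.fst Poly.id)) h1)

theorem poly_synB {p : α → Data × ℕ} (hp : Poly p) : Poly (fun a => synB (p a)) := by
  have hj : Poly (fun a => (p a).1.2.2.1) := Poly.fst (Poly.snd (Poly.snd (Poly.fst hp)))
  have hl : Poly (fun a => (p a).1.2.2.2) := Poly.snd (Poly.snd (Poly.snd (Poly.fst hp)))
  have k1 : Poly (fun q : α × (List Unit × List Bool) =>
      decide (q.2.2.length = wl (p q.1).1.1.length)) := by
    have hw : Poly (fun q : α × (List Unit × List Bool) => wl (p q.1).1.1.length) :=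
      (u_wl ((Poly.fst (Poly.fst hp)).comp (Poly.fst Poly.id))).toPoly
    exact Poly.decide_eq (Poly.length (Poly.snd (Poly.snd Poly.id))) hw
  have k2 : Poly (fun q : α × ℕ => decide (q.2 = (p q.1).1.2.2.1) || anyB (p q.1) q.2) := by
    have hp' : Poly (fun q : α × ℕ => p q.1) := hp.comp (Poly.fst Poly.id)
    have hi' : Poly (fun q : α × ℕ => q.2) := Poly.snd Poly.id
    exact Poly.or (Poly.decide_eq hi' (hj.comp (Poly.fst Poly.id))) (poly_anyB hp' hi')
  have k3 : Poly (fun a => (p a).1.2.2.2.all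
      (fun κ => decide (κ.2.length = wl (p a).1.1.length))) :=
    Poly.all (p := fun a (κ : List Unit × List Bool) =>
      decide (κ.2.length = wl (p a).1.1.length)) hl k1
  have k4 : Poly (fun a => (List.range (KK (lev (p a)))).all
      (fun i => decide (i = (p a).1.2.2.1) || anyB (p a) i)) :=
    Poly.all (p := fun a i => decide (i = (p a).1.2.2.1) || anyB (p a) i)
      (u_KK (u_lev hp)).range k2
  exact Poly.and (Poly.and (Poly.decide_lt (Poly.fst (Poly.snd (Poly.fst hp)))
    (u_BB (u_lev hp)).toPoly) (Poly.decide_lt hj (u_KK (u_lev hp)).toPoly))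
    (Poly.and k3 k4)

/-- the strings of a candidate -/
def sps (n : ℕ) (c : ℕ) (w : List Bool) : List (List Bool) :=
  (List.range (wl n)).map (fun l => pos c (min l (wl n)) w)

theorem poly_sps {l : α → List Unit} {c : α → ℕ} {w : α → List Bool} (hl : Poly l)
    (hc : UPoly c) (hw : Poly w) : Poly (fun a => sps (l a).length (c a) (w a)) :=
  p_spots hc (u_wl hl) hw

end

/-- the strings of the list -/
def lstQ (D : Data) : List (List Bool) :=
  D.2.2.2.flatMap (fun κ => sps D.1.length κ.1.length κ.2)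

theorem poly_lstQ : Poly lstQ := by
  refine Poly.flatMap (F := fun (D : Data) κ => sps D.1.length κ.1.length κ.2)
    (Poly.snd (Poly.snd (Poly.snd Poly.id))) ?_
  exact poly_sps (Poly.fst (Poly.fst Poly.id)) (UPoly.length (Poly.fst (Poly.snd Poly.id)))
    (Poly.snd (Poly.snd Poly.id))

theorem forall_lstQ {A : Oracle} {D : Data} :
    (∀ z ∈ lstQ D, A z = true) ↔ ∀ κ ∈ D.2.2.2, Hit (wl D.1.length) (cd κ) A := by
  unfold lstQ
  constructor
  · intro h κ hκ
    exact forall_spots.1 fun z hz => h z (List.mem_flatMap.2 ⟨κ, hκ, hz⟩)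
  · intro h z hz
    obtain ⟨κ, hκ, hz⟩ := List.mem_flatMap.1 hz
    exact forall_spots.2 (h κ hκ) z hz

/-- canonical form of a witness -/
def canW (w : List Bool) : List Bool :=
  pairBits ((unpair w).1.map (fun _ => true)) (unpair w).2

theorem canW_eq (w : List Bool) :
    canW w = pairBits (List.replicate (unpair w).1.length true) (unpair w).2 := by
  unfold canW
  rw [List.map_const']

theorem canW_pair (c : ℕ) (v : List Bool) :
    canW (pairBits (List.replicate c true) v) = pairBits (List.replicate c true) v := by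
  rw [canW_eq, unpair_pairBits, List.length_replicate]

/-! ### the two verifiers -/

/-- the test of the certificates -/
def g1 (f : ℕ → Option ℕ) (p : List Bool × List Bool) : Bool :=
  match dcd f p.1 with
  | none => false
  | some q => synB q

/-- the questions for the certificates -/
def q1 (f : ℕ → Option ℕ) (p : List Bool × List Bool) : List (List Bool) :=
  match dcd f p.1 with
  | none => []
  | some q => lstQ q.1

/-- the test of the witness, for half `2 j` or `2 j + 1` -/
def g2 (f : ℕ → Option ℕ) (e : Bool) (p : List Bool × List Bool) : Bool :=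
  match dcd f p.1 with
  | none => false
  | some q => (rngB q (2 * q.1.2.2.1 + e.toNat) (2 * q.1.2.2.1 + e.toNat + 1)
      (unpair p.2).1.length && decide ((unpair p.2).2.length = wl q.1.1.length)) &&
      decide (p.2 = canW p.2)

/-- the questions for the witness -/
def q2 (f : ℕ → Option ℕ) (p : List Bool × List Bool) : List (List Bool) :=
  match dcd f p.1 with
  | none => []
  | some q => sps q.1.1.length (unpair p.2).1.length (unpair p.2).2

section

variable {f : ℕ → Option ℕ} (hf : Poly (fun x : List Unit => f x.length))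
include hf

theorem poly_g1 : Poly (g1 f) := by
  refine (Poly.optCases (o := fun p : List Bool × List Bool => dcd f p.1) (g := fun _ => false)
    (h := fun _ q => synB q) ((poly_dcd hf).comp (Poly.fst Poly.id)) (NPC.Poly.const _)
    (poly_synB (Poly.snd Poly.id))).congr fun p => ?_
  unfold g1
  cases dcd f p.1 <;> rfl

theorem poly_q1 : Poly (q1 f) := by
  refine (Poly.optCases (o := fun p : List Bool × List Bool => dcd f p.1) (g := fun _ => [])
    (h := fun _ q => lstQ q.1) ((poly_dcd hf).comp (Poly.fst Poly.id)) (NPC.Poly.const _)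
    (poly_lstQ.comp (Poly.fst (Poly.snd Poly.id)))).congr fun p => ?_
  unfold q1
  cases dcd f p.1 <;> rfl

theorem poly_g2 (e : Bool) : Poly (g2 f e) := by
  refine (Poly.optCases (o := fun p : List Bool × List Bool => dcd f p.1) (g := fun _ => false)
    (h := fun p q => (rngB q (2 * q.1.2.2.1 + e.toNat) (2 * q.1.2.2.1 + e.toNat + 1)
      (unpair p.2).1.length && decide ((unpair p.2).2.length = wl q.1.1.length)) &&
      decide (p.2 = canW p.2)) ((poly_dcd hf).comp (Poly.fst Poly.id))
    (NPC.Poly.const _) ?_).congr fun p => ?_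
  · have h3 : Poly (fun p : (List Bool × List Bool) × (Data × ℕ) => p.1.2) :=
      Poly.snd (Poly.fst Poly.id)
    have h4 : Poly (fun p : (List Bool × List Bool) × (Data × ℕ) => (unpair p.1.2)) :=
      poly_unpair.comp h3
    have h5 : Poly (fun p : (List Bool × List Bool) × (Data × ℕ) => p.2) := Poly.snd Poly.id
    have h6 : Poly (fun p : (List Bool × List Bool) × (Data × ℕ) =>
        2 * p.2.1.2.2.1 + e.toNat) := Poly.add (Poly.mul (NPC.Poly.const 2)
      (Poly.fst (Poly.snd (Poly.snd (Poly.fst h5))))) (NPC.Poly.const _)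
    have h7 : Poly (fun p : (List Bool × List Bool) × (Data × ℕ) => canW p.1.2) :=
      Pool.Agent.H622R2.poly_pairBits
        (NPC.Poly.map (F := fun (_ : (List Bool × List Bool) × (Data × ℕ)) (_ : Bool) => true)
          (Poly.fst h4) (NPC.Poly.const true)) (Poly.snd h4)
    refine Poly.and (Poly.and (poly_rngB h5 h6 (Poly.add h6 (NPC.Poly.const 1))
      (Poly.length (Poly.fst h4)))
      (Poly.decide_eq (Poly.length (Poly.snd h4)) (u_wl (Poly.fst (Poly.fst h5))).toPoly))
      (Poly.decide_eq h3 h7)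
  · unfold g2
    cases dcd f p.1 <;> rfl

theorem poly_q2 : Poly (q2 f) := by
  refine (Poly.optCases (o := fun p : List Bool × List Bool => dcd f p.1) (g := fun _ => [])
    (h := fun p q => sps q.1.1.length (unpair p.2).1.length (unpair p.2).2)
    ((poly_dcd hf).comp (Poly.fst Poly.id)) (NPC.Poly.const _) ?_).congr fun p => ?_
  · have h4 : Poly (fun p : (List Bool × List Bool) × (Data × ℕ) => (unpair p.1.2)) :=
      poly_unpair.comp (Poly.snd (Poly.fst Poly.id))
    exact poly_sps (Poly.fst (Poly.fst (Poly.snd Poly.id))) (UPoly.length (Poly.fst h4))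
      (Poly.snd h4)
  · unfold q2
    cases dcd f p.1 <;> rfl

end

section

variable {f : ℕ → Option ℕ} (hfn : ∀ n s, f n = some s → s ≤ n)
include hfn

theorem lev_eq {x : List Bool} {D : Data} {s : ℕ} (h : dcd f x = some (D, s)) :
    lev (D, s) = s :=
  min_eq_left (hfn _ _ (dcd_eq.1 h).2)

theorem cert_iff {A : Oracle} {x w : List Bool} :
    (g1 f (x, w) = true ∧ ∀ z ∈ q1 f (x, w), A z = true) ↔
      ∃ D s, dcd f x = some (D, s) ∧ Cert A s D := by
  unfold g1 q1
  simp only
  cases h : dcd f x with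
  | none => simp
  | some q =>
    obtain ⟨D, s⟩ := q
    simp only
    rw [synB_iff, lev_eq hfn h, forall_lstQ]
    constructor
    · rintro ⟨h1, h2⟩
      exact ⟨D, s, rfl, h1, h2⟩
    · rintro ⟨D', s', h1, h2⟩
      obtain ⟨rfl, rfl⟩ := Prod.mk.inj (Option.some.inj h1)
      exact h2

theorem wit_iff {A : Oracle} {x w : List Bool} {D : Data} {s : ℕ} {e : Bool}
    (h : dcd f x = some (D, s)) :
    (g2 f e (x, w) = true ∧ ∀ z ∈ q2 f (x, w), A z = true) ↔
      (w = canW w ∧ ((unpair w).1.length, (unpair w).2) ∈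
        half D.1.length s D.2.1 (2 * D.2.2.1 + e.toNat) ∧
        Hit (wl D.1.length) ((unpair w).1.length, (unpair w).2) A) := by
  unfold g2 q2 rngB
  rw [mem_half]
  simp only [h, lev_eq hfn h, Bool.and_eq_true, decide_eq_true_eq, ← Nat.add_assoc]
  rw [show (∀ z ∈ sps D.1.length (unpair w).1.length (unpair w).2, A z = true) ↔
    Hit (wl D.1.length) ((unpair w).1.length, (unpair w).2) A from forall_spots]
  tauto

theorem wit_inj {A : Oracle} {x w w' : List Bool} {D : Data} {s : ℕ} {e : Bool}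
    (h : dcd f x = some (D, s)) (hO : A ∈ One D.1.length s D.2.1 D.2.2.1)
    (hw : g2 f e (x, w) = true ∧ ∀ z ∈ q2 f (x, w), A z = true)
    (hw' : g2 f e (x, w') = true ∧ ∀ z ∈ q2 f (x, w'), A z = true) : w = w' := by
  rw [wit_iff hfn h] at hw hw'
  obtain ⟨κ, -, -, h1⟩ := mem_One_iff.1 hO
  have hsub : half D.1.length s D.2.1 (2 * D.2.2.1 + e.toNat) ⊆
      pair D.1.length s D.2.1 D.2.2.1 := by
    cases e
    · exact Finset.subset_union_left
    · exact Finset.subset_union_right
  have h2 := h1 _ (hsub hw.2.1) hw.2.2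
  have h3 := h1 _ (hsub hw'.2.1) hw'.2.2
  rw [← h3] at h2
  obtain ⟨h4, h5⟩ := Prod.mk.inj h2
  rw [hw.1, hw'.1, canW_eq, canW_eq, h4, h5]

/-- existence of short witnesses -/
theorem exists_wit {P : Polynomial ℕ} (hP : ∀ s, BB s * (2 * KK s) * rr s + BB s + KK s + rr s
    + 2 ^ mm s + 2 * rr s * 2 ^ mm s ≤ P.eval s) {A : Oracle} {x : List Bool} {D : Data} {s : ℕ}
    {e : Bool} (h : dcd f x = some (D, s)) (hS : Syn s D)
    (hA : A ∉ NoHit (wl D.1.length) (half D.1.length s D.2.1 (2 * D.2.2.1 + e.toNat))) :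
    ∃ w : List Bool, w.length ≤ (Polynomial.C 2 * P + Polynomial.C 2 * Polynomial.X +
      Polynomial.C 17).eval x.length ∧
      (g2 f e (x, w) = true ∧ ∀ z ∈ q2 f (x, w), A z = true) := by
  obtain ⟨c, w, h1, h2, h3, h4⟩ := notMem_noHit.1 hA
  obtain ⟨hx, hs⟩ := dcd_eq.1 h
  refine ⟨pairBits (List.replicate c true) w, ?_, ?_⟩
  · rw [A2.length_pairBits, List.length_replicate, h3]
    have hn : D.1.length ≤ x.length := by
      rw [← hx, bits_length]
      have e1 := length_lt_sz D.1
      have e2 : sz D.1 ≤ sz D := by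
        obtain ⟨l, b, j, L⟩ := D
        simp only [sz_pair]
        omega
      omega
    have e3 : c < P.eval s := by
      have e4 : D.2.1 * (2 * KK s) + (2 * D.2.2.1 + e.toNat) + 1 ≤ BB s * (2 * KK s) := by
        have e5 := hS.1
        have e6 := hS.2.1
        have e8 : e.toNat ≤ 1 := Bool.toNat_le e
        calc D.2.1 * (2 * KK s) + (2 * D.2.2.1 + e.toNat) + 1 ≤
            D.2.1 * (2 * KK s) + 2 * KK s := by omega
          _ = (D.2.1 + 1) * (2 * KK s) := by ring
          _ ≤ BB s * (2 * KK s) := Nat.mul_le_mul_right _ e5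
      have e9 := Nat.mul_le_mul_right (rr s) e4
      have e10 := hP s
      have e14 : BB s * (2 * KK s) * rr s ≤ P.eval s := by
        refine le_trans ?_ e10
        rw [add_assoc, add_assoc, add_assoc, add_assoc]
        exact Nat.le_add_right _ _
      omega
    have e4 : P.eval s ≤ P.eval x.length :=
      eval_mono P ((hfn _ _ hs).trans hn)
    simp only [Polynomial.eval_add, Polynomial.eval_mul, Polynomial.eval_C, Polynomial.eval_X]
    unfold wl
    omega
  · rw [wit_iff hfn h]
    simp only [unpair_pairBits, List.length_replicate]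
    exact ⟨(canW_pair c w).symm, mem_half.2 ⟨h1, h2, h3⟩, h4⟩

omit hfn in
/-- exactly one of the two halves has a hit -/
theorem half_iff {A : Oracle} {D : Data} {s : ℕ}
    (hO : A ∈ One D.1.length s D.2.1 D.2.2.1) :
    A ∈ NoHit (wl D.1.length) (half D.1.length s D.2.1 (2 * D.2.2.1)) ↔
      A ∉ NoHit (wl D.1.length) (half D.1.length s D.2.1 (2 * D.2.2.1 + 1)) := by
  obtain ⟨κ, h1, h2, h3⟩ := mem_One_iff.1 hO
  constructor
  · intro h4 h5
    rcases Finset.mem_union.1 h1 with h6 | h6
    · exact h4 κ h6 h2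
    · exact h5 κ h6 h2
  · intro h4 κ' h5 h6
    apply h4
    intro κ'' h7 h8
    have h9 := h3 κ' (Finset.mem_union_left _ h5) h6
    have h10 := h3 κ'' (Finset.mem_union_right _ h7) h8
    rw [h9] at h5
    rw [h10] at h7
    exact Finset.disjoint_left.1 (half_disjoint _ _ _ _) h5 h7

end

end Mem

open Mem

theorem isUP_LL (A : Oracle) (f : ℕ → Option ℕ) (hf : Poly (fun x : List Unit => f x.length))
    (hfn : ∀ n s, f n = some s → s ≤ n) (hA : ∀ n s, f n = some s → A ∉ Inv n s) :
    IsUP A (LL f A) := by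
  obtain ⟨P, hP⟩ := size_poly
  have key : ∀ x w, ver A (fun p => g1 f p && g2 f false p) (fun p => q1 f p ++ q2 f p)
      (pairBits x w) = [true] ↔ (g1 f (x, w) = true ∧ ∀ z ∈ q1 f (x, w), A z = true) ∧
        (g2 f false (x, w) = true ∧ ∀ z ∈ q2 f (x, w), A z = true) := by
    intro x w
    rw [ver_iff]
    simp only [Bool.and_eq_true, List.mem_append]
    constructor
    · rintro ⟨⟨h1, h2⟩, h3⟩
      exact ⟨⟨h1, fun z hz => h3 z (Or.inl hz)⟩, h2, fun z hz => h3 z (Or.inr hz)⟩
    · rintro ⟨⟨h1, h2⟩, h3, h4⟩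
      exact ⟨⟨h1, h3⟩, fun z hz => hz.elim (h2 z) (h4 z)⟩
  refine ⟨ver A (fun p => g1 f p && g2 f false p) (fun p => q1 f p ++ q2 f p),
    Polynomial.C 2 * P + Polynomial.C 2 * Polynomial.X + Polynomial.C 17,
    ver_isFP A (Poly.and (poly_g1 hf) (poly_g2 hf false)) (Poly.append (poly_q1 hf) (poly_q2 hf)),
    fun x => ?_, fun x w w' _ _ h h' => ?_⟩
  · constructor
    · rintro ⟨D, s, h1, h2, h3, h4⟩
      have hd : dcd f x = some (D, s) := dcd_eq.2 ⟨h1, h2⟩
      obtain ⟨w, h5, h6⟩ := exists_wit hfn hP (e := false) hd h3.1 h4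
      exact ⟨w, h5, (key x w).2 ⟨(cert_iff hfn).2 ⟨D, s, hd, h3⟩, h6⟩⟩
    · rintro ⟨w, -, h⟩
      obtain ⟨h1, h2⟩ := (key x w).1 h
      obtain ⟨D, s, hd, hc⟩ := (cert_iff hfn).1 h1
      rw [wit_iff hfn hd] at h2
      refine ⟨D, s, (dcd_eq.1 hd).1, (dcd_eq.1 hd).2, hc, fun h3 => ?_⟩
      exact h3 _ h2.2.1 h2.2.2
  · obtain ⟨h1, h2⟩ := (key x w).1 h
    obtain ⟨-, h3⟩ := (key x w').1 h'
    obtain ⟨D, s, hd, hc⟩ := (cert_iff hfn).1 h1
    exact wit_inj hfn hd (one_of_not_Inv hc.1.1 hc.1.2.1 (hA _ _ (dcd_eq.1 hd).2)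
      (others_of_cert hc)) h2 h3

theorem isUP_LLc (A : Oracle) (f : ℕ → Option ℕ) (hf : Poly (fun x : List Unit => f x.length))
    (hfn : ∀ n s, f n = some s → s ≤ n) (hA : ∀ n s, f n = some s → A ∉ Inv n s) :
    IsUP A (LL f A)ᶜ := by
  obtain ⟨P, hP⟩ := size_poly
  have hone : ∀ x D s, dcd f x = some (D, s) → Cert A s D →
      A ∈ One D.1.length s D.2.1 D.2.2.1 := fun x D s hd hc =>
    one_of_not_Inv hc.1.1 hc.1.2.1 (hA _ _ (dcd_eq.1 hd).2) (others_of_cert hc)
  have hF : Poly (fun z : List Bool =>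
      if (unpair z).1 = [true] then (unpair (unpair z).2).1 else (unpair (unpair z).2).2) :=
    Poly.ite (Poly.decide_eq (Poly.fst poly_unpair) (NPC.Poly.const _))
      (Poly.fst (poly_unpair.comp (Poly.snd poly_unpair)))
      (Poly.snd (poly_unpair.comp (Poly.snd poly_unpair)))
  have h3p : Poly (fun p : List Bool × List Bool => decide (p.2 = [])) :=
    Poly.decide_eq (Poly.snd Poly.id) (NPC.Poly.const _)
  have h4p : Poly (fun _ : List Bool × List Bool => ([] : List (List Bool))) :=
    NPC.Poly.const _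
  have hV := IsFP.comp (IsFP.of_poly (A := A) hF)
    (IsFP.pair (ver_isFP A (poly_g1 hf) (poly_q1 hf))
      (IsFP.pair (ver_isFP A (poly_g2 hf true) (poly_q2 hf)) (ver_isFP A h3p h4p)))
  simp only [unpair_pairBits] at hV
  set F : List Bool → List Bool := fun y => if ver A (g1 f) (q1 f) y = [true] then
    ver A (g2 f true) (q2 f) y else
      ver A (fun p => decide (p.2 = [])) (fun _ => []) y with hFdef
  have hV' : IsFP A F := hV
  -- the accepted witnesses
  have acc1 : ∀ x D s, dcd f x = some (D, s) → Cert A s D → ∀ w,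
      (F (pairBits x w) = [true] ↔
        (g2 f true (x, w) = true ∧ ∀ z ∈ q2 f (x, w), A z = true)) := by
    intro x D s hd hc w
    rw [hFdef]
    simp only
    rw [if_pos (ver_iff.2 ((cert_iff hfn).2 ⟨D, s, hd, hc⟩)), ver_iff]
  have acc2 : ∀ x, ¬ (∃ D s, dcd f x = some (D, s) ∧ Cert A s D) → ∀ w,
      (F (pairBits x w) = [true] ↔ w = []) := by
    intro x hx w
    rw [hFdef]
    simp only
    rw [if_neg fun h => hx ((cert_iff hfn).1 (ver_iff.1 h)), ver_iff]
    simp
  refine ⟨F, Polynomial.C 2 * P + Polynomial.C 2 * Polynomial.X + Polynomial.C 17, hV',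
    fun x => ?_, fun x w w' _ _ h h' => ?_⟩
  · constructor
    · intro hx
      by_cases hc : ∃ D s, dcd f x = some (D, s) ∧ Cert A s D
      · obtain ⟨D, s, hd, hc⟩ := hc
        have h1 : A ∈ NoHit (wl D.1.length) (half D.1.length s D.2.1 (2 * D.2.2.1)) := by
          by_contra h2
          exact hx ⟨D, s, (dcd_eq.1 hd).1, (dcd_eq.1 hd).2, hc, h2⟩
        obtain ⟨w, h5, h6⟩ := exists_wit hfn hP (e := true) hd hc.1
          ((half_iff (hone x D s hd hc)).1 h1)
        exact ⟨w, h5, (acc1 x D s hd hc w).2 h6⟩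
      · exact ⟨[], by simp, (acc2 x hc []).2 rfl⟩
    · rintro ⟨w, -, h⟩ ⟨D, s, h1, h2, h3, h4⟩
      have hd : dcd f x = some (D, s) := dcd_eq.2 ⟨h1, h2⟩
      have h5 := (acc1 x D s hd h3 w).1 h
      rw [wit_iff hfn hd] at h5
      exact h4 ((half_iff (hone x D s hd h3)).2 fun h6 => h6 _ h5.2.1 h5.2.2)
  · by_cases hc : ∃ D s, dcd f x = some (D, s) ∧ Cert A s D
    · obtain ⟨D, s, hd, hc⟩ := hc
      exact wit_inj hfn hd (hone x D s hd hc) ((acc1 x D s hd hc w).1 h)
        ((acc1 x D s hd hc w').1 h')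
    · rw [(acc2 x hc w).1 h, (acc2 x hc w').1 h']

end Pool.Agent.H673R3.UC
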