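import Pool.Agent.H673R3.UC.Defs
import Pool.Agent.H583R2.NC.NumS

/-! Task N4: numbers: summability. -/

namespace Pool.Agent.H673R3.UC

open MeasureTheory Pool.Agent.NPC Pool.Agent.H628R3.RO

private theorem N4_anti (a b : ℕ) {f : ℕ → ℝ}
    (hf : ∀ s, f s = (1 / 2) ^ (rr s + a) / (rr s : ℝ) ^ b)
    ⦃m n : ℕ⦄ (hm : 0 < m) (hmn : m ≤ n) : f n ≤ f m := by
  rw [hf, hf]
  have h1 : rr m ≤ rr n := Nat.size_le_size hmn
  have h2 : 0 < rr m := Nat.size_pos.2 hm
  have h2' : (0 : ℝ) < (rr m : ℝ) := by exact_mod_cast h2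
  have h1' : (rr m : ℝ) ≤ (rr n : ℝ) := by exact_mod_cast h1
  apply div_le_div₀ (by positivity) _ (by positivity) (pow_le_pow_left₀ h2'.le h1' b)
  exact pow_le_pow_of_le_one (by norm_num) (by norm_num) (by omega)

theorem summable_ee : Summable ee := by
  rw [← summable_condensed_iff_of_nonneg (f := ee) (fun s => by unfold ee; positivity)
    (N4_anti 10 2 (fun _ => rfl))]
  have h1 : (fun k : ℕ => (2 : ℝ) ^ k * ee (2 ^ k)) =
      fun k : ℕ => (1 / 2) ^ 11 * (1 / ((k + 1 : ℕ) : ℝ) ^ 2) := by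
    funext k
    unfold ee rr
    rw [Nat.size_pow]
    have h2 : (2 : ℝ) ^ k * (1 / 2) ^ (k + 1 + 10) = (1 / 2) ^ 11 := by
      rw [show k + 1 + 10 = k + 11 by ring, pow_add, ← mul_assoc, ← mul_pow]
      norm_num
    rw [← mul_div_assoc, h2]
    ring
  rw [h1]
  apply Summable.mul_left
  exact (summable_nat_add_iff (f := fun k : ℕ => 1 / (k : ℝ) ^ 2) 1).2
    (Real.summable_one_div_nat_pow.2 (by norm_num))

theorem not_summable_ll : ¬ Summable ll := by
  rw [← summable_condensed_iff_of_nonneg (f := ll) (fun s => by unfold ll; positivity)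
    (N4_anti 8 1 (fun _ => by unfold ll; rw [pow_one]))]
  have h1 : (fun k : ℕ => (2 : ℝ) ^ k * ll (2 ^ k)) =
      fun k : ℕ => (1 / 2) ^ 9 * (1 / ((k + 1 : ℕ) : ℝ)) := by
    funext k
    unfold ll rr
    rw [Nat.size_pow]
    have h2 : (2 : ℝ) ^ k * (1 / 2) ^ (k + 1 + 8) = (1 / 2) ^ 9 := by
      rw [show k + 1 + 8 = k + 9 by ring, pow_add, ← mul_assoc, ← mul_pow]
      norm_num
    rw [← mul_div_assoc, h2]
    ring
  rw [h1]
  intro h
  have h2 := (summable_mul_left_iff (by norm_num : ((1 : ℝ) / 2) ^ 9 ≠ 0)).1 h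
  exact Real.not_summable_one_div_natCast
    ((summable_nat_add_iff (f := fun k : ℕ => 1 / (k : ℝ)) 1).1 h2)

end Pool.Agent.H673R3.UC
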