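import Pool.Agent.H673R3.UC.R1
import Pool.Agent.H673R3.UC.M1
import Pool.Agent.H673R3.UC.C1
import Pool.Agent.H673R3.UC.N4
import Pool.Agent.H583R2.NC.Main
import Pool.Agent.H628R3.RO.F5

/-! Task Z1: the theorem, first version. -/

namespace Pool.Agent.H673R3.UC

open MeasureTheory Pool.Agent.NPC Pool.Agent.H628R3.RO

theorem Z1_rr_pos {s : ℕ} (hs : 4 ≤ s) : (0 : ℝ) < rr s := by
  have := three_le_rr hs
  positivity

/-- the core, first version -/
theorem Z1_ae (V : Bool → Alg) (p : Bool → Polynomial ℕ) : ∃ b : Polynomial ℕ,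
    Check Bad (fun n _ => ErrN V p n) b ∧
    ∀ᵐ A ∂randomOracle, (∀ n s, A ∉ Bad n s ∩ ErrN V p n) →
      ∃ (t : ℕ) (L : List (List Bool)),
      (∃ i0, ∀ i ≥ i0, A ∉ Inv (Tt b t i) (lev Bad (fun n _ => ErrN V p n) t L (Tt b t) i)) ∧
      ∀ (r : Alg) (i0 : ℕ), ∃ i ≥ i0,
        A ∉ GoodN V p r (Tt b t i) (lev Bad (fun n _ => ErrN V p n) t L (Tt b t) i) := by
  obtain ⟨b, hc⟩ := check_BN V p
  refine ⟨b, hc, ?_⟩
  exact Pool.Agent.H583R2.NC.core_gen (R := Alg) Bad Inv (fun n _ => ErrN V p n) (GoodN V p)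
    spotsB
    (fun n s => lt_length_spotsB) (fun n n' s s' h => disjoint_spotsB n n' s s' h)
    loc_Bad (fun n s => measurableSet_of_loc (spotsB n s).finite_toSet (loc_Inv n s))
    b hc.locErr hc.locBad (fun r => loc_GoodN V p r)
    ee ll ee_nonneg summable_ee (fun s hs => ee_le hs)
    (fun n s hs hn => prob_Bad_le_ee hs hn) 200 (fun n s hs hn => prob_Inv_le hs hn)
    (fun s hs => ⟨(1 / 2 : ℝ) * ((1 / 2 : ℝ) ^ (rr s + 12) / (rr s : ℝ) ^ 2), by
      have := Z1_rr_pos hs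
      positivity, fun n hn => prob_Bad_pos hs hn⟩)
    ll_nonneg not_summable_ll (fun r => key_N V p r) hc.le_eval

theorem Z1_mem_LL_inst {f : ℕ → Option ℕ} {n s b j : ℕ} {A : Oracle} (hf : f n = some s)
    (hb : b < BB s) (hj : j < KK s) (hA : A ∈ Others n s b j) :
    inst n s b j A ∈ LL f A ↔ A ∉ NoHit (wl n) (half n s b (2 * j)) := by
  constructor
  · rintro ⟨D, s', h1, h2, -, h4⟩
    have h5 : D = instD n s b j A := bits_injective h1
    subst h5
    simp only [instD, List.length_replicate] at h2 h4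
    rw [hf, Option.some.injEq] at h2
    subst h2
    exact h4
  · intro h
    refine ⟨instD n s b j A, s, rfl, ?_, inst_cert hb hj hA, ?_⟩
    · simp only [instD, List.length_replicate]
      exact hf
    · simp only [instD, List.length_replicate]
      exact h

theorem main_N : ∀ᵐ A ∂randomOracle, ∀ K : Set (List Bool), IsNP A K → IsCoNP A K →
    ∃ L : Set (List Bool), IsUP A L ∧ IsUP A Lᶜ ∧ ¬ Red A L K := by
  have := countable_poly2
  choose b hc hcore using fun q : (Bool → Alg) × (Bool → Polynomial ℕ) => Z1_ae q.1 q.2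
  have hall : ∀ᵐ A ∂randomOracle, ∀ q : (Bool → Alg) × (Bool → Polynomial ℕ),
      (∀ n s, A ∉ Bad n s ∩ ErrN q.1 q.2 n) → ∃ (t : ℕ) (L : List (List Bool)),
      (∃ i0, ∀ i ≥ i0, A ∉ Inv (Tt (b q) t i)
        (lev Bad (fun n _ => ErrN q.1 q.2 n) t L (Tt (b q) t) i)) ∧
      ∀ (r : Alg) (i0 : ℕ), ∃ i ≥ i0, A ∉ GoodN q.1 q.2 r (Tt (b q) t i)
        (lev Bad (fun n _ => ErrN q.1 q.2 n) t L (Tt (b q) t) i) := ae_all_iff.2 hcore
  filter_upwards [hall] with A hA K hK0 hK1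
  obtain ⟨V0, p0, ⟨M0, hM0⟩, hV0⟩ := hK0
  obtain ⟨V1, p1, ⟨M1, hM1⟩, hV1⟩ := hK1
  set V : Bool → Alg := fun i => bif i then M1 else M0 with hV
  set p : Bool → Polynomial ℕ := fun i => bif i then p1 else p0 with hp
  have hw0 : ∀ x, Wit (V false) (p false) x A ↔ x ∈ K := by
    intro x
    rw [hV0 x, Wit]
    refine exists_congr fun y => and_congr_right fun _ => ?_
    change M0.out A (pairBits x y) = some [true] ↔ _
    rw [hM0, Option.some.injEq]
  have hw1 : ∀ x, Wit (V true) (p true) x A ↔ x ∉ K := by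
    intro x
    rw [← Set.mem_compl_iff, hV1 x, Wit]
    refine exists_congr fun y => and_congr_right fun _ => ?_
    change M1.out A (pairBits x y) = some [true] ↔ _
    rw [hM1, Option.some.injEq]
  obtain ⟨t, S, ⟨i1, h1⟩, h2⟩ := hA (V, p) (by
    rintro n s ⟨_, x, _, h4⟩
    exact (hw1 x).1 (h4 true) ((hw0 x).1 (h4 false)))
  set f := schK Bad (fun n _ => ErrN V p n) (b (V, p)) t S (Tt (b (V, p)) t i1) with hf
  have hfn : ∀ n s, f n = some s → s ≤ n := fun n s h => schK_le h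
  have hfA : ∀ n s, f n = some s → A ∉ Inv n s := by
    intro n s h
    obtain ⟨h3, i, rfl, rfl⟩ := eq_of_schK h
    exact h1 i ((strictMono_Tt (b (V, p)) t).le_iff_le.1 h3)
  have hpf : Poly (fun x : List Unit => f x.length) :=
    Pool.Agent.H583R2.NC.p_schK' (hc (V, p)) t S _
  refine ⟨_, isUP_LL A f hpf hfn hfA, isUP_LLc A f hpf hfn hfA, ?_⟩
  rintro ⟨F, ⟨r, hr⟩, hF⟩
  obtain ⟨i, hi, h3⟩ := h2 r i1
  set n := Tt (b (V, p)) t i with hn
  set s := lev Bad (fun n _ => ErrN V p n) t S (Tt (b (V, p)) t) i with hs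
  have hfi : f n = some s := schK_Tt ((strictMono_Tt (b (V, p)) t).monotone hi)
  refine h3 fun bb hbb j hj ho => ⟨_, hr _, ?_, ?_⟩
  · intro h
    rw [hw0, ← hF]
    exact (Z1_mem_LL_inst hfi hbb hj ho).2 h
  · intro h
    rw [hw1, ← hF]
    intro h4
    exact (Z1_mem_LL_inst hfi hbb hj ho).1 h4 h

end Pool.Agent.H673R3.UC
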