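import Pool.Agent.H628R3.RO.BaseE
import Pool.Agent.NPC.Dec

/-!
# Hidden blocks: a language in `UP ∩ coUP` relative to a random oracle

Stage `n` of level `s` consists of `BB s` blocks, each with `KK s` pairs. A pair has a left and a
right half, each consisting of `rr s * 2 ^ wl n` candidates. The expected number of hits in a pair
is `2 * rr s`. A pair is *low* if it has at most one hit. A block is dangerous if no pair is low
(`AllHit`), or if exactly one pair is low and it has no hit. The instances are the pairs together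
with certificates (two hits each) that all other pairs of the block are not low.
-/

namespace Pool.Agent.H673R3.UC

open MeasureTheory Pool.Agent.NPC Pool.Agent.H628R3.RO

/-! ### Abstract systems of blocks -/

section

variable (Z O D : ℕ → ℕ → Set Oracle) (B K : ℕ)

/-- at most one hit -/
def Low (b i : ℕ) : Set Oracle := Z b i ∪ O b i

/-- no pair of the block is low -/
def AllH (b : ℕ) : Set Oracle := {A | ∀ i < K, A ∉ Low Z O b i}

/-- no pair of the block other than `j` is low -/
def Oth (b j : ℕ) : Set Oracle := {A | ∀ i < K, i ≠ j → A ∉ Low Z O b i}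

/-- exactly one pair of the block is low -/
def OneL (b : ℕ) : Set Oracle :=
  {A | ∃ i₀ < K, A ∈ Low Z O b i₀ ∧ ∀ i < K, i ≠ i₀ → A ∉ Low Z O b i}

/-- some block has no low pair -/
def BadG : Set Oracle := {A | ∃ b < B, A ∈ AllH Z O K b}

/-- some block has exactly one low pair, and this pair has no hit -/
def TwoG : Set Oracle := {A | ∃ b < B, ∃ j < K, A ∈ Oth Z O K b j ∧ A ∈ Z b j}

/-- no block other than `b` has at most one low pair -/
def QuiG (b : ℕ) : Set Oracle :=
  {A | ∀ b' < B, b' ≠ b → A ∉ AllH Z O K b' ∧ A ∉ OneL Z O K b'}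

end

/-- The pairs are independent; a pair has no hit with probability `a0`, exactly one hit with
probability `a1`, and `D b i` is an event for pair `i` of block `b`, of probability `d`, which
excludes both. -/
structure PSys (Z O D : ℕ → ℕ → Set Oracle) (sp : ℕ → ℕ → Set (List Bool)) (a0 a1 d : ℝ)
    (B K : ℕ) : Prop where
  fin : ∀ b < B, ∀ i < K, (sp b i).Finite
  disj : ∀ b < B, ∀ i < K, ∀ b' < B, ∀ i' < K, (b ≠ b' ∨ i ≠ i') → Disjoint (sp b i) (sp b' i')
  locZ : ∀ b < B, ∀ i < K, Loc (sp b i) (Z b i)
  locO : ∀ b < B, ∀ i < K, Loc (sp b i) (O b i)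
  locD : ∀ b < B, ∀ i < K, Loc (sp b i) (D b i)
  dZO : ∀ b < B, ∀ i < K, Disjoint (Z b i) (O b i)
  dD : ∀ b < B, ∀ i < K, Disjoint (D b i) (Z b i ∪ O b i)
  prZ : ∀ b < B, ∀ i < K, prob (Z b i) = a0
  prO : ∀ b < B, ∀ i < K, prob (O b i) = a1
  prD : ∀ b < B, ∀ i < K, prob (D b i) = d
  nn0 : 0 ≤ a0
  nn1 : 0 ≤ a1
  dpos : 0 < d
  al : a0 + a1 ≤ 1 / 2

/-! ### Parameters -/

/-- number of bits of a candidate at stage `n` -/
def wl (n : ℕ) : ℕ := 2 * n + 16

/-- size of the level -/
def rr (s : ℕ) : ℕ := s.size

/-- scale for the rational approximation -/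
def mm (s : ℕ) : ℕ := 2 * (rr s).size + 14

/-- numerator of the approximation of the probability that a pair has no hit -/
def uu (s : ℕ) : ℕ := (2 ^ mm s - 1) ^ (2 * rr s * 2 ^ mm s)

/-- denominator of the approximation of the probability that a pair has no hit -/
def vv (s : ℕ) : ℕ := (2 ^ mm s) ^ (2 * rr s * 2 ^ mm s)

/-- number of pairs in a block -/
def KK (s : ℕ) : ℕ := 64 * vv s / uu s + 1

/-- number of blocks -/
def BB (s : ℕ) : ℕ :=
  vv s ^ KK s / (2 ^ (rr s + 11) * rr s ^ 2 * (vv s - (2 * rr s + 1) * uu s) ^ KK s) + 1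

/-- the rational approximation of the probability that a pair has no hit -/
noncomputable def ap (s : ℕ) : ℝ := (1 - (1 / 2 : ℝ) ^ mm s) ^ (2 * rr s * 2 ^ mm s)

/-- the probability that a pair has no hit -/
noncomputable def zp (n s : ℕ) : ℝ := (1 - (1 / 2 : ℝ) ^ wl n) ^ (2 * rr s * 2 ^ wl n)

/-- the probability that a pair has exactly one hit -/
noncomputable def op (n s : ℕ) : ℝ := 2 * rr s * zp n s / (1 - (1 / 2 : ℝ) ^ wl n)

/-- the probability that a pair is low -/
noncomputable def lp (n s : ℕ) : ℝ := zp n s + op n s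

/-- the probability of exactly one left hit and exactly one right hit -/
noncomputable def dN (n s : ℕ) : ℝ := (rr s : ℝ) ^ 2 * zp n s / (1 - (1 / 2 : ℝ) ^ wl n) ^ 2

/-- the probability of exactly two left hits and no right hit -/
noncomputable def dU (n s : ℕ) : ℝ :=
  rr s * (rr s - (1 / 2 : ℝ) ^ wl n) / 2 * zp n s / (1 - (1 / 2 : ℝ) ^ wl n) ^ 2

/-- bound for the probability of `Bad` -/
noncomputable def ee (s : ℕ) : ℝ := (1 / 2) ^ (rr s + 10) / (rr s : ℝ) ^ 2

/-- rate of failure of the reductions -/
noncomputable def ll (s : ℕ) : ℝ := (1 / 2) ^ (rr s + 8) / (rr s : ℝ)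

/-! ### Events -/

/-- the candidates of half `i` of block `b`; pair `j` consists of the halves `2 * j` (left) and
`2 * j + 1` (right) -/
def half (n s b i : ℕ) : Finset Cand :=
  cands (Finset.Ico ((b * (2 * KK s) + i) * rr s) ((b * (2 * KK s) + i + 1) * rr s)) (wl n)

/-- the candidates of pair `j` of block `b` -/
def pair (n s b j : ℕ) : Finset Cand := half n s b (2 * j) ∪ half n s b (2 * j + 1)

/-- all candidates of the stage -/
def blk (n s : ℕ) : Finset Cand := cands (Finset.range (BB s * (2 * KK s) * rr s)) (wl n)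

/-- all strings of the stage -/
def spotsB (n s : ℕ) : Finset (List Bool) := allSpots (wl n) (blk n s)

/-- all strings of a pair -/
def sp (n s b j : ℕ) : Set (List Bool) := (allSpots (wl n) (pair n s b j) : Set (List Bool))

/-- the pair has no hit -/
def Zero (n s b j : ℕ) : Set Oracle := NoHit (wl n) (pair n s b j)

/-- the pair has exactly one hit -/
def One (n s b j : ℕ) : Set Oracle :=
  {A | ∃ κ ∈ pair n s b j, A ∈ HitSet (wl n) (pair n s b j) {κ}}

/-- exactly one left hit and exactly one right hit -/
def EvN (n s b j : ℕ) : Set Oracle :=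
  {A | ∃ κ ∈ half n s b (2 * j), ∃ κ' ∈ half n s b (2 * j + 1),
    A ∈ HitSet (wl n) (pair n s b j) {κ, κ'}}

/-- exactly two left hits and no right hit -/
def EvU (n s b j : ℕ) : Set Oracle :=
  {A | ∃ κ ∈ half n s b (2 * j), ∃ κ' ∈ half n s b (2 * j), κ ≠ κ' ∧
    A ∈ HitSet (wl n) (pair n s b j) {κ, κ'}}

/-- no pair of the block is low -/
def AllHit (n s b : ℕ) : Set Oracle := AllH (Zero n s) (One n s) (KK s) b

/-- no pair of the block other than `j` is low -/
def Others (n s b j : ℕ) : Set Oracle := Oth (Zero n s) (One n s) (KK s) b j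

/-- some block has no low pair -/
def Bad (n s : ℕ) : Set Oracle := BadG (Zero n s) (One n s) (BB s) (KK s)

/-- some block has exactly one low pair, and this pair has no hit -/
def Two (n s : ℕ) : Set Oracle := TwoG (Zero n s) (One n s) (BB s) (KK s)

/-- the promise fails at this stage -/
def Inv (n s : ℕ) : Set Oracle := Bad n s ∪ Two n s

/-- no block other than `b` has at most one low pair -/
def Quiet (n s b : ℕ) : Set Oracle := QuiG (Zero n s) (One n s) (BB s) (KK s) b

/-! ### Instances -/

/-- the data of an instance: the stage `n` (in unary), the block, the pair, and a list of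
candidates -/
abbrev Data : Type := List Unit × ℕ × ℕ × List (List Unit × List Bool)

/-- the candidate given by an entry of the list -/
def cd (κ : List Unit × List Bool) : Cand := (κ.1.length, κ.2)

/-- the number of the copy belongs to pair `i` of block `b` -/
def InP (s b i c : ℕ) : Prop :=
  (b * (2 * KK s) + 2 * i) * rr s ≤ c ∧ c < (b * (2 * KK s) + 2 * i + 2) * rr s

instance (s b i c : ℕ) : Decidable (InP s b i c) := by unfold InP; infer_instance

/-- the conditions on the data of an instance that do not depend on the oracle -/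
def Syn (s : ℕ) (D : Data) : Prop :=
  D.2.1 < BB s ∧ D.2.2.1 < KK s ∧ (∀ κ ∈ D.2.2.2, κ.2.length = wl D.1.length) ∧
  ∀ i < KK s, i ≠ D.2.2.1 → ∃ κ ∈ D.2.2.2, ∃ κ' ∈ D.2.2.2, κ ≠ κ' ∧
    InP s D.2.1 i κ.1.length ∧ InP s D.2.1 i κ'.1.length

/-- the certificates are correct -/
def Cert (A : Oracle) (s : ℕ) (D : Data) : Prop :=
  Syn s D ∧ ∀ κ ∈ D.2.2.2, Hit (wl D.1.length) (cd κ) A

/-- the language: the stages and their levels are given by `f` -/
def LL (f : ℕ → Option ℕ) (A : Oracle) : Set (List Bool) :=
  {x | ∃ (D : Data) (s : ℕ), bits D = x ∧ f D.1.length = some s ∧ Cert A s D ∧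
    A ∉ NoHit (wl D.1.length) (half D.1.length s D.2.1 (2 * D.2.2.1))}

open Classical in
/-- the first two hits in a pair -/
noncomputable def pick2 (n s b i : ℕ) (A : Oracle) : List (List Unit × List Bool) :=
  ((((pair n s b i).filter (fun κ => Hit (wl n) κ A)).toList).take 2).map
    (fun κ => (List.replicate κ.1 (), κ.2))

/-- certificates for all pairs other than `j` -/
noncomputable def certs (n s b j : ℕ) (A : Oracle) : List (List Unit × List Bool) :=
  ((List.range (KK s)).filter (fun i => decide (i ≠ j))).flatMap (fun i => pick2 n s b i A)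

/-- the data of the instance `(b, j)` at stage `n` -/
noncomputable def instD (n s b j : ℕ) (A : Oracle) : Data :=
  (List.replicate n (), b, j, certs n s b j A)

/-- the instance `(b, j)` at stage `n` -/
noncomputable def inst (n s b j : ℕ) (A : Oracle) : List Bool := bits (instD n s b j A)

/-- the reduction `r` works at stage `n`: here `V false`, `V true` are the verifiers for a set and
for its complement -/
def GoodN (V : Bool → Alg) (p : Bool → Polynomial ℕ) (r : Alg) (n s : ℕ) : Set Oracle :=
  {A | ∀ b < BB s, ∀ j < KK s, A ∈ Others n s b j → ∃ y, r.out A (inst n s b j A) = some y ∧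
    (A ∉ NoHit (wl n) (half n s b (2 * j)) → Wit (V false) (p false) y A) ∧
    (A ∈ NoHit (wl n) (half n s b (2 * j)) → Wit (V true) (p true) y A)}

/-- the reduction `r` works at stage `n`: here `V` is a verifier for a set in `UP` -/
def GoodU (V : Alg) (p : Polynomial ℕ) (r : Alg) (n s : ℕ) : Set Oracle :=
  {A | ∀ b < BB s, ∀ j < KK s, A ∈ Others n s b j → ∃ y, r.out A (inst n s b j A) = some y ∧
    (A ∉ NoHit (wl n) (half n s b (2 * j)) ↔ Wit V p y A)}

end Pool.Agent.H673R3.UC
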