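import Pool.Agent.H673R3.UC.Defs
import Pool.Agent.H628R3.RO.D1
import Pool.Agent.H628R3.RO.D3
import Pool.Agent.H628R3.RO.M2
import Pool.Agent.H673R3.UC.N5

/-! Task L1: the candidates, locality. -/

namespace Pool.Agent.H673R3.UC

open MeasureTheory Pool.Agent.NPC Pool.Agent.H628R3.RO

theorem mem_half {n s b i : ℕ} {κ : Cand} : κ ∈ half n s b i ↔
    (b * (2 * KK s) + i) * rr s ≤ κ.1 ∧ κ.1 < (b * (2 * KK s) + i + 1) * rr s ∧
      κ.2.length = wl n := by
  unfold half
  rw [mem_cands, Finset.mem_Ico, and_assoc]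

theorem mem_pair {n s b j : ℕ} {κ : Cand} : κ ∈ pair n s b j ↔
    InP s b j κ.1 ∧ κ.2.length = wl n := by
  unfold pair InP
  rw [Finset.mem_union, mem_half, mem_half]
  have e1 : b * (2 * KK s) + 2 * j + 1 = b * (2 * KK s) + (2 * j + 1) := by ring
  have e2 : b * (2 * KK s) + 2 * j + 2 = b * (2 * KK s) + (2 * j + 1) + 1 := by ring
  rw [e1, e2]
  have h1 : (b * (2 * KK s) + 2 * j) * rr s ≤ (b * (2 * KK s) + (2 * j + 1)) * rr s :=
    Nat.mul_le_mul_right _ (by omega)
  have h2 : (b * (2 * KK s) + (2 * j + 1)) * rr s ≤ (b * (2 * KK s) + (2 * j + 1) + 1) * rr s :=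
    Nat.mul_le_mul_right _ (by omega)
  generalize (b * (2 * KK s) + 2 * j) * rr s = x1 at *
  generalize (b * (2 * KK s) + (2 * j + 1)) * rr s = x2 at *
  generalize (b * (2 * KK s) + (2 * j + 1) + 1) * rr s = x3 at *
  omega

theorem card_half (n s b i : ℕ) : (half n s b i).card = rr s * 2 ^ wl n := by
  unfold half
  rw [card_cands, Nat.card_Ico, add_mul _ 1, one_mul, Nat.add_sub_cancel_left]

/-- different half numbers give disjoint halves -/
theorem L1_half_disjoint {n s b i b' i' : ℕ}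
    (h : b * (2 * KK s) + i ≠ b' * (2 * KK s) + i') :
    Disjoint (half n s b i) (half n s b' i') := by
  rw [Finset.disjoint_left]
  intro κ h1 h2
  rw [mem_half] at h1 h2
  obtain ⟨a1, a2, _⟩ := h1
  obtain ⟨b1, b2, _⟩ := h2
  rcases lt_or_gt_of_ne h with h' | h'
  · have : (b * (2 * KK s) + i + 1) * rr s ≤ (b' * (2 * KK s) + i') * rr s :=
      Nat.mul_le_mul_right _ h'
    omega
  · have : (b' * (2 * KK s) + i' + 1) * rr s ≤ (b * (2 * KK s) + i) * rr s :=
      Nat.mul_le_mul_right _ h'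
    omega

theorem half_disjoint (n s b j : ℕ) :
    Disjoint (half n s b (2 * j)) (half n s b (2 * j + 1)) := by
  apply L1_half_disjoint
  omega

theorem card_pair (n s b j : ℕ) : (pair n s b j).card = 2 * rr s * 2 ^ wl n := by
  unfold pair
  rw [Finset.card_union_of_disjoint (half_disjoint n s b j), card_half, card_half]
  ring

theorem L1_num {K b b' i i' : ℕ} (hi : i < K) (hi' : i' < K) (h : b ≠ b' ∨ i ≠ i') :
    b * K + i ≠ b' * K + i' := by
  intro he
  have h1 : b = b' := by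
    rcases lt_trichotomy b b' with h1 | h1 | h1
    · exfalso
      have : (b + 1) * K ≤ b' * K := Nat.mul_le_mul_right _ h1
      rw [add_mul, one_mul] at this
      omega
    · exact h1
    · exfalso
      have : (b' + 1) * K ≤ b * K := Nat.mul_le_mul_right _ h1
      rw [add_mul, one_mul] at this
      omega
  subst h1
  have h2 : i = i' := by omega
  rcases h with h | h
  · exact h rfl
  · exact h h2

theorem pair_disjoint {n s b j b' j' : ℕ} (hj : j < KK s) (hj' : j' < KK s)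
    (h : b ≠ b' ∨ j ≠ j') : Disjoint (pair n s b j) (pair n s b' j') := by
  unfold pair
  rw [Finset.disjoint_union_left, Finset.disjoint_union_right, Finset.disjoint_union_right]
  refine ⟨⟨?_, ?_⟩, ?_, ?_⟩ <;>
  · apply L1_half_disjoint
    apply L1_num (by omega) (by omega)
    rcases h with h | h
    · exact Or.inl h
    · exact Or.inr (by omega)

theorem L1_half_subset {n s b i : ℕ} (hb : b < BB s) (hi : i < 2 * KK s) :
    half n s b i ⊆ blk n s := by
  intro κ hκ
  rw [mem_half] at hκ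
  unfold blk
  rw [mem_cands, Finset.mem_range]
  refine ⟨hκ.2.1.trans_le (Nat.mul_le_mul_right _ ?_), hκ.2.2⟩
  calc b * (2 * KK s) + i + 1 ≤ b * (2 * KK s) + 2 * KK s := by omega
    _ = (b + 1) * (2 * KK s) := by ring
    _ ≤ BB s * (2 * KK s) := Nat.mul_le_mul_right _ hb

theorem pair_subset {n s b j : ℕ} (hb : b < BB s) (hj : j < KK s) :
    pair n s b j ⊆ blk n s := by
  unfold pair
  exact Finset.union_subset (L1_half_subset hb (by omega)) (L1_half_subset hb (by omega))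

theorem L1_mem_blk {n s : ℕ} {κ : Cand} (h : κ ∈ blk n s) :
    κ.1 < BB s * (2 * KK s) * rr s ∧ κ.2.length = wl n := by
  unfold blk at h
  rw [mem_cands, Finset.mem_range] at h
  exact h

theorem L1_mem_spotsB {n s : ℕ} {x : List Bool} (hx : x ∈ spotsB n s) :
    ∃ c < BB s * (2 * KK s) * rr s, ∃ i < wl n, ∃ w : List Bool, w.length = wl n ∧
      x = pos c i w := by
  unfold spotsB at hx
  rw [mem_allSpots] at hx
  obtain ⟨κ, hκ, i, hi, rfl⟩ := hx
  exact ⟨κ.1, (L1_mem_blk hκ).1, i, hi, κ.2, (L1_mem_blk hκ).2, rfl⟩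

theorem lt_length_spotsB {n s : ℕ} : ∀ x ∈ spotsB n s, n < x.length := by
  intro x hx
  obtain ⟨c, _, i, _, w, hw, rfl⟩ := L1_mem_spotsB hx
  rw [length_pos, hw]
  unfold wl
  omega

theorem disjoint_spotsB (n n' s s' : ℕ) (h : n ≠ n') :
    Disjoint (spotsB n s) (spotsB n' s') := by
  rw [Finset.disjoint_left]
  intro x hx hx'
  obtain ⟨c, _, i, _, w, hw, rfl⟩ := L1_mem_spotsB hx
  obtain ⟨c', _, i', _, w', hw', h2⟩ := L1_mem_spotsB hx'
  obtain ⟨-, -, h3⟩ := pos_inj h2
  apply h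
  rw [h3, hw'] at hw
  unfold wl at hw
  omega

theorem pos_mem_spotsB {n s : ℕ} {κ : Cand} (h : κ ∈ blk n s) {l : ℕ} (hl : l < wl n) :
    pos κ.1 l κ.2 ∈ spotsB n s := by
  unfold spotsB
  rw [mem_allSpots]
  exact ⟨κ, h, l, hl, rfl⟩

theorem sp_subset {n s b j : ℕ} (hb : b < BB s) (hj : j < KK s) :
    sp n s b j ⊆ (spotsB n s : Set (List Bool)) := by
  intro x hx
  unfold sp at hx
  rw [Finset.mem_coe, mem_allSpots] at hx
  obtain ⟨κ, hκ, i, hi, rfl⟩ := hx
  rw [Finset.mem_coe]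
  exact pos_mem_spotsB (pair_subset hb hj hκ) hi

theorem sp_disjoint {n s b j b' j' : ℕ} (hj : j < KK s) (hj' : j' < KK s)
    (h : b ≠ b' ∨ j ≠ j') : Disjoint (sp n s b j) (sp n s b' j') := by
  rw [Set.disjoint_left]
  intro x hx hx'
  unfold sp at hx hx'
  rw [Finset.mem_coe, M2.mem_allSpots] at hx hx'
  obtain ⟨κ, hκ, h1⟩ := hx
  obtain ⟨κ', hκ', h2⟩ := hx'
  have h3 : κ = κ' := M2.spots_disjoint h1 h2
  subst h3
  exact Finset.disjoint_left.1 (pair_disjoint hj hj' h) hκ hκ'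

end Pool.Agent.H673R3.UC
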