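import Pool.Agent.H673R3.UC.L1
import Pool.Agent.H583R2.NC.Loc

/-! Task L1b: locality. -/

namespace Pool.Agent.H673R3.UC

open MeasureTheory Pool.Agent.NPC Pool.Agent.H628R3.RO

theorem loc_hitSet {m : ℕ} {W h : Finset Cand} :
    Loc (allSpots m W : Set (List Bool)) (HitSet m W h) := by
  intro A A' hA
  unfold HitSet
  simp only [Set.mem_ofPred_eq]
  refine forall₂_congr fun κ hκ => ?_
  rw [M2.hit_iff, M2.hit_iff]
  have h1 : (∀ x ∈ spots m κ, A x = true) ↔ (∀ x ∈ spots m κ, A' x = true) :=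
    forall₂_congr fun x hx => by
      rw [hA x (Finset.mem_coe.2 (M2.mem_allSpots.2 ⟨κ, hκ, hx⟩))]
  rw [h1]

theorem loc_Zero (n s b j : ℕ) : Loc (sp n s b j) (Zero n s b j) := by
  unfold Zero sp
  apply M2.loc_noHit
  intro κ hκ l hl
  rw [Finset.mem_coe, mem_allSpots]
  exact ⟨κ, hκ, l, hl, rfl⟩

theorem loc_One (n s b j : ℕ) : Loc (sp n s b j) (One n s b j) := by
  intro A A' hA
  unfold One
  simp only [Set.mem_ofPred_eq]
  exact exists_congr fun κ => and_congr_right fun _ => loc_hitSet A A' hA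

theorem loc_EvN (n s b j : ℕ) : Loc (sp n s b j) (EvN n s b j) := by
  intro A A' hA
  unfold EvN
  simp only [Set.mem_ofPred_eq]
  exact exists_congr fun κ => and_congr_right fun _ => exists_congr fun κ' =>
    and_congr_right fun _ => loc_hitSet A A' hA

theorem loc_EvU (n s b j : ℕ) : Loc (sp n s b j) (EvU n s b j) := by
  intro A A' hA
  unfold EvU
  simp only [Set.mem_ofPred_eq]
  exact exists_congr fun κ => and_congr_right fun _ => exists_congr fun κ' =>
    and_congr_right fun _ => and_congr_right fun _ => loc_hitSet A A' hA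

theorem loc_noHitHalf {n s b i : ℕ} (hb : b < BB s) (hi : i < 2 * KK s) :
    Loc (spotsB n s) (NoHit (wl n) (half n s b i)) := by
  apply M2.loc_noHit
  intro κ hκ l hl
  exact Finset.mem_coe.2 (pos_mem_spotsB (L1_half_subset hb hi hκ) hl)

theorem length_spotsB : ∃ P : Polynomial ℕ, ∀ n s, s ≤ n → ∀ x ∈ spotsB n s,
    x.length ≤ P.eval n := by
  obtain ⟨P, hP⟩ := size_poly
  refine ⟨P + Polynomial.C 4 * Polynomial.X + Polynomial.C 40, ?_⟩
  intro n s hsn x hx
  obtain ⟨c, hc, i, hi, w, hw, rfl⟩ := L1_mem_spotsB hx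
  have h1 := hP s
  have h2 : P.eval s ≤ P.eval n := eval_mono P hsn
  rw [length_pos, hw]
  have h3 : BB s * (2 * KK s) * rr s ≤ P.eval s := by
    refine le_trans ?_ h1
    generalize BB s * (2 * KK s) * rr s = a1
    generalize 2 * rr s * 2 ^ mm s = a2
    generalize 2 ^ mm s = a3
    omega
  clear h1
  simp only [Polynomial.eval_add, Polynomial.eval_mul, Polynomial.eval_C, Polynomial.eval_X]
  unfold wl at hi ⊢
  omega

end Pool.Agent.H673R3.UC
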