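import Pool.Agent.H673R3.UC.Defs
import Pool.Agent.H583R2.NC.NumA

/-! Task N1: numbers: the probabilities. -/

namespace Pool.Agent.H673R3.UC

open MeasureTheory Pool.Agent.NPC Pool.Agent.H628R3.RO

theorem three_le_rr {s : ℕ} (hs : 4 ≤ s) : 3 ≤ rr s := by
  have h : 2 < Nat.size s := Nat.lt_size.2 (by omega)
  exact h
theorem lt_pow_rr (s : ℕ) : s < 2 ^ rr s := Nat.lt_size_self s
theorem pow_rr_le {s : ℕ} (hs : 1 ≤ s) : 2 ^ rr s ≤ 2 * s := H583R2.NC.NumA_pow_le hs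
theorem rr_le (s : ℕ) : rr s ≤ s := H583R2.NC.NumA_size_le s
theorem mm_le_wl {n s : ℕ} (h : s ≤ n) : mm s ≤ wl n := by
  have h1 : Nat.size (rr s) ≤ rr s := H583R2.NC.NumA_size_le (rr s)
  have h2 : rr s ≤ s := rr_le s
  unfold mm wl
  omega
theorem mm_sq (s : ℕ) : (2 : ℝ) ^ 14 * (rr s : ℝ) ^ 2 ≤ (2 : ℝ) ^ mm s := by
  have h1 : (rr s : ℝ) ≤ 2 ^ (rr s).size := by exact_mod_cast (Nat.lt_size_self (rr s)).le
  have h2 : (rr s : ℝ) ^ 2 ≤ (2 ^ (rr s).size) ^ 2 :=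
    pow_le_pow_left₀ (Nat.cast_nonneg _) h1 2
  unfold mm
  rw [pow_add, mul_comm]
  refine mul_le_mul_of_nonneg_right (h2.trans (le_of_eq ?_)) (by norm_num)
  rw [← pow_mul, mul_comm]

theorem ap_eq (s : ℕ) : ap s = (uu s : ℝ) / (vv s : ℝ) := by
  unfold ap uu vv
  have h1 : 1 ≤ 2 ^ mm s := Nat.one_le_two_pow
  rw [Nat.cast_pow, Nat.cast_pow, ← div_pow, Nat.cast_sub h1]
  congr 1
  push_cast
  rw [sub_div, div_self (by positivity), one_div, one_div, inv_pow]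
theorem ap_le {n s : ℕ} (h : s ≤ n) : ap s ≤ zp n s := by
  obtain ⟨d, hd⟩ := Nat.exists_eq_add_of_le (mm_le_wl h)
  have h1 := H583R2.NC.NumA_ap_le (mm s) d (2 * rr s)
  rw [← hd] at h1
  exact h1

theorem N1_zp_le_exp (n s : ℕ) : zp n s ≤ Real.exp (-((2 * rr s : ℕ) : ℝ)) := by
  unfold zp
  rw [mul_comm (2 * rr s), pow_mul]
  have h1 : (1 - (1 / 2 : ℝ) ^ wl n) ^ (2 ^ wl n) ≤ Real.exp (-1) := by
    have hle : (1 / 2 : ℝ) ^ wl n ≤ 1 := pow_le_one₀ (by norm_num) (by norm_num)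
    have h2 := Real.one_sub_le_exp_neg ((1 / 2 : ℝ) ^ wl n)
    calc (1 - (1 / 2 : ℝ) ^ wl n) ^ (2 ^ wl n) ≤ (Real.exp (-(1 / 2 : ℝ) ^ wl n)) ^ (2 ^ wl n) :=
          pow_le_pow_left₀ (by linarith) h2 _
      _ = Real.exp (-1) := by
          rw [← Real.exp_nat_mul]
          congr 1
          push_cast
          have h4 : (2 : ℝ) ^ wl n * (1 / 2) ^ wl n = 1 := by
            rw [← mul_pow]
            norm_num
          linear_combination -h4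
  have hle : (1 / 2 : ℝ) ^ wl n ≤ 1 := pow_le_one₀ (by norm_num) (by norm_num)
  calc ((1 - (1 / 2 : ℝ) ^ wl n) ^ (2 ^ wl n)) ^ (2 * rr s) ≤ (Real.exp (-1)) ^ (2 * rr s) :=
        pow_le_pow_left₀ (pow_nonneg (by linarith) _) h1 _
    _ = Real.exp (-((2 * rr s : ℕ) : ℝ)) := by
        rw [← Real.exp_nat_mul]
        congr 1
        ring

theorem zp_le_ap {s : ℕ} (hs : 4 ≤ s) (n : ℕ) :
    zp n s ≤ ap s * (1 + 4 * (2 * rr s : ℕ) / 2 ^ mm s) := by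
  refine (N1_zp_le_exp n s).trans (H583R2.NC.NumA_core (mm s) (2 * rr s) ?_ ?_)
  · unfold mm
    omega
  · have h1 : rr s < 2 ^ (rr s).size := Nat.lt_size_self (rr s)
    have h2 : 2 ^ ((rr s).size + 2) ≤ 2 ^ mm s := by
      refine Nat.pow_le_pow_right (by norm_num) ?_
      unfold mm
      omega
    rw [pow_succ, pow_succ] at h2
    omega
theorem ap_ge (s : ℕ) : (1 / 4 : ℝ) ^ (2 * rr s) ≤ ap s := sat_ge (by unfold mm; omega) (2 * rr s)
theorem zp_hi (n s : ℕ) : zp n s ≤ (2 / 5) ^ (2 * rr s) := satC_le (wl n) (2 * rr s)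
theorem zp_pos (n s : ℕ) : 0 < zp n s := by
  unfold zp
  have h := H583R2.NC.NumA_half_lt (m := wl n) (by unfold wl; omega)
  exact pow_pos (by linarith) _
theorem q_le {n s : ℕ} (hs : 4 ≤ s) (hn : s ≤ n) :
    (rr s : ℝ) * (1 / 2 : ℝ) ^ wl n ≤ (1 / 2) ^ 16 := by
  have h1 : rr s < 2 ^ (2 * n) := by
    have h2 : rr s ≤ s := rr_le s
    have h3 : n < 2 ^ n := Nat.lt_two_pow_self
    have h4 : 2 ^ n ≤ 2 ^ (2 * n) := Nat.pow_le_pow_right (by norm_num) (by omega)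
    omega
  have h5 : (rr s : ℝ) ≤ 2 ^ (2 * n) := by exact_mod_cast h1.le
  unfold wl
  rw [pow_add, ← mul_assoc]
  have h6 : (rr s : ℝ) * (1 / 2) ^ (2 * n) ≤ 1 := by
    calc (rr s : ℝ) * (1 / 2) ^ (2 * n) ≤ 2 ^ (2 * n) * (1 / 2) ^ (2 * n) :=
          mul_le_mul_of_nonneg_right h5 (by positivity)
      _ = 1 := by rw [← mul_pow]; norm_num
  calc (rr s : ℝ) * (1 / 2) ^ (2 * n) * (1 / 2) ^ 16 ≤ 1 * (1 / 2) ^ 16 :=
        mul_le_mul_of_nonneg_right h6 (by positivity)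
    _ = (1 / 2) ^ 16 := one_mul _

theorem N1_dec {r : ℕ} (hr : 3 ≤ r) : (2 / 5 : ℝ) ^ (2 * r) * (1 + 3 * r) ≤ 1 / 16 := by
  induction r, hr using Nat.le_induction with
  | base => norm_num
  | succ k hk ih =>
    have hk' : (3 : ℝ) ≤ k := by exact_mod_cast hk
    have h1 : (0 : ℝ) ≤ (2 / 5 : ℝ) ^ (2 * k) := by positivity
    have h2 : (2 / 5 : ℝ) ^ (2 * (k + 1)) = (2 / 5 : ℝ) ^ (2 * k) * (4 / 25) := by
      rw [mul_add, pow_add]
      norm_num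
    rw [h2]
    push_cast
    nlinarith

theorem lp_le {n s : ℕ} (hs : 4 ≤ s) (hn : s ≤ n) : lp n s ≤ 1 / 16 := by
  have hz := zp_hi n s
  have hz0 := zp_pos n s
  have hr := three_le_rr hs
  have hr' : (0 : ℝ) ≤ rr s := Nat.cast_nonneg _
  have hq : (1 / 2 : ℝ) ^ wl n ≤ 1 / 4 := by
    calc (1 / 2 : ℝ) ^ wl n ≤ (1 / 2) ^ 2 :=
          pow_le_pow_of_le_one (by norm_num) (by norm_num) (by unfold wl; omega)
      _ = 1 / 4 := by norm_num
  have hop : op n s ≤ 3 * rr s * zp n s := by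
    unfold op
    rw [div_le_iff₀ (by linarith)]
    have h1 : 0 ≤ (rr s : ℝ) * zp n s := by positivity
    nlinarith
  have h2 := N1_dec hr
  unfold lp
  have h3 : zp n s * (1 + 3 * rr s) ≤ (2 / 5 : ℝ) ^ (2 * rr s) * (1 + 3 * rr s) :=
    mul_le_mul_of_nonneg_right hz (by positivity)
  linarith

end Pool.Agent.H673R3.UC
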