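import Pool.Agent.H673R3.UC.N1
import Pool.Agent.H583R2.NC.NumB

/-! Task N2: numbers: number of pairs, number of blocks. -/

namespace Pool.Agent.H673R3.UC

open MeasureTheory Pool.Agent.NPC Pool.Agent.H628R3.RO

theorem N2_uu_pos (s : ℕ) : 0 < uu s := by
  unfold uu
  have h : 1 < 2 ^ mm s := Nat.one_lt_two_pow (by unfold mm; omega)
  exact pow_pos (by omega) _

theorem N2_vv_pos (s : ℕ) : 0 < vv s := by
  unfold vv
  positivity

theorem N2_lo (s : ℕ) : (64 : ℝ) ≤ KK s * ap s := by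
  have hu := N2_uu_pos s
  have hv : (0 : ℝ) < vv s := by exact_mod_cast N2_vv_pos s
  have h : 64 * vv s < uu s * (64 * vv s / uu s + 1) := Nat.lt_mul_div_succ _ hu
  have h' : (64 * vv s : ℝ) ≤ uu s * (KK s : ℝ) := by
    have : 64 * vv s ≤ uu s * KK s := h.le
    exact_mod_cast this
  rw [ap_eq, mul_div_assoc', le_div_iff₀ hv]
  linarith

theorem N2_hi (s : ℕ) : (KK s : ℝ) * ap s ≤ 64 + ap s := by
  have hv : (0 : ℝ) < vv s := by exact_mod_cast N2_vv_pos s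
  have h : uu s * (64 * vv s / uu s) ≤ 64 * vv s := Nat.mul_div_le _ _
  have h' : (uu s : ℝ) * (KK s : ℝ) ≤ 64 * vv s + uu s := by
    have : uu s * KK s ≤ 64 * vv s + uu s := by
      unfold KK
      rw [mul_add, mul_one]
      omega
    exact_mod_cast this
  rw [ap_eq, mul_div_assoc', div_le_iff₀ hv, add_mul, div_mul_cancel₀ _ hv.ne']
  linarith

theorem K_lo {n s : ℕ} (hs : 4 ≤ s) (hn : s ≤ n) : (64 : ℝ) ≤ KK s * zp n s :=
  (N2_lo s).trans (mul_le_mul_of_nonneg_left (ap_le hn) (Nat.cast_nonneg _))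
theorem K_hi {n s : ℕ} (hs : 4 ≤ s) (hn : s ≤ n) : (KK s : ℝ) * zp n s ≤ 66 := by
  have h1 := zp_le_ap hs n
  have h2 := N2_hi s
  have h2' := N2_lo s
  have h3 := mm_sq s
  have hr : (3 : ℝ) ≤ rr s := by exact_mod_cast three_le_rr hs
  have hap : ap s ≤ 1 := by
    refine (ap_le le_rfl).trans ((zp_hi s s).trans ?_)
    exact pow_le_one₀ (by norm_num) (by norm_num)
  have hM : (0 : ℝ) < 2 ^ mm s := by positivity
  have h4 : 4 * ((2 * rr s : ℕ) : ℝ) / 2 ^ mm s ≤ 1 / 2048 := by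
    rw [div_le_iff₀ hM]
    push_cast
    have h5 : (2 : ℝ) ^ 14 = 16384 := by norm_num
    rw [h5] at h3
    nlinarith
  have h6 : (0 : ℝ) ≤ KK s := Nat.cast_nonneg _
  calc (KK s : ℝ) * zp n s ≤ KK s * (ap s * (1 + 4 * (2 * rr s : ℕ) / 2 ^ mm s)) :=
        mul_le_mul_of_nonneg_left h1 h6
    _ = (KK s * ap s) * (1 + 4 * (2 * rr s : ℕ) / 2 ^ mm s) := by ring
    _ ≤ (KK s * ap s) * (1 + 1 / 2048) := mul_le_mul_of_nonneg_left (by linarith) (by linarith)
    _ ≤ 65 * (1 + 1 / 2048) := mul_le_mul_of_nonneg_right (by linarith) (by norm_num)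
    _ ≤ 66 := by norm_num

end Pool.Agent.H673R3.UC
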