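import Pool.Agent.H673R3.UC.N2

/-! Task N2b: numbers: number of blocks. -/

namespace Pool.Agent.H673R3.UC

open MeasureTheory Pool.Agent.NPC Pool.Agent.H628R3.RO

attribute [local irreducible] uu vv KK BB rr mm ap zp

theorem N2b_uu_pos (s : ℕ) : 0 < uu s := by
  unfold uu
  have h : 1 < 2 ^ mm s := Nat.one_lt_two_pow (by unfold mm; omega)
  exact pow_pos (by omega) _

theorem N2b_vv_pos (s : ℕ) : 0 < vv s := by
  unfold vv
  positivity

theorem N2b_ap_pos (s : ℕ) : 0 < ap s := lt_of_lt_of_le (by positivity) (ap_ge s)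

/-- `64 ≤ K a` -/
theorem N2b_K_lo (s : ℕ) : (64 : ℝ) ≤ KK s * ap s := by
  have hu := N2b_uu_pos s
  have hv : (0 : ℝ) < vv s := by exact_mod_cast N2b_vv_pos s
  have h : 64 * vv s < uu s * (64 * vv s / uu s + 1) := Nat.lt_mul_div_succ _ hu
  have h' : (64 * vv s : ℝ) ≤ uu s * (KK s : ℝ) := by
    have : 64 * vv s ≤ uu s * KK s := by unfold KK; exact h.le
    exact_mod_cast this
  rw [ap_eq, mul_div_assoc', le_div_iff₀ hv]
  linarith

theorem N2b_K_hi (s : ℕ) : (KK s : ℝ) * ap s ≤ 64 + ap s := by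
  have hu := N2b_uu_pos s
  have hv : (0 : ℝ) < vv s := by exact_mod_cast N2b_vv_pos s
  have h : uu s * (64 * vv s / uu s) ≤ 64 * vv s := Nat.mul_div_le _ _
  have h' : (uu s : ℝ) * (KK s : ℝ) ≤ 64 * vv s + uu s := by
    have : uu s * KK s ≤ 64 * vv s + uu s := by
      unfold KK
      rw [mul_add, mul_one]
      omega
    exact_mod_cast this
  rw [ap_eq, mul_div_assoc', div_le_iff₀ hv, add_mul, div_mul_cancel₀ _ hv.ne']
  linarith

theorem N2b_q_lt (n : ℕ) : (1 / 2 : ℝ) ^ wl n ≤ 1 / 4 := by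
  calc (1 / 2 : ℝ) ^ wl n ≤ (1 / 2) ^ 2 :=
        pow_le_pow_of_le_one (by norm_num) (by norm_num) (by unfold wl; omega)
    _ = 1 / 4 := by norm_num

/-- the low probability is at least `(2 r + 1) z` -/
theorem N2b_lp_ge (n s : ℕ) : (2 * rr s + 1) * zp n s ≤ lp n s := by
  have hz := zp_pos n s
  have hq := N2b_q_lt n
  have hq0 : (0 : ℝ) < (1 / 2 : ℝ) ^ wl n := by positivity
  have hr : (0 : ℝ) ≤ rr s := Nat.cast_nonneg _
  have h : 2 * (rr s : ℝ) * zp n s ≤ 2 * rr s * zp n s / (1 - (1 / 2 : ℝ) ^ wl n) := by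
    rw [le_div_iff₀ (by linarith)]
    have : 0 ≤ 2 * (rr s : ℝ) * zp n s * (1 / 2 : ℝ) ^ wl n := by positivity
    linarith
  unfold lp op
  linarith

/-- and the difference is small -/
theorem N2b_lp_le (n s : ℕ) :
    lp n s ≤ (2 * rr s + 1) * zp n s + 4 * rr s * (1 / 2 : ℝ) ^ wl n * zp n s := by
  have hz := zp_pos n s
  have hq := N2b_q_lt n
  have hq0 : (0 : ℝ) < (1 / 2 : ℝ) ^ wl n := by positivity
  have hr : (0 : ℝ) ≤ rr s := Nat.cast_nonneg _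
  have h : 2 * rr s * zp n s / (1 - (1 / 2 : ℝ) ^ wl n) ≤
      2 * (rr s : ℝ) * zp n s + 4 * rr s * (1 / 2 : ℝ) ^ wl n * zp n s := by
    rw [div_le_iff₀ (by linarith)]
    have : 0 ≤ 2 * (rr s : ℝ) * zp n s * (1 / 2 : ℝ) ^ wl n * (1 - 2 * (1 / 2 : ℝ) ^ wl n) := by
      apply mul_nonneg (by positivity)
      linarith
    nlinarith
  unfold lp op
  linarith

theorem N2b_Ra_le {s : ℕ} (hs : 4 ≤ s) : (2 * rr s + 1) * ap s ≤ 1 / 16 := by
  have h1 := lp_le (n := s) hs le_rfl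
  have h2 := N2b_lp_ge s s
  have h3 := ap_le (n := s) (s := s) le_rfl
  have hr : (0 : ℝ) ≤ rr s := Nat.cast_nonneg _
  have h4 : (2 * rr s + 1) * ap s ≤ (2 * rr s + 1) * zp s s :=
    mul_le_mul_of_nonneg_left h3 (by positivity)
  linarith

theorem N2b_Ru_lt {s : ℕ} (hs : 4 ≤ s) : (2 * rr s + 1) * uu s < vv s := by
  have h := N2b_Ra_le hs
  have hv : (0 : ℝ) < vv s := by exact_mod_cast N2b_vv_pos s
  rw [ap_eq, mul_div_assoc', div_le_iff₀ hv] at h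
  have h2 : ((2 * rr s + 1) * uu s : ℝ) < vv s := by linarith
  exact_mod_cast h2

theorem N2b_sub {s : ℕ} (hs : 4 ≤ s) : ((vv s - (2 * rr s + 1) * uu s : ℕ) : ℝ) =
    vv s * (1 - (2 * rr s + 1) * ap s) := by
  have hv : (0 : ℝ) < vv s := by exact_mod_cast N2b_vv_pos s
  rw [Nat.cast_sub (N2b_Ru_lt hs).le, ap_eq, mul_sub, mul_one]
  push_cast
  field_simp

theorem N2b_B_lo {s : ℕ} (hs : 4 ≤ s) :
    (1 / 2 : ℝ) ^ (rr s + 11) / (rr s : ℝ) ^ 2 ≤
      (BB s : ℝ) * (1 - (2 * rr s + 1) * ap s) ^ KK s := by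
  have hv : (0 : ℝ) < vv s := by exact_mod_cast N2b_vv_pos s
  have hr : (3:ℝ) ≤ rr s := by exact_mod_cast three_le_rr hs
  have hX : 0 < 2 ^ (rr s + 11) * rr s ^ 2 * (vv s - (2 * rr s + 1) * uu s) ^ KK s := by
    have := N2b_Ru_lt hs
    have h3 := three_le_rr hs
    have : 0 < vv s - (2 * rr s + 1) * uu s := by omega
    have : 0 < rr s := by omega
    positivity
  have h : vv s ^ KK s <
      (2 ^ (rr s + 11) * rr s ^ 2 * (vv s - (2 * rr s + 1) * uu s) ^ KK s) * BB s := by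
    unfold BB
    exact Nat.lt_mul_div_succ _ hX
  have h' : (vv s : ℝ) ^ KK s ≤
      (2 ^ (rr s + 11) * (rr s : ℝ) ^ 2 * (vv s * (1 - (2 * rr s + 1) * ap s)) ^ KK s) * BB s := by
    rw [← N2b_sub hs]
    exact_mod_cast h.le
  rw [mul_pow] at h'
  have hvK : (0:ℝ) < (vv s : ℝ) ^ KK s := by positivity
  have h2 : 1 ≤ 2 ^ (rr s + 11) * (rr s : ℝ) ^ 2 * (1 - (2 * rr s + 1) * ap s) ^ KK s * BB s := by
    have : (vv s : ℝ) ^ KK s * 1 ≤ (vv s : ℝ) ^ KK s *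
        (2 ^ (rr s + 11) * (rr s : ℝ) ^ 2 * (1 - (2 * rr s + 1) * ap s) ^ KK s * BB s) := by
      rw [mul_one]
      refine h'.trans (le_of_eq ?_)
      ring
    exact le_of_mul_le_mul_left this hvK
  rw [div_le_iff₀ (by positivity), one_div, inv_pow, inv_le_iff_one_le_mul₀ (by positivity)]
  refine h2.trans (le_of_eq ?_)
  ring

theorem N2b_B_hi {s : ℕ} (hs : 4 ≤ s) :
    (BB s : ℝ) * (1 - (2 * rr s + 1) * ap s) ^ KK s ≤
      (1 / 2 : ℝ) ^ (rr s + 11) / (rr s : ℝ) ^ 2 + (1 - (2 * rr s + 1) * ap s) ^ KK s := by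
  have hv : (0 : ℝ) < vv s := by exact_mod_cast N2b_vv_pos s
  have hr : (3:ℝ) ≤ rr s := by exact_mod_cast three_le_rr hs
  have ha : 0 < 1 - (2 * rr s + 1) * ap s := by linarith [N2b_Ra_le hs]
  have h : (2 ^ (rr s + 11) * rr s ^ 2 * (vv s - (2 * rr s + 1) * uu s) ^ KK s) * (BB s - 1) ≤
      vv s ^ KK s := by
    unfold BB
    exact Nat.mul_div_le _ _
  have hB : 1 ≤ BB s := by unfold BB; exact Nat.le_add_left _ _
  have h' : (2 ^ (rr s + 11) * (rr s : ℝ) ^ 2 * (vv s * (1 - (2 * rr s + 1) * ap s)) ^ KK s) *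
      (BB s - 1) ≤ (vv s : ℝ) ^ KK s := by
    rw [← N2b_sub hs]
    have : (((2 ^ (rr s + 11) * rr s ^ 2 * (vv s - (2 * rr s + 1) * uu s) ^ KK s) *
      (BB s - 1) : ℕ) : ℝ) ≤ ((vv s ^ KK s : ℕ) : ℝ) := by exact_mod_cast h
    rw [Nat.cast_mul, Nat.cast_sub hB, Nat.cast_mul, Nat.cast_mul, Nat.cast_pow, Nat.cast_pow,
      Nat.cast_pow, Nat.cast_pow] at this
    exact_mod_cast this
  rw [mul_pow] at h'
  have hvK : (0:ℝ) < (vv s : ℝ) ^ KK s := by positivity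
  have h2 : 2 ^ (rr s + 11) * (rr s : ℝ) ^ 2 * (1 - (2 * rr s + 1) * ap s) ^ KK s *
      (BB s - 1) ≤ 1 := by
    have : (vv s : ℝ) ^ KK s *
        (2 ^ (rr s + 11) * (rr s : ℝ) ^ 2 * (1 - (2 * rr s + 1) * ap s) ^ KK s * (BB s - 1)) ≤
        (vv s : ℝ) ^ KK s * 1 := by
      rw [mul_one]
      refine le_trans (le_of_eq ?_) h'
      ring
    exact le_of_mul_le_mul_left this hvK
  have h3 : (BB s - 1) * (1 - (2 * rr s + 1) * ap s) ^ KK s ≤
      (1 / 2 : ℝ) ^ (rr s + 11) / (rr s : ℝ) ^ 2 := by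
    rw [le_div_iff₀ (by positivity), one_div, inv_pow, ← one_div, le_div_iff₀ (by positivity)]
    refine le_trans (le_of_eq ?_) h2
    ring
  have h4 : (BB s : ℝ) * (1 - (2 * rr s + 1) * ap s) ^ KK s =
      (BB s - 1) * (1 - (2 * rr s + 1) * ap s) ^ KK s + (1 - (2 * rr s + 1) * ap s) ^ KK s := by
    ring
  linarith

theorem N2b_al_small {s : ℕ} (hs : 4 ≤ s) :
    (1 - (2 * rr s + 1) * ap s) ^ KK s ≤ (1 / 2 : ℝ) ^ (rr s + 11) / (rr s : ℝ) ^ 2 := by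
  have hr := three_le_rr hs
  have ha : 0 ≤ 1 - (2 * rr s + 1) * ap s := by linarith [N2b_Ra_le hs]
  have h1 : (1 - (2 * rr s + 1) * ap s) ^ KK s ≤ (1 / 2 : ℝ) ^ (64 * (2 * rr s + 1)) := by
    have e1 : 1 - (2 * rr s + 1) * ap s ≤ Real.exp (-((2 * rr s + 1) * ap s)) :=
      Real.one_sub_le_exp_neg _
    have e2 : (1 - (2 * rr s + 1) * ap s) ^ KK s ≤
        Real.exp (-((2 * rr s + 1) * ap s)) ^ KK s := pow_le_pow_left₀ ha e1 _
    have e3 : Real.exp (-((2 * rr s + 1) * ap s)) ^ KK s =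
        Real.exp (-((2 * rr s + 1) * ((KK s : ℝ) * ap s))) := by
      rw [← Real.exp_nat_mul]
      congr 1
      ring
    have e4 : ((64 * (2 * rr s + 1) : ℕ) : ℝ) ≤ (2 * rr s + 1) * ((KK s : ℝ) * ap s) := by
      have h := N2b_K_lo s
      have hr0 : (0 : ℝ) ≤ rr s := Nat.cast_nonneg _
      push_cast
      have := mul_le_mul_of_nonneg_left h (by positivity : (0 : ℝ) ≤ 2 * (rr s : ℝ) + 1)
      linarith
    have e5 : Real.exp (-((2 * rr s + 1) * ((KK s : ℝ) * ap s))) ≤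
        Real.exp (-((64 * (2 * rr s + 1) : ℕ) : ℝ)) :=
      Real.exp_le_exp.2 (by linarith)
    have e6 : Real.exp (-((64 * (2 * rr s + 1) : ℕ) : ℝ)) =
        Real.exp (-1) ^ (64 * (2 * rr s + 1)) := by
      rw [← Real.exp_nat_mul]
      congr 1
      ring
    have e7 : Real.exp (-1) ≤ 1 / 2 := by
      rw [Real.exp_neg, ← one_div]
      apply one_div_le_one_div_of_le (by norm_num)
      have := Real.add_one_le_exp (1:ℝ)
      linarith
    have e8 : Real.exp (-1) ^ (64 * (2 * rr s + 1)) ≤ (1 / 2 : ℝ) ^ (64 * (2 * rr s + 1)) :=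
      pow_le_pow_left₀ (Real.exp_pos _).le e7 _
    rw [e3] at e2
    rw [e6] at e5
    exact e2.trans (e5.trans e8)
  refine h1.trans ?_
  have hr0 : (0:ℝ) < rr s := by
    have : 0 < rr s := by omega
    exact_mod_cast this
  rw [le_div_iff₀ (by positivity)]
  have h2 : (rr s : ℝ) ≤ 2 ^ rr s := by
    exact_mod_cast (Nat.lt_two_pow_self (n := rr s)).le
  have h3 : (rr s : ℝ) ^ 2 ≤ 2 ^ (2 * rr s) := by
    calc (rr s : ℝ) ^ 2 ≤ (2 ^ rr s) ^ 2 := pow_le_pow_left₀ hr0.le h2 2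
      _ = 2 ^ (2 * rr s) := by rw [← pow_mul, mul_comm]
  calc (1 / 2 : ℝ) ^ (64 * (2 * rr s + 1)) * (rr s : ℝ) ^ 2
      ≤ (1 / 2 : ℝ) ^ (64 * (2 * rr s + 1)) * 2 ^ (2 * rr s) :=
        mul_le_mul_of_nonneg_left h3 (by positivity)
    _ = (1 / 2 : ℝ) ^ (126 * rr s + 64) := by
        have : 64 * (2 * rr s + 1) = (126 * rr s + 64) + 2 * rr s := by ring
        rw [this, pow_add _ (126 * rr s + 64), mul_assoc, ← mul_pow]
        norm_num
    _ ≤ (1 / 2 : ℝ) ^ (rr s + 11) :=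
        pow_le_pow_of_le_one (by norm_num) (by norm_num) (by omega)

/-- the two powers differ at most by a factor `2` -/
theorem N2b_al_half {n s : ℕ} (hs : 4 ≤ s) (hn : s ≤ n) :
    (1 - (2 * rr s + 1) * ap s) ^ KK s / 2 ≤ (1 - lp n s) ^ KK s := by
  have ha := N2b_Ra_le hs
  have hl := lp_le hs hn
  have hz' := zp_le_ap hs n
  have hlp := N2b_lp_le n s
  have hKz := K_hi hs hn
  have hKa := N2b_K_hi s
  have hap := N2b_ap_pos s
  have hzp := zp_pos n s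
  have hr : (3:ℝ) ≤ rr s := by exact_mod_cast three_le_rr hs
  have hmm := mm_sq s
  have hq := q_le hs hn
  have hK0 : (0 : ℝ) ≤ KK s := Nat.cast_nonneg _
  have hM : (0 : ℝ) < 2 ^ mm s := by positivity
  have hq0 : (0 : ℝ) < (1 / 2 : ℝ) ^ wl n := by positivity
  obtain ⟨r, hrr⟩ : ∃ r : ℝ, r = (rr s : ℝ) := ⟨_, rfl⟩
  obtain ⟨a, haa⟩ : ∃ a : ℝ, a = ap s := ⟨_, rfl⟩
  obtain ⟨z, hzz⟩ : ∃ z : ℝ, z = zp n s := ⟨_, rfl⟩
  obtain ⟨K, hKK⟩ : ∃ K : ℝ, K = (KK s : ℝ) := ⟨_, rfl⟩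
  obtain ⟨M, hMM⟩ : ∃ M : ℝ, M = (2 : ℝ) ^ mm s := ⟨_, rfl⟩
  obtain ⟨q, hqq⟩ : ∃ q : ℝ, q = (1 / 2 : ℝ) ^ wl n := ⟨_, rfl⟩
  obtain ⟨l, hll⟩ : ∃ l : ℝ, l = lp n s := ⟨_, rfl⟩
  -- the main estimate
  have hmain : K * (l - (2 * r + 1) * a) ≤ 1 / 4 := by
    push_cast at hz'
    rw [← hrr, ← haa, ← hzz, ← hMM] at hz'
    rw [← hrr, ← hzz, ← hqq, ← hll] at hlp
    rw [← hKK, ← hzz] at hKz
    rw [← hKK, ← haa] at hKa
    rw [← haa] at hap
    rw [← hzz] at hzp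
    rw [← hrr] at hr
    rw [← hrr, ← hMM] at hmm
    rw [← hrr, ← hqq] at hq
    rw [← hKK] at hK0
    rw [← hMM] at hM
    rw [← hqq] at hq0
    rw [← hrr, ← haa] at ha
    have ha1 : a ≤ 1 / 16 := by nlinarith
    have h1 : K * (l - (2 * r + 1) * a) ≤
        K * ((2 * r + 1) * (a * (4 * (2 * r) / M)) + 4 * r * q * z) := by
      apply mul_le_mul_of_nonneg_left _ hK0
      have h2 : (2 * r + 1) * z ≤ (2 * r + 1) * (a * (1 + 4 * (2 * r) / M)) :=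
        mul_le_mul_of_nonneg_left hz' (by positivity)
      linarith
    have h3 : K * ((2 * r + 1) * (a * (4 * (2 * r) / M)) + 4 * r * q * z) =
        (K * a) * ((2 * r + 1) * (8 * r) / M) + 4 * (r * q) * (K * z) := by
      ring
    have h4 : (2 * r + 1) * (8 * r) / M ≤ 24 / 2 ^ 14 := by
      rw [div_le_div_iff₀ hM (by positivity)]
      nlinarith
    have h4' : 0 ≤ (2 * r + 1) * (8 * r) / M := by positivity
    have h5 : (K * a) * ((2 * r + 1) * (8 * r) / M) ≤ 65 * (24 / 2 ^ 14) := by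
      apply mul_le_mul _ h4 h4' (by norm_num)
      linarith
    have h6 : 4 * (r * q) * (K * z) ≤ 4 * (1 / 2) ^ 16 * 66 := by
      apply mul_le_mul _ hKz (by positivity) (by positivity)
      linarith
    rw [h3] at h1
    norm_num at h5 h6
    linarith
  rw [← hrr, ← haa] at ha
  rw [← hrr, ← haa, ← hll]
  rw [← hll] at hl
  have hpos : 0 < 1 - (2 * r + 1) * a := by linarith
  have hge : 0 ≤ l - (2 * r + 1) * a := by
    have h1 := N2b_lp_ge n s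
    have h2 := ap_le hn
    rw [← hrr, ← hzz, ← hll] at h1
    rw [← haa, ← hzz] at h2
    rw [← hrr] at hr
    have h3 : (2 * r + 1) * a ≤ (2 * r + 1) * z := mul_le_mul_of_nonneg_left h2 (by positivity)
    linarith
  have h1 : 1 - l = (1 - (2 * r + 1) * a) *
      (1 + -((l - (2 * r + 1) * a) / (1 - (2 * r + 1) * a))) := by
    field_simp
    ring
  have hd : (l - (2 * r + 1) * a) / (1 - (2 * r + 1) * a) ≤ 2 * (l - (2 * r + 1) * a) := by
    rw [div_le_iff₀ hpos]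
    nlinarith
  have hd1 : (l - (2 * r + 1) * a) / (1 - (2 * r + 1) * a) ≤ 1 := by
    rw [div_le_one hpos]
    linarith
  have hK : K * ((l - (2 * r + 1) * a) / (1 - (2 * r + 1) * a)) ≤ 1 / 2 := by
    have := mul_le_mul_of_nonneg_left hd (hKK ▸ hK0)
    linarith
  have hb := one_add_mul_le_pow (a := -((l - (2 * r + 1) * a) / (1 - (2 * r + 1) * a))) (by
    linarith) (KK s)
  rw [h1, mul_pow]
  have h7 : 0 ≤ (1 - (2 * r + 1) * a) ^ KK s := by positivity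
  rw [← hKK] at hb
  calc (1 - (2 * r + 1) * a) ^ KK s / 2 = (1 - (2 * r + 1) * a) ^ KK s * (1 / 2) := by ring
    _ ≤ (1 - (2 * r + 1) * a) ^ KK s *
        (1 + -((l - (2 * r + 1) * a) / (1 - (2 * r + 1) * a))) ^ KK s := by
        apply mul_le_mul_of_nonneg_left _ h7
        refine le_trans ?_ hb
        linarith

theorem bad_hi {n s : ℕ} (hs : 4 ≤ s) (hn : s ≤ n) :
    (BB s : ℝ) * (1 - lp n s) ^ KK s ≤ ee s := by
  have h1 : (1 - lp n s) ^ KK s ≤ (1 - (2 * rr s + 1) * ap s) ^ KK s := by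
    apply pow_le_pow_left₀
    · linarith [lp_le hs hn]
    · have h1 := N2b_lp_ge n s
      have h3 : (2 * rr s + 1) * ap s ≤ (2 * rr s + 1) * zp n s :=
        mul_le_mul_of_nonneg_left (ap_le hn) (by positivity)
      linarith
  have h2 := N2b_B_hi hs
  have h3 := N2b_al_small hs
  calc (BB s : ℝ) * (1 - lp n s) ^ KK s ≤ BB s * (1 - (2 * rr s + 1) * ap s) ^ KK s :=
        mul_le_mul_of_nonneg_left h1 (Nat.cast_nonneg _)
    _ ≤ (1 / 2 : ℝ) ^ (rr s + 11) / (rr s : ℝ) ^ 2 +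
        (1 / 2 : ℝ) ^ (rr s + 11) / (rr s : ℝ) ^ 2 := by linarith
    _ = ee s := by
        unfold ee
        rw [pow_succ (1 / 2 : ℝ) (rr s + 10)]
        ring

theorem bad_lo {n s : ℕ} (hs : 4 ≤ s) (hn : s ≤ n) :
    (1 / 2 : ℝ) ^ (rr s + 12) / (rr s : ℝ) ^ 2 ≤ (BB s : ℝ) * (1 - lp n s) ^ KK s := by
  have h1 := N2b_al_half hs hn
  have h2 := N2b_B_lo hs
  calc (1 / 2 : ℝ) ^ (rr s + 12) / (rr s : ℝ) ^ 2
      = (1 / 2 : ℝ) ^ (rr s + 11) / (rr s : ℝ) ^ 2 / 2 := by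
        rw [pow_succ (1 / 2 : ℝ) (rr s + 11)]
        ring
    _ ≤ BB s * (1 - (2 * rr s + 1) * ap s) ^ KK s / 2 := by linarith
    _ = BB s * ((1 - (2 * rr s + 1) * ap s) ^ KK s / 2) := by ring
    _ ≤ BB s * (1 - lp n s) ^ KK s := mul_le_mul_of_nonneg_left h1 (Nat.cast_nonneg _)

end Pool.Agent.H673R3.UC
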