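import Pool.Agent.H673R3.UC.N2b

/-! Task N3: numbers: consequences. -/

namespace Pool.Agent.H673R3.UC

open MeasureTheory Pool.Agent.NPC Pool.Agent.H628R3.RO

theorem N3_pow {s : ℕ} (hs : 4 ≤ s) : (1 / 2 : ℝ) ^ (rr s + 10) ≤ 1 / 8192 := by
  have h := three_le_rr hs
  calc (1 / 2 : ℝ) ^ (rr s + 10) ≤ (1 / 2) ^ 13 :=
        pow_le_pow_of_le_one (by norm_num) (by norm_num) (by omega)
    _ = 1 / 8192 := by norm_num

theorem N3_rr {s : ℕ} (hs : 4 ≤ s) : (3 : ℝ) ≤ rr s := by exact_mod_cast three_le_rr hs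

theorem N3_q {n s : ℕ} (hs : 4 ≤ s) (hn : s ≤ n) : (1 / 2 : ℝ) ^ wl n ≤ 1 / 65536 := by
  have h1 := q_le hs hn
  have h2 := N3_rr hs
  have h3 : (0 : ℝ) ≤ (1 / 2 : ℝ) ^ wl n := by positivity
  have h4 : ((1 : ℝ) / 2) ^ 16 = 1 / 65536 := by norm_num
  rw [h4] at h1
  nlinarith

/-- the inverse of `1 - 2 ^ (- wl)` -/
theorem N3_c {n s : ℕ} (hs : 4 ≤ s) (hn : s ≤ n) : ∃ c : ℝ, 1 ≤ c ∧ c ≤ 1001 / 1000 ∧
    c * (1 - (1 / 2 : ℝ) ^ wl n) = 1 := by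
  have h1 := N3_q hs hn
  have h3 : (0 : ℝ) ≤ (1 / 2 : ℝ) ^ wl n := by positivity
  have h4 : 0 < 1 - (1 / 2 : ℝ) ^ wl n := by linarith
  refine ⟨1 / (1 - (1 / 2 : ℝ) ^ wl n), ?_, ?_, ?_⟩
  · rw [le_div_iff₀ h4]; linarith
  · rw [div_le_iff₀ h4]; linarith
  · field_simp

theorem N3_pos {n s : ℕ} (hs : 4 ≤ s) (hn : s ≤ n) : 0 ≤ lp n s ∧ 15 / 16 ≤ 1 - lp n s := by
  have h1 := lp_le hs hn
  have h2 := N2b_lp_ge n s
  have h3 := zp_pos n s
  have h4 := N3_rr hs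
  constructor
  · refine le_trans ?_ h2
    exact mul_nonneg (by linarith) h3.le
  · linarith

theorem N3_K (s : ℕ) : 1 ≤ KK s := Nat.succ_pos _

theorem N3_step {n s : ℕ} (hs : 4 ≤ s) (hn : s ≤ n) :
    (1 - lp n s) ^ (KK s - 1) ≤ 16 / 15 * (1 - lp n s) ^ KK s := by
  obtain ⟨h0, h1⟩ := N3_pos hs hn
  have h2 : (1 - lp n s) ^ KK s = (1 - lp n s) ^ (KK s - 1) * (1 - lp n s) := by
    rw [← pow_succ, Nat.sub_add_cancel (N3_K s)]
  have h3 : 0 ≤ (1 - lp n s) ^ (KK s - 1) := pow_nonneg (by linarith) _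
  rw [h2]
  nlinarith

theorem N3_Klp {n s : ℕ} (hs : 4 ≤ s) (hn : s ≤ n) :
    (KK s : ℝ) * lp n s ≤ 155 * rr s := by
  obtain ⟨c, hc1, hc2, hc3⟩ := N3_c hs hn
  have hr := N3_rr hs
  have h1 := K_hi hs hn
  have h0 := K_lo hs hn
  have hq : 0 < 1 - (1 / 2 : ℝ) ^ wl n := by
    have := N3_q hs hn
    linarith
  have hop : op n s = 2 * rr s * zp n s * c := by
    unfold op
    rw [div_eq_iff hq.ne', mul_assoc (2 * (rr s : ℝ) * zp n s) c, hc3, mul_one]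
  have e1 : (KK s : ℝ) * lp n s = KK s * zp n s * (1 + 2 * rr s * c) := by
    unfold lp
    rw [hop]
    ring
  rw [e1]
  have h2 : 2 * (rr s : ℝ) * c ≤ 2 * rr s * (1001 / 1000) :=
    mul_le_mul_of_nonneg_left hc2 (by positivity)
  calc KK s * zp n s * (1 + 2 * rr s * c) ≤ 66 * (1 + 2 * rr s * (1001 / 1000)) :=
        mul_le_mul h1 (by linarith) (by positivity) (by norm_num)
    _ ≤ 155 * rr s := by linarith

theorem ee_nonneg (s : ℕ) : 0 ≤ ee s := by unfold ee; positivity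

theorem ll_nonneg (s : ℕ) : 0 ≤ ll s := by unfold ll; positivity

/-- `ee s * (a * rr s) ≤ a / 24576` -/
theorem N3_ee {s : ℕ} (hs : 4 ≤ s) {a : ℝ} (ha : 0 ≤ a) : ee s * (a * rr s) ≤ a / 24576 := by
  have hr := N3_rr hs
  have h1 := N3_pow hs
  have h2 : (0 : ℝ) < rr s := by linarith
  have e : ee s * (a * rr s) = (1 / 2 : ℝ) ^ (rr s + 10) * (a / rr s) := by
    unfold ee
    field_simp
  rw [e]
  calc (1 / 2 : ℝ) ^ (rr s + 10) * (a / rr s) ≤ 1 / 8192 * (a / 3) :=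
        mul_le_mul h1 (div_le_div_of_nonneg_left ha (by norm_num) hr) (by positivity)
          (by norm_num)
    _ = a / 24576 := by ring

theorem ee_le {s : ℕ} (hs : 4 ≤ s) : ee s ≤ 1 / 16 := by
  have hr := N3_rr hs
  have h1 := N3_ee hs (a := 1) (by norm_num)
  have h2 := ee_nonneg s
  nlinarith

theorem quiet_num {n s : ℕ} (hs : 4 ≤ s) (hn : s ≤ n) :
    (BB s : ℝ) * ((1 - lp n s) ^ KK s + KK s * lp n s * (1 - lp n s) ^ (KK s - 1)) ≤ 1 / 64 := by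
  obtain ⟨h0, h1⟩ := N3_pos hs hn
  have hr := N3_rr hs
  have hM := bad_hi hs hn
  have hp : 0 ≤ (1 - lp n s) ^ KK s := pow_nonneg (by linarith) _
  have hp' : 0 ≤ (1 - lp n s) ^ (KK s - 1) := pow_nonneg (by linarith) _
  have h2 : KK s * lp n s * (1 - lp n s) ^ (KK s - 1) ≤
      155 * rr s * (16 / 15 * (1 - lp n s) ^ KK s) :=
    mul_le_mul (N3_Klp hs hn) (N3_step hs hn) hp' (by positivity)
  have h3 : (1 - lp n s) ^ KK s + KK s * lp n s * (1 - lp n s) ^ (KK s - 1) ≤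
      166 * rr s * (1 - lp n s) ^ KK s := by
    nlinarith
  have h4 := N3_ee hs (a := 166) (by norm_num)
  calc (BB s : ℝ) * ((1 - lp n s) ^ KK s + KK s * lp n s * (1 - lp n s) ^ (KK s - 1)) ≤
        BB s * (166 * rr s * (1 - lp n s) ^ KK s) :=
        mul_le_mul_of_nonneg_left h3 (Nat.cast_nonneg _)
    _ = (BB s * (1 - lp n s) ^ KK s) * (166 * rr s) := by ring
    _ ≤ ee s * (166 * rr s) := mul_le_mul_of_nonneg_right hM (by positivity)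
    _ ≤ 166 / 24576 := h4
    _ ≤ 1 / 64 := by norm_num

theorem lam_N {n s : ℕ} (hs : 4 ≤ s) (hn : s ≤ n) :
    256 ≤ KK s * dN n s / (1 - lp n s) := by
  obtain ⟨h0, h1⟩ := N3_pos hs hn
  obtain ⟨c, hc1, hc2, hc3⟩ := N3_c hs hn
  have hr := N3_rr hs
  have hK := K_lo hs hn
  have hq : 0 < 1 - (1 / 2 : ℝ) ^ wl n := by
    have := N3_q hs hn
    linarith
  have hd : dN n s = (rr s : ℝ) ^ 2 * zp n s * c ^ 2 := by
    unfold dN
    rw [div_eq_iff (pow_ne_zero 2 hq.ne')]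
    calc (rr s : ℝ) ^ 2 * zp n s = (rr s : ℝ) ^ 2 * zp n s * (c * (1 - (1 / 2 : ℝ) ^ wl n)) ^ 2 := by
          rw [hc3]; ring
      _ = _ := by ring
  rw [le_div_iff₀ (by linarith), hd]
  have h2 : (1 : ℝ) ≤ c ^ 2 := one_le_pow₀ hc1
  have h3 : (9 : ℝ) ≤ (rr s : ℝ) ^ 2 := by nlinarith
  have h4 : (9 : ℝ) ≤ (rr s : ℝ) ^ 2 * c ^ 2 := by nlinarith
  calc 256 * (1 - lp n s) ≤ 64 * 9 := by linarith
    _ ≤ KK s * zp n s * ((rr s : ℝ) ^ 2 * c ^ 2) := mul_le_mul hK h4 (by norm_num) (by linarith)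
    _ = _ := by ring

theorem lam_U {n s : ℕ} (hs : 4 ≤ s) (hn : s ≤ n) :
    256 ≤ KK s * dU n s / (1 - lp n s) := by
  obtain ⟨h0, h1⟩ := N3_pos hs hn
  obtain ⟨c, hc1, hc2, hc3⟩ := N3_c hs hn
  have hr := N3_rr hs
  have hK := K_lo hs hn
  have hq1 := N3_q hs hn
  have hq0 : (0 : ℝ) ≤ (1 / 2 : ℝ) ^ wl n := by positivity
  have hq : 0 < 1 - (1 / 2 : ℝ) ^ wl n := by linarith
  have hd : dU n s = rr s * (rr s - (1 / 2 : ℝ) ^ wl n) / 2 * zp n s * c ^ 2 := by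
    unfold dU
    rw [div_eq_iff (pow_ne_zero 2 hq.ne')]
    calc rr s * (rr s - (1 / 2 : ℝ) ^ wl n) / 2 * zp n s =
        rr s * (rr s - (1 / 2 : ℝ) ^ wl n) / 2 * zp n s * (c * (1 - (1 / 2 : ℝ) ^ wl n)) ^ 2 := by
          rw [hc3]; ring
      _ = _ := by ring
  rw [le_div_iff₀ (by linarith), hd]
  have h2 : (1 : ℝ) ≤ c ^ 2 := one_le_pow₀ hc1
  have h3 : (4 : ℝ) ≤ rr s * (rr s - (1 / 2 : ℝ) ^ wl n) / 2 := by nlinarith
  have h4 : (4 : ℝ) ≤ rr s * (rr s - (1 / 2 : ℝ) ^ wl n) / 2 * c ^ 2 := by nlinarith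
  calc 256 * (1 - lp n s) ≤ 64 * 4 := by linarith
    _ ≤ KK s * zp n s * (rr s * (rr s - (1 / 2 : ℝ) ^ wl n) / 2 * c ^ 2) :=
        mul_le_mul hK h4 (by norm_num) (by linarith)
    _ = _ := by ring

theorem ll_num {n s : ℕ} (hs : 4 ≤ s) (hn : s ≤ n) :
    ll s ≤ op n s / 4 * (KK s / (1 - lp n s)) * (1 / 2 * (BB s * (1 - lp n s) ^ KK s)) := by
  obtain ⟨h0, h1⟩ := N3_pos hs hn
  obtain ⟨c, hc1, hc2, hc3⟩ := N3_c hs hn
  have hr := N3_rr hs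
  have hK := K_lo hs hn
  have hM := bad_lo hs hn
  have hq : 0 < 1 - (1 / 2 : ℝ) ^ wl n := by
    have := N3_q hs hn
    linarith
  have hz := zp_pos n s
  have hop : op n s = 2 * rr s * zp n s * c := by
    unfold op
    rw [div_eq_iff hq.ne', mul_assoc (2 * (rr s : ℝ) * zp n s) c, hc3, mul_one]
  have hlp1 : 0 < 1 - lp n s := by linarith
  have h2 : 32 * (rr s : ℝ) ≤ op n s / 4 * (KK s / (1 - lp n s)) := by
    have e : op n s / 4 * (KK s / (1 - lp n s)) =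
        (rr s * c / 2) * (KK s * zp n s) / (1 - lp n s) := by
      rw [hop]; ring
    rw [e, le_div_iff₀ hlp1]
    have h3 : (rr s : ℝ) / 2 ≤ rr s * c / 2 := by nlinarith
    calc 32 * (rr s : ℝ) * (1 - lp n s) ≤ rr s / 2 * 64 := by nlinarith
      _ ≤ (rr s * c / 2) * (KK s * zp n s) := mul_le_mul h3 hK (by norm_num) (by positivity)
  have h5 : (0 : ℝ) < rr s := by linarith
  calc ll s = 32 * (rr s : ℝ) * (1 / 2 * ((1 / 2 : ℝ) ^ (rr s + 12) / (rr s : ℝ) ^ 2)) := by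
        unfold ll
        have e : (1 / 2 : ℝ) ^ (rr s + 12) = (1 / 2) ^ (rr s + 8) * (1 / 16) := by
          rw [show rr s + 12 = (rr s + 8) + 4 by ring, pow_add]
          norm_num
        rw [e]
        field_simp
        norm_num
    _ ≤ _ := mul_le_mul h2 (mul_le_mul_of_nonneg_left hM (by norm_num)) (by positivity)
        (le_trans (by linarith) h2)

theorem two_num {n s : ℕ} (hs : 4 ≤ s) (hn : s ≤ n) :
    (BB s : ℝ) * KK s * (zp n s * (1 - lp n s) ^ (KK s - 1)) ≤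
      80 * (BB s * (1 - lp n s) ^ KK s) := by
  obtain ⟨h0, h1⟩ := N3_pos hs hn
  have hK := K_hi hs hn
  have hz := zp_pos n s
  have hp : 0 ≤ (1 - lp n s) ^ KK s := pow_nonneg (by linarith) _
  have hp' : 0 ≤ (1 - lp n s) ^ (KK s - 1) := pow_nonneg (by linarith) _
  have h2 : KK s * zp n s * (1 - lp n s) ^ (KK s - 1) ≤
      66 * (16 / 15 * (1 - lp n s) ^ KK s) :=
    mul_le_mul hK (N3_step hs hn) hp' (by norm_num)
  have h3 : KK s * zp n s * (1 - lp n s) ^ (KK s - 1) ≤ 80 * (1 - lp n s) ^ KK s := by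
    linarith
  calc (BB s : ℝ) * KK s * (zp n s * (1 - lp n s) ^ (KK s - 1)) =
        BB s * (KK s * zp n s * (1 - lp n s) ^ (KK s - 1)) := by ring
    _ ≤ BB s * (80 * (1 - lp n s) ^ KK s) := mul_le_mul_of_nonneg_left h3 (Nat.cast_nonneg _)
    _ = _ := by ring

end Pool.Agent.H673R3.UC
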