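import Pool.Agent.H673R3.UC.N5
import Pool.Agent.H583R2.NC.Par

/-! Task N6: the parameters are computable. -/

namespace Pool.Agent.H673R3.UC

open MeasureTheory Pool.Agent.NPC Pool.Agent.H628R3.RO

theorem u_rr {α : Type} [TEnc α] {s : α → ℕ} (hs : Poly s) : UPoly (fun a => rr (s a)) :=
  (UPoly.length (Poly.natBits hs)).congr fun a => by
    simp only [rr, Nat.size_eq_bits_len]

theorem N6_mm {α : Type} [TEnc α] {s : α → ℕ} (hs : UPoly s) : UPoly (fun a => mm (s a)) :=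
  ((UPoly.const 2).mul (u_rr (u_rr hs.toPoly).toPoly)).add (UPoly.const 14)

theorem N6_pmm {α : Type} [TEnc α] {s : α → ℕ} (hs : UPoly s) :
    UPoly (fun a => 2 ^ mm (s a)) := by
  obtain ⟨P, hP⟩ := size_poly
  refine u_pow (N6_mm hs) (hs.eval P) fun a => ?_
  have := hP (s a)
  omega

theorem N6_ex {α : Type} [TEnc α] {s : α → ℕ} (hs : UPoly s) :
    UPoly (fun a => 2 * rr (s a) * 2 ^ mm (s a)) :=
  ((UPoly.const 2).mul (u_rr hs.toPoly)).mul (N6_pmm hs)

theorem N6_vv {α : Type} [TEnc α] {s : α → ℕ} (hs : UPoly s) : Poly (fun a => vv (s a)) :=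
  H583R2.NC.p_npow (N6_pmm hs).toPoly (N6_ex hs)

theorem N6_uu {α : Type} [TEnc α] {s : α → ℕ} (hs : UPoly s) : Poly (fun a => uu (s a)) :=
  H583R2.NC.p_npow (Poly.sub (N6_pmm hs).toPoly (NPC.Poly.const 1)) (N6_ex hs)

theorem u_KK {α : Type} [TEnc α] {s : α → ℕ} (hs : UPoly s) : UPoly (fun a => KK (s a)) := by
  obtain ⟨P, hP⟩ := size_poly
  refine UPoly.of_le ?_ (hs.eval P) fun a => ?_
  · exact Poly.add (Poly.div (Poly.mul (NPC.Poly.const 64) (N6_vv hs)) (N6_uu hs))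
      (NPC.Poly.const 1)
  · have h1 := hP (s a)
    have h2 := Nat.zero_le (2 ^ mm (s a))
    omega

theorem u_BB {α : Type} [TEnc α] {s : α → ℕ} (hs : UPoly s) : UPoly (fun a => BB (s a)) := by
  obtain ⟨P, hP⟩ := size_poly
  refine UPoly.of_le ?_ (hs.eval P) fun a => ?_
  · have h1 : UPoly (fun a => rr (s a)) := u_rr hs.toPoly
    exact Poly.add (Poly.div (H583R2.NC.p_npow (N6_vv hs) (u_KK hs))
      (Poly.mul (Poly.mul (H583R2.NC.p_npow (NPC.Poly.const 2) (h1.add (UPoly.const 11)))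
        (H583R2.NC.p_npow h1.toPoly (UPoly.const 2)))
        (H583R2.NC.p_npow (Poly.sub (N6_vv hs) (Poly.mul (Poly.add
          (Poly.mul (NPC.Poly.const 2) h1.toPoly) (NPC.Poly.const 1)) (N6_uu hs)))
          (u_KK hs)))) (NPC.Poly.const 1)
  · have h1 := hP (s a)
    have h2 := Nat.zero_le (2 ^ mm (s a))
    omega

end Pool.Agent.H673R3.UC
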