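import Pool.Agent.H673R3.UC.Defs
import Pool.Agent.H583R2.NC.Prb

/-! Task P1: independence of the pairs. -/

namespace Pool.Agent.H673R3.UC

open MeasureTheory Pool.Agent.NPC Pool.Agent.H628R3.RO

variable {Z O D : ℕ → ℕ → Set Oracle} {sp : ℕ → ℕ → Set (List Bool)} {a0 a1 d : ℝ} {B K : ℕ}

/-- events of different pairs are independent, also of events elsewhere -/
theorem prob_fam {K₀ : Set (List Bool)} (hK : K₀.Finite) {η : Set Oracle} (hη : Loc K₀ η)
    (I : Finset ℕ) (k : ℕ → Set (List Bool)) (S : ℕ → Set Oracle) (hf : ∀ i ∈ I, (k i).Finite)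
    (hl : ∀ i ∈ I, Loc (k i) (S i)) (hd : ∀ i ∈ I, Disjoint K₀ (k i))
    (hdd : ∀ i ∈ I, ∀ j ∈ I, i ≠ j → Disjoint (k i) (k j)) :
    prob (η ∩ {A | ∀ i ∈ I, A ∈ S i}) = prob η * ∏ i ∈ I, prob (S i) := by
  classical
  induction I using Finset.induction_on with
  | empty => simp
  | insert i I hi ih =>
    have h1 : η ∩ {A | ∀ j ∈ insert i I, A ∈ S j} = (η ∩ {A | ∀ j ∈ I, A ∈ S j}) ∩ S i := by
      ext A
      simp only [Set.mem_inter_iff, Set.mem_ofPred_eq, Finset.mem_insert, forall_eq_or_imp]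
      tauto
    have hfin : (K₀ ∪ ⋃ j ∈ I, k j).Finite := by
      apply hK.union
      exact Set.Finite.biUnion (Finset.finite_toSet _)
        fun j hj => hf j (Finset.mem_insert_of_mem hj)
    have hloc : Loc (K₀ ∪ ⋃ j ∈ I, k j) (η ∩ {A | ∀ j ∈ I, A ∈ S j}) := by
      intro A A' h
      simp only [Set.mem_inter_iff, Set.mem_ofPred_eq]
      refine and_congr (hη A A' fun x hx => h x (Or.inl hx)) ?_
      refine forall₂_congr fun j hj => hl j (Finset.mem_insert_of_mem hj) A A' fun x hx => h x ?_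
      right
      simp only [Set.mem_iUnion]
      exact ⟨j, hj, hx⟩
    have hdis : Disjoint (K₀ ∪ ⋃ j ∈ I, k j) (k i) := by
      rw [Set.disjoint_left]
      rintro x (hx | hx) hx'
      · exact Set.disjoint_left.1 (hd i (Finset.mem_insert_self _ _)) hx hx'
      · simp only [Set.mem_iUnion] at hx
        obtain ⟨j, hj, hx⟩ := hx
        have hne : j ≠ i := fun h => hi (h ▸ hj)
        exact Set.disjoint_left.1
          (hdd j (Finset.mem_insert_of_mem hj) i (Finset.mem_insert_self _ _) hne) hx hx'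
    rw [h1, prob_inter_of_disjoint hfin (hf i (Finset.mem_insert_self _ _)) hdis hloc
      (hl i (Finset.mem_insert_self _ _)),
      ih (fun j hj => hf j (Finset.mem_insert_of_mem hj))
        (fun j hj => hl j (Finset.mem_insert_of_mem hj))
        (fun j hj => hd j (Finset.mem_insert_of_mem hj))
        (fun j hj j' hj' => hdd j (Finset.mem_insert_of_mem hj) j' (Finset.mem_insert_of_mem hj')),
      Finset.prod_insert hi]
    ring

private theorem P1_locLow (h : PSys Z O D sp a0 a1 d B K) {b i : ℕ} (hb : b < B) (hi : i < K) :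
    Loc (sp b i) (Low Z O b i) := by
  intro A A' hA
  exact or_congr (h.locZ b hb i hi A A' hA) (h.locO b hb i hi A A' hA)

theorem prob_low (h : PSys Z O D sp a0 a1 d B K) {b i : ℕ} (hb : b < B) (hi : i < K) :
    prob (Low Z O b i) = a0 + a1 := by
  have hm : MeasurableSet (O b i) :=
    measurableSet_of_loc (h.fin b hb i hi) (h.locO b hb i hi)
  unfold Low prob
  rw [measureReal_union (h.dZO b hb i hi) hm]
  have h0 := h.prZ b hb i hi
  have h1 := h.prO b hb i hi
  unfold prob at h0 h1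
  rw [h0, h1]

private theorem P1_high (h : PSys Z O D sp a0 a1 d B K) {b i : ℕ} (hb : b < B) (hi : i < K) :
    prob (Low Z O b i)ᶜ = 1 - (a0 + a1) := by
  have h5 := M2.prob_inter_add_compl Set.univ
    (measurableSet_of_loc (h.fin b hb i hi) (P1_locLow h hb hi))
  rw [Set.univ_inter, Set.univ_inter, prob_univ', prob_low h hb hi] at h5
  linarith

private theorem P1_prod (h : PSys Z O D sp a0 a1 d B K) {b : ℕ} (hb : b < B) (I : Finset ℕ)
    (hI : ∀ i ∈ I, i < K) (S : ℕ → Set Oracle) (hS : ∀ i ∈ I, Loc (sp b i) (S i)) :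
    prob {A | ∀ i ∈ I, A ∈ S i} = ∏ i ∈ I, prob (S i) := by
  have h1 := prob_fam (K₀ := ∅) Set.finite_empty (η := Set.univ) (fun A A' _ => by simp) I
    (sp b) S (fun i hi => h.fin b hb i (hI i hi)) hS (fun i _ => Set.empty_disjoint _)
    (fun i hi j hj hij => h.disj b hb i (hI i hi) b hb j (hI j hj) (Or.inr hij))
  rw [Set.univ_inter, prob_univ', one_mul] at h1
  exact h1

theorem prob_AllH (h : PSys Z O D sp a0 a1 d B K) {b : ℕ} (hb : b < B) :
    prob (AllH Z O K b) = (1 - (a0 + a1)) ^ K := by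
  have h1 : AllH Z O K b = {A | ∀ i ∈ Finset.range K, A ∈ (Low Z O b i)ᶜ} := by
    ext A
    simp [AllH]
  rw [h1, P1_prod h hb (Finset.range K) (fun i hi => Finset.mem_range.1 hi)
    (fun i => (Low Z O b i)ᶜ)
    (fun i hi => M2.Loc.compl (P1_locLow h hb (Finset.mem_range.1 hi)))]
  rw [Finset.prod_congr rfl (fun i hi => P1_high h hb (Finset.mem_range.1 hi)),
    Finset.prod_const, Finset.card_range]

theorem prob_OneL_le (h : PSys Z O D sp a0 a1 d B K) {b : ℕ} (hb : b < B) :
    prob (OneL Z O K b) ≤ K * (a0 + a1) * (1 - (a0 + a1)) ^ (K - 1) := by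
  classical
  have h1 : OneL Z O K b ⊆ ⋃ i₀ ∈ Finset.range K, {A | ∀ i ∈ Finset.range K,
      A ∈ (if i = i₀ then Low Z O b i else (Low Z O b i)ᶜ)} := by
    rintro A ⟨i₀, hi₀, h2, h3⟩
    simp only [Set.mem_iUnion]
    refine ⟨i₀, Finset.mem_range.2 hi₀, ?_⟩
    intro i hi
    by_cases hii : i = i₀
    · subst hii
      simpa using h2
    · rw [if_neg hii]
      exact h3 i (Finset.mem_range.1 hi) hii
  refine (M2.prob_mono h1).trans ?_
  refine (measureReal_biUnion_finset_le _ _).trans ?_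
  rw [mul_assoc]
  refine Pool.Agent.H583R2.NC.PRB.sum_le ?_
  intro i₀ hi₀
  have h4 := P1_prod h hb (Finset.range K) (fun i hi => Finset.mem_range.1 hi)
    (fun i => if i = i₀ then Low Z O b i else (Low Z O b i)ᶜ)
    (fun i hi => by
      by_cases hii : i = i₀
      · simp only [hii, if_true]
        exact P1_locLow h hb hi₀
      · simp only [hii, if_false]
        exact M2.Loc.compl (P1_locLow h hb (Finset.mem_range.1 hi)))
  have h5 : ∏ i ∈ Finset.range K, prob (if i = i₀ then Low Z O b i else (Low Z O b i)ᶜ) =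
      (a0 + a1) * (1 - (a0 + a1)) ^ (K - 1) := by
    rw [← Finset.mul_prod_erase (Finset.range K) _ (Finset.mem_range.2 hi₀)]
    rw [if_pos rfl, prob_low h hb hi₀]
    congr 1
    have h6 : ∀ i ∈ (Finset.range K).erase i₀,
        prob (if i = i₀ then Low Z O b i else (Low Z O b i)ᶜ) = 1 - (a0 + a1) := by
      intro i hi
      rw [Finset.mem_erase, Finset.mem_range] at hi
      rw [if_neg hi.1]
      exact P1_high h hb hi.2
    rw [Finset.prod_congr rfl h6, Finset.prod_const,
      Finset.card_erase_of_mem (Finset.mem_range.2 hi₀), Finset.card_range]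
  rw [h5] at h4
  exact h4.le

end Pool.Agent.H673R3.UC
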