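import Pool.Agent.H673R3.UC.P1

/-! Task P1b: the bad events. -/

namespace Pool.Agent.H673R3.UC

open MeasureTheory Pool.Agent.NPC Pool.Agent.H628R3.RO

variable {Z O D : ℕ → ℕ → Set Oracle} {sp : ℕ → ℕ → Set (List Bool)} {a0 a1 d : ℝ} {B K : ℕ}

theorem P1b_locLow (h : PSys Z O D sp a0 a1 d B K) {b i : ℕ} (hb : b < B) (hi : i < K) :
    Loc (sp b i) (Low Z O b i) :=
  fun A A' hA => or_congr (h.locZ b hb i hi A A' hA) (h.locO b hb i hi A A' hA)

theorem P1b_probLowc (h : PSys Z O D sp a0 a1 d B K) {b i : ℕ} (hb : b < B) (hi : i < K) :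
    prob (Low Z O b i)ᶜ = 1 - (a0 + a1) := by
  have h5 := M2.prob_inter_add_compl Set.univ
    (measurableSet_of_loc (h.fin b hb i hi) (P1b_locLow h hb hi))
  rw [Set.univ_inter, Set.univ_inter, prob_univ', prob_low h hb hi] at h5
  linarith

theorem P1b_sum_le {N : ℕ} {f : ℕ → ℝ} {c : ℝ} (h : ∀ i < N, f i ≤ c) :
    ∑ i ∈ Finset.range N, f i ≤ N * c := by
  have := Finset.sum_le_card_nsmul (Finset.range N) f c (fun i hi => h i (Finset.mem_range.1 hi))
  rwa [Finset.card_range, nsmul_eq_mul] at this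

/-- the strings of a block -/
def P1b_spb (sp : ℕ → ℕ → Set (List Bool)) (K b : ℕ) : Set (List Bool) :=
  ⋃ i ∈ Finset.range K, sp b i

theorem P1b_finite_spb (h : PSys Z O D sp a0 a1 d B K) {b : ℕ} (hb : b < B) :
    (P1b_spb sp K b).Finite :=
  Set.Finite.biUnion (Finset.finite_toSet _) fun i hi =>
    h.fin b hb i (Finset.mem_range.1 (Finset.mem_coe.1 hi))

theorem P1b_loc_AllH (h : PSys Z O D sp a0 a1 d B K) {b : ℕ} (hb : b < B) :
    Loc (P1b_spb sp K b) (AllH Z O K b) := by
  intro A A' hA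
  unfold AllH
  simp only [Set.mem_ofPred_eq]
  refine forall₂_congr fun i hi => not_congr ?_
  refine P1b_locLow h hb hi A A' fun x hx => hA x ?_
  unfold P1b_spb
  simp only [Set.mem_iUnion]
  exact ⟨i, Finset.mem_range.2 hi, hx⟩

theorem prob_TwoG_le (h : PSys Z O D sp a0 a1 d B K) :
    prob (TwoG Z O B K) ≤ B * K * (a0 * (1 - (a0 + a1)) ^ (K - 1)) := by
  have h1 : TwoG Z O B K ⊆ ⋃ b ∈ Finset.range B, ⋃ j ∈ Finset.range K,
      {A | ∀ i ∈ Finset.range K, A ∈ (if i = j then Z b i else (Low Z O b i)ᶜ)} := by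
    rintro A ⟨b, hb, j, hj, h2, h3⟩
    simp only [Set.mem_iUnion]
    refine ⟨b, Finset.mem_range.2 hb, j, Finset.mem_range.2 hj, fun i hi => ?_⟩
    by_cases hij : i = j
    · rw [if_pos hij, hij]
      exact h3
    · rw [if_neg hij]
      exact h2 i (Finset.mem_range.1 hi) hij
  refine (M2.prob_mono h1).trans ?_
  refine (measureReal_biUnion_finset_le _ _).trans ?_
  rw [mul_assoc]
  apply P1b_sum_le
  intro b hb
  refine (measureReal_biUnion_finset_le _ _).trans ?_
  apply P1b_sum_le
  intro j hj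
  have h4 := prob_fam (K₀ := ∅) Set.finite_empty (η := Set.univ) (fun A A' _ => by simp)
    (Finset.range K) (fun i => sp b i) (fun i => if i = j then Z b i else (Low Z O b i)ᶜ)
    (fun i hi => h.fin b hb i (Finset.mem_range.1 hi))
    (fun i hi => by
      have hi' := Finset.mem_range.1 hi
      by_cases hij : i = j
      · simp only [hij, if_true]
        exact h.locZ b hb j hj
      · simp only [hij, if_false]
        exact M2.Loc.compl (P1b_locLow h hb hi'))
    (fun i _ => Set.empty_disjoint _)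
    (fun i hi j' hj' hne => h.disj b hb i (Finset.mem_range.1 hi) b hb j'
      (Finset.mem_range.1 hj') (Or.inr hne))
  rw [Set.univ_inter, prob_univ', one_mul] at h4
  refine (le_of_eq h4).trans (le_of_eq ?_)
  rw [← Finset.mul_prod_erase _ _ (Finset.mem_range.2 hj)]
  have h5 : ∏ i ∈ (Finset.range K).erase j, prob (if i = j then Z b i else (Low Z O b i)ᶜ) =
      ∏ i ∈ (Finset.range K).erase j, (1 - (a0 + a1)) := by
    refine Finset.prod_congr rfl fun i hi => ?_
    rw [Finset.mem_erase, Finset.mem_range] at hi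
    rw [if_neg hi.1]
    exact P1b_probLowc h hb hi.2
  rw [h5, Finset.prod_const, Finset.card_erase_of_mem (Finset.mem_range.2 hj), Finset.card_range,
    if_pos rfl, h.prZ b hb j hj]

theorem prob_BadG_le (h : PSys Z O D sp a0 a1 d B K) :
    prob (BadG Z O B K) ≤ B * (1 - (a0 + a1)) ^ K := by
  have h1 : BadG Z O B K ⊆ ⋃ b ∈ Finset.range B, AllH Z O K b := by
    rintro A ⟨b, hb, h⟩
    simp only [Set.mem_iUnion]
    exact ⟨b, Finset.mem_range.2 hb, h⟩
  refine (M2.prob_mono h1).trans ?_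
  refine (measureReal_biUnion_finset_le _ _).trans ?_
  apply P1b_sum_le
  intro b hb
  exact (prob_AllH h hb).le

theorem P1b_indep (h : PSys Z O D sp a0 a1 d B K) : ∀ B' ≤ B,
    prob {A | ∀ b < B', A ∉ AllH Z O K b} = (1 - (1 - (a0 + a1)) ^ K) ^ B' := by
  intro B' hB'
  induction B' with
  | zero =>
    have : {A : Oracle | ∀ b < 0, A ∉ AllH Z O K b} = Set.univ := by ext A; simp
    rw [this, prob_univ', pow_zero]
  | succ B' ih =>
    have ih' := ih (by omega)
    have h1 : {A : Oracle | ∀ b < B' + 1, A ∉ AllH Z O K b} =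
        {A | ∀ b < B', A ∉ AllH Z O K b} ∩ (AllH Z O K B')ᶜ := by
      ext A
      simp only [Set.mem_ofPred_eq, Set.mem_inter_iff, Set.mem_compl_iff]
      constructor
      · intro h
        exact ⟨fun b hb => h b (by omega), h B' (by omega)⟩
      · rintro ⟨h, h'⟩ b hb
        rcases Nat.lt_or_ge b B' with h2 | h2
        · exact h b h2
        · have : b = B' := by omega
          rw [this]
          exact h'
    have h2 : Loc (⋃ b ∈ Finset.range B', P1b_spb sp K b)
        {A : Oracle | ∀ b < B', A ∉ AllH Z O K b} := by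
      intro A A' hA
      simp only [Set.mem_ofPred_eq]
      refine forall₂_congr fun b hb => not_congr (P1b_loc_AllH h (by omega) A A'
        fun x hx => hA x ?_)
      simp only [Set.mem_iUnion]
      exact ⟨b, Finset.mem_range.2 hb, hx⟩
    have h3 : Disjoint (⋃ b ∈ Finset.range B', P1b_spb sp K b) (P1b_spb sp K B') := by
      rw [Set.disjoint_left]
      intro x hx hx'
      simp only [Set.mem_iUnion] at hx
      obtain ⟨b, hb, hx⟩ := hx
      rw [Finset.mem_range] at hb
      unfold P1b_spb at hx hx'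
      simp only [Set.mem_iUnion] at hx hx'
      obtain ⟨i, hi, hx⟩ := hx
      obtain ⟨i', hi', hx'⟩ := hx'
      exact Set.disjoint_left.1 (h.disj b (by omega) i (Finset.mem_range.1 hi) B' (by omega) i'
        (Finset.mem_range.1 hi') (Or.inl (by omega))) hx hx'
    have h4 : (⋃ b ∈ Finset.range B', P1b_spb sp K b).Finite :=
      Set.Finite.biUnion (Finset.finite_toSet _) fun b' hb' => P1b_finite_spb h (by
        have := Finset.mem_range.1 (Finset.mem_coe.1 hb')
        omega)
    have hB'' : B' < B := by omega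
    rw [h1, prob_inter_of_disjoint h4 (P1b_finite_spb h hB'') h3 h2
      (M2.Loc.compl (P1b_loc_AllH h hB'')), ih']
    have h5 := M2.prob_inter_add_compl Set.univ
      (measurableSet_of_loc (P1b_finite_spb h hB'') (P1b_loc_AllH h hB''))
    rw [Set.univ_inter, Set.univ_inter, prob_univ', prob_AllH h hB''] at h5
    rw [pow_succ]
    congr 1
    linarith

theorem prob_BadG_ge (h : PSys Z O D sp a0 a1 d B K)
    (h1 : (B : ℝ) * (1 - (a0 + a1)) ^ K ≤ 1) :
    1 / 2 * (B * (1 - (a0 + a1)) ^ K) ≤ prob (BadG Z O B K) := by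
  have hs : Set.univ ⊆ BadG Z O B K ∪ {A : Oracle | ∀ b < B, A ∉ AllH Z O K b} := by
    intro A _
    by_cases hA : A ∈ BadG Z O B K
    · exact Or.inl hA
    · refine Or.inr ?_
      intro b hb h'
      exact hA ⟨b, hb, h'⟩
  have h2 := (M2.prob_mono hs).trans (M2.prob_union_le _ _)
  rw [prob_univ', P1b_indep h B le_rfl] at h2
  have hal := h.al
  have h00 := h.nn0
  have h01 := h.nn1
  set a : ℝ := (1 - (a0 + a1)) ^ K with ha
  have ha0 : 0 ≤ a := pow_nonneg (by linarith) _
  have ha1 : a ≤ 1 := pow_le_one₀ (by linarith) (by linarith)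
  have h3 : 1 + B * a ≤ (1 + a) ^ B := one_add_mul_le_pow (by linarith) _
  have h4 : (1 - a) ^ B * (1 + a) ^ B ≤ 1 := by
    rw [← mul_pow]
    apply pow_le_one₀
    · nlinarith
    · nlinarith
  have h5 : 0 ≤ (1 - a) ^ B := pow_nonneg (by linarith) _
  have h6 : (1 - a) ^ B * (1 + B * a) ≤ 1 :=
    (mul_le_mul_of_nonneg_left h3 h5).trans h4
  have h7 : (0 : ℝ) ≤ B * a := by positivity
  set x : ℝ := B * a with hx
  set y : ℝ := (1 - a) ^ B with hy
  have h8 : y ≤ 1 - x / 2 := by
    by_contra hc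
    push Not at hc
    nlinarith [mul_nonneg h7 (sub_nonneg.2 h1)]
  linarith

end Pool.Agent.H673R3.UC
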