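import Pool.Agent.H673R3.UC.P1

/-! Task P2: quiet blocks. -/

namespace Pool.Agent.H673R3.UC

open MeasureTheory Pool.Agent.NPC Pool.Agent.H628R3.RO

variable {Z O D : ℕ → ℕ → Set Oracle} {sp : ℕ → ℕ → Set (List Bool)} {a0 a1 d : ℝ} {B K : ℕ}

theorem P2_locLow (h : PSys Z O D sp a0 a1 d B K) {b i : ℕ} (hb : b < B) (hi : i < K) :
    Loc (sp b i) (Low Z O b i) :=
  fun A A' hA => or_congr (h.locZ b hb i hi A A' hA) (h.locO b hb i hi A A' hA)

theorem P2_probLowc (h : PSys Z O D sp a0 a1 d B K) {b i : ℕ} (hb : b < B) (hi : i < K) :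
    prob (Low Z O b i)ᶜ = 1 - (a0 + a1) := by
  have h5 := M2.prob_inter_add_compl Set.univ
    (measurableSet_of_loc (h.fin b hb i hi) (P2_locLow h hb hi))
  rw [Set.univ_inter, Set.univ_inter, prob_univ', prob_low h hb hi] at h5
  linarith

/-- the strings of the blocks other than `b` -/
def P2_spo (sp : ℕ → ℕ → Set (List Bool)) (B K b : ℕ) : Set (List Bool) :=
  ⋃ b' ∈ (Finset.range B).erase b, ⋃ i ∈ Finset.range K, sp b' i

theorem P2_mem_spo {b b' i : ℕ} (hb' : b' < B) (hne : b' ≠ b) (hi : i < K) {x : List Bool}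
    (hx : x ∈ sp b' i) : x ∈ P2_spo sp B K b := by
  unfold P2_spo
  simp only [Set.mem_iUnion]
  exact ⟨b', Finset.mem_erase.2 ⟨hne, Finset.mem_range.2 hb'⟩, i, Finset.mem_range.2 hi, hx⟩

theorem P2_finite_spo (h : PSys Z O D sp a0 a1 d B K) (b : ℕ) : (P2_spo sp B K b).Finite := by
  refine Set.Finite.biUnion (Finset.finite_toSet _) fun b' hb' => ?_
  refine Set.Finite.biUnion (Finset.finite_toSet _) fun i hi => ?_
  have h1 := Finset.mem_erase.1 (Finset.mem_coe.1 hb')
  exact h.fin b' (Finset.mem_range.1 h1.2) i (Finset.mem_range.1 (Finset.mem_coe.1 hi))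

theorem P2_loc_Qui (h : PSys Z O D sp a0 a1 d B K) (b : ℕ) :
    Loc (P2_spo sp B K b) (QuiG Z O B K b) := by
  intro A A' hA
  unfold QuiG
  simp only [Set.mem_ofPred_eq]
  refine forall₂_congr fun b' hb' => forall_congr' fun hne => ?_
  have hl : ∀ i < K, (A ∈ Low Z O b' i ↔ A' ∈ Low Z O b' i) := fun i hi =>
    P2_locLow h hb' hi A A' fun x hx => hA x (P2_mem_spo hb' hne hi hx)
  refine and_congr (not_congr ?_) (not_congr ?_)
  · unfold AllH
    simp only [Set.mem_ofPred_eq]
    exact forall₂_congr fun i hi => not_congr (hl i hi)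
  · unfold OneL
    simp only [Set.mem_ofPred_eq]
    exact exists_congr fun i₀ => and_congr_right fun hi₀ => and_congr (hl i₀ hi₀)
      (forall₂_congr fun i hi => forall_congr' fun _ => not_congr (hl i hi))

/-- events of some pairs of a block, a quiet rest, and an event elsewhere are independent -/
theorem P2_gen (h : PSys Z O D sp a0 a1 d B K) {K₀ : Set (List Bool)} (hK : K₀.Finite)
    (hd : ∀ b < B, ∀ i < K, Disjoint K₀ (sp b i)) {η : Set Oracle} (hη : Loc K₀ η)
    {b : ℕ} (hb : b < B) (I : Finset ℕ) (hI : ∀ i ∈ I, i < K) (S : ℕ → Set Oracle)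
    (hS : ∀ i ∈ I, Loc (sp b i) (S i)) :
    prob (η ∩ (QuiG Z O B K b ∩ {A | ∀ i ∈ I, A ∈ S i})) =
      prob η * prob (QuiG Z O B K b) * ∏ i ∈ I, prob (S i) := by
  have hdo : Disjoint K₀ (P2_spo sp B K b) := by
    rw [Set.disjoint_left]
    intro x hx hx'
    unfold P2_spo at hx'
    simp only [Set.mem_iUnion] at hx'
    obtain ⟨b', hb', i, hi, hx'⟩ := hx'
    exact Set.disjoint_left.1 (hd b' (Finset.mem_range.1 (Finset.mem_erase.1 hb').2) i
      (Finset.mem_range.1 hi)) hx hx'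
  have h1 : prob (η ∩ QuiG Z O B K b) = prob η * prob (QuiG Z O B K b) :=
    prob_inter_of_disjoint hK (P2_finite_spo h b) hdo hη (P2_loc_Qui h b)
  have h2 : Loc (K₀ ∪ P2_spo sp B K b) (η ∩ QuiG Z O B K b) := fun A A' hA =>
    and_congr (hη A A' fun x hx => hA x (Or.inl hx))
      (P2_loc_Qui h b A A' fun x hx => hA x (Or.inr hx))
  have h3 := prob_fam (hK.union (P2_finite_spo h b)) h2 I (fun i => sp b i) S
    (fun i hi => h.fin b hb i (hI i hi)) hS
    (fun i hi => by
      rw [Set.disjoint_union_left]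
      refine ⟨hd b hb i (hI i hi), ?_⟩
      rw [Set.disjoint_left]
      intro x hx hx'
      unfold P2_spo at hx
      simp only [Set.mem_iUnion] at hx
      obtain ⟨b', hb', i', hi', hx⟩ := hx
      rw [Finset.mem_erase, Finset.mem_range] at hb'
      exact Set.disjoint_left.1 (h.disj b' hb'.2 i' (Finset.mem_range.1 hi') b hb i (hI i hi)
        (Or.inl hb'.1)) hx hx')
    (fun i hi j hj hij => h.disj b hb i (hI i hi) b hb j (hI j hj) (Or.inr hij))
  rw [h1] at h3
  rw [← h3, Set.inter_assoc]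

/-- all pairs are not low, and the events `D` for the pairs in `F` -/
theorem P2_F (h : PSys Z O D sp a0 a1 d B K) {K₀ : Set (List Bool)} (hK : K₀.Finite)
    (hd : ∀ b < B, ∀ i < K, Disjoint K₀ (sp b i)) {η : Set Oracle} (hη : Loc K₀ η)
    {b : ℕ} (hb : b < B) (F : Finset ℕ) (hF : F ⊆ Finset.range K) :
    prob ((η ∩ (QuiG Z O B K b ∩ AllH Z O K b)) ∩ {A | ∀ i ∈ F, A ∈ D b i}) =
      prob η * prob (QuiG Z O B K b) * (d ^ F.card * (1 - (a0 + a1)) ^ (K - F.card)) := by
  have hF' : ∀ i ∈ F, i < K := fun i hi => Finset.mem_range.1 (hF hi)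
  have h1 := P2_gen h hK hd hη hb (Finset.range K) (fun i hi => Finset.mem_range.1 hi)
    (fun i => if i ∈ F then D b i else (Low Z O b i)ᶜ) (fun i hi => by
      have hi' := Finset.mem_range.1 hi
      by_cases hiF : i ∈ F
      · simp only [hiF, if_true]
        exact h.locD b hb i hi'
      · simp only [hiF, if_false]
        exact M2.Loc.compl (P2_locLow h hb hi'))
  have h2 : (η ∩ (QuiG Z O B K b ∩ AllH Z O K b)) ∩ {A | ∀ i ∈ F, A ∈ D b i} =
      η ∩ (QuiG Z O B K b ∩ {A | ∀ i ∈ Finset.range K,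
        A ∈ (if i ∈ F then D b i else (Low Z O b i)ᶜ)}) := by
    ext A
    simp only [Set.mem_inter_iff, AllH, Set.mem_ofPred_eq, Finset.mem_range]
    constructor
    · rintro ⟨⟨h3, h4, h5⟩, h6⟩
      refine ⟨h3, h4, fun i hi => ?_⟩
      by_cases hiF : i ∈ F
      · simp only [hiF, if_true]
        exact h6 i hiF
      · simp only [hiF, if_false]
        exact h5 i hi
    · rintro ⟨h3, h4, h5⟩
      refine ⟨⟨h3, h4, fun i hi => ?_⟩, fun i hiF => ?_⟩
      · have h6 := h5 i hi
        by_cases hiF : i ∈ F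
        · simp only [hiF, if_true] at h6
          exact fun h7 => Set.disjoint_left.1 (h.dD b hb i hi) h6 h7
        · simp only [hiF, if_false] at h6
          exact h6
      · have h6 := h5 i (hF' i hiF)
        simp only [hiF, if_true] at h6
        exact h6
  rw [h2, h1]
  congr 1
  have h3 : ∏ i ∈ Finset.range K, prob (if i ∈ F then D b i else (Low Z O b i)ᶜ) =
      ∏ i ∈ Finset.range K, (if i ∈ F then d else 1 - (a0 + a1)) := by
    refine Finset.prod_congr rfl fun i hi => ?_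
    have hi' := Finset.mem_range.1 hi
    by_cases hiF : i ∈ F
    · simp only [hiF, if_true]
      exact h.prD b hb i hi'
    · simp only [hiF, if_false]
      exact P2_probLowc h hb hi'
  rw [h3, Finset.prod_ite, Finset.prod_const, Finset.prod_const]
  have h4 : (Finset.range K).filter (fun i => i ∈ F) = F := by
    ext i
    rw [Finset.mem_filter]
    exact ⟨fun h => h.2, fun h => ⟨hF h, h⟩⟩
  have h5 : ((Finset.range K).filter (fun i => i ∉ F)).card = K - F.card := by
    have h6 : (Finset.range K).filter (fun i => i ∉ F) = Finset.range K \ F := by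
      ext i
      rw [Finset.mem_filter, Finset.mem_sdiff]
    rw [h6, Finset.card_sdiff_of_subset hF, Finset.card_range]
  rw [h4, h5]

theorem prob_QuiG_ge (h : PSys Z O D sp a0 a1 d B K) (b : ℕ) :
    1 - B * ((1 - (a0 + a1)) ^ K + K * (a0 + a1) * (1 - (a0 + a1)) ^ (K - 1)) ≤
      prob (QuiG Z O B K b) := by
  have h1 : Set.univ ⊆ QuiG Z O B K b ∪
      ⋃ b' ∈ Finset.range B, (AllH Z O K b' ∪ OneL Z O K b') := by
    intro A _
    by_cases hA : A ∈ QuiG Z O B K b
    · exact Or.inl hA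
    · refine Or.inr ?_
      unfold QuiG at hA
      simp only [Set.mem_ofPred_eq] at hA
      push Not at hA
      obtain ⟨b', hb', -, h⟩ := hA
      simp only [Set.mem_iUnion]
      refine ⟨b', Finset.mem_range.2 hb', ?_⟩
      by_cases h' : A ∈ AllH Z O K b'
      · exact Or.inl h'
      · exact Or.inr (h h')
  have h2 := (M2.prob_mono h1).trans (M2.prob_union_le _ _)
  rw [prob_univ'] at h2
  have h3 : prob (⋃ b' ∈ Finset.range B, (AllH Z O K b' ∪ OneL Z O K b')) ≤
      B * ((1 - (a0 + a1)) ^ K + K * (a0 + a1) * (1 - (a0 + a1)) ^ (K - 1)) := by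
    refine (measureReal_biUnion_finset_le _ _).trans ?_
    have h4 := Finset.sum_le_card_nsmul (Finset.range B)
      (fun b' => randomOracle.real (AllH Z O K b' ∪ OneL Z O K b'))
      ((1 - (a0 + a1)) ^ K + K * (a0 + a1) * (1 - (a0 + a1)) ^ (K - 1)) (by
      intro b' hb'
      have hb'' := Finset.mem_range.1 hb'
      refine (M2.prob_union_le (AllH Z O K b') (OneL Z O K b')).trans ?_
      exact add_le_add (prob_AllH h hb'').le (prob_OneL_le h hb''))
    rwa [Finset.card_range, nsmul_eq_mul] at h4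
  linarith

theorem prob_eta (h : PSys Z O D sp a0 a1 d B K) {K₀ : Set (List Bool)} (hK : K₀.Finite)
    (hd : ∀ b < B, ∀ i < K, Disjoint K₀ (sp b i)) {η : Set Oracle} (hη : Loc K₀ η)
    {b j : ℕ} (hb : b < B) (hj : j < K) :
    prob (η ∩ (QuiG Z O B K b ∩ Oth Z O K b j)) =
      prob η * prob (QuiG Z O B K b) * (1 - (a0 + a1)) ^ (K - 1) := by
  have h1 := P2_gen h hK hd hη hb ((Finset.range K).erase j)
    (fun i hi => Finset.mem_range.1 (Finset.mem_erase.1 hi).2)
    (fun i => (Low Z O b i)ᶜ) (fun i hi => M2.Loc.compl (P2_locLow h hb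
      (Finset.mem_range.1 (Finset.mem_erase.1 hi).2)))
  have h2 : Oth Z O K b j = {A | ∀ i ∈ (Finset.range K).erase j, A ∈ (Low Z O b i)ᶜ} := by
    ext A
    simp only [Oth, Set.mem_ofPred_eq, Finset.mem_erase, Finset.mem_range, Set.mem_compl_iff,
      and_imp]
    exact ⟨fun h i hi hi' => h i hi' hi, fun h i hi hi' => h i hi' hi⟩
  rw [h2, h1]
  congr 1
  rw [Finset.prod_congr rfl (fun i hi => P2_probLowc h hb
    (Finset.mem_range.1 (Finset.mem_erase.1 hi).2)), Finset.prod_const,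
    Finset.card_erase_of_mem (Finset.mem_range.2 hj), Finset.card_range]

theorem prob_all (h : PSys Z O D sp a0 a1 d B K) {K₀ : Set (List Bool)} (hK : K₀.Finite)
    (hd : ∀ b < B, ∀ i < K, Disjoint K₀ (sp b i)) {η : Set Oracle} (hη : Loc K₀ η)
    {b : ℕ} (hb : b < B) :
    prob (η ∩ (QuiG Z O B K b ∩ AllH Z O K b)) =
      prob η * prob (QuiG Z O B K b) * (1 - (a0 + a1)) ^ K := by
  have h1 := P2_F h hK hd hη hb ∅ (Finset.empty_subset _)
  have h2 : {A : Oracle | ∀ i ∈ (∅ : Finset ℕ), A ∈ D b i} = Set.univ := by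
    ext A
    simp
  rw [h2, Set.inter_univ, Finset.card_empty, pow_zero, one_mul, Nat.sub_zero] at h1
  exact h1

theorem prob_all_D (h : PSys Z O D sp a0 a1 d B K) {K₀ : Set (List Bool)} (hK : K₀.Finite)
    (hd : ∀ b < B, ∀ i < K, Disjoint K₀ (sp b i)) {η : Set Oracle} (hη : Loc K₀ η)
    {b i : ℕ} (hb : b < B) (hi : i < K) :
    prob ((η ∩ (QuiG Z O B K b ∩ AllH Z O K b)) ∩ D b i) =
      d / (1 - (a0 + a1)) * prob (η ∩ (QuiG Z O B K b ∩ AllH Z O K b)) := by
  have h1 := P2_F h hK hd hη hb {i} (by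
    rw [Finset.singleton_subset_iff, Finset.mem_range]
    exact hi)
  have h2 : {A : Oracle | ∀ i' ∈ ({i} : Finset ℕ), A ∈ D b i'} = D b i := by
    ext A
    simp
  rw [h2, Finset.card_singleton, pow_one] at h1
  rw [h1, prob_all h hK hd hη hb]
  have h3 : (1 - (a0 + a1)) ≠ 0 := by
    have := h.al
    intro h4
    linarith
  obtain ⟨k, rfl⟩ : ∃ k, K = k + 1 := ⟨K - 1, by omega⟩
  rw [Nat.add_sub_cancel, pow_succ]
  field_simp

theorem prob_all_DD (h : PSys Z O D sp a0 a1 d B K) {K₀ : Set (List Bool)} (hK : K₀.Finite)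
    (hd : ∀ b < B, ∀ i < K, Disjoint K₀ (sp b i)) {η : Set Oracle} (hη : Loc K₀ η)
    {b i i' : ℕ} (hb : b < B) (hi : i < K) (hi' : i' < K) (hne : i ≠ i') :
    prob ((η ∩ (QuiG Z O B K b ∩ AllH Z O K b)) ∩ (D b i ∩ D b i')) =
      (d / (1 - (a0 + a1))) ^ 2 * prob (η ∩ (QuiG Z O B K b ∩ AllH Z O K b)) := by
  have h1 := P2_F h hK hd hη hb {i, i'} (by
    intro x hx
    rw [Finset.mem_insert, Finset.mem_singleton] at hx
    rw [Finset.mem_range]
    rcases hx with rfl | rfl
    · exact hi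
    · exact hi')
  have h2 : {A : Oracle | ∀ x ∈ ({i, i'} : Finset ℕ), A ∈ D b x} = D b i ∩ D b i' := by
    ext A
    simp
  rw [h2, Finset.card_pair hne] at h1
  rw [h1, prob_all h hK hd hη hb]
  have h3 : (1 - (a0 + a1)) ≠ 0 := by
    have := h.al
    intro h4
    linarith
  obtain ⟨k, rfl⟩ : ∃ k, K = k + 2 := ⟨K - 2, by omega⟩
  rw [Nat.add_sub_cancel, pow_add]
  field_simp

end Pool.Agent.H673R3.UC
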