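import Pool.Agent.H673R3.UC.Defs
import Pool.Agent.H628R3.RO.D1

/-! Task P3: the second moment. -/

namespace Pool.Agent.H673R3.UC

open MeasureTheory Pool.Agent.NPC Pool.Agent.H628R3.RO

/-- the indicator function of a set -/
private noncomputable def P3_I (S : Set Oracle) (A : Oracle) : ℝ := S.indicator (fun _ => (1 : ℝ)) A

open Classical in
private lemma P3_I_eq (S : Set Oracle) (A : Oracle) : P3_I S A = if A ∈ S then 1 else 0 := by
  unfold P3_I
  rw [Set.indicator_apply]

private lemma P3_int {S : Set Oracle} (hS : MeasurableSet S) :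
    Integrable (fun A => P3_I S A) randomOracle :=
  (integrable_const (1 : ℝ)).indicator hS

private lemma P3_val {S : Set Oracle} (hS : MeasurableSet S) :
    ∫ A, P3_I S A ∂randomOracle = prob S := by
  unfold P3_I prob
  exact integral_indicator_one hS

theorem second_moment {ι : Type} (F : Finset ι) {Y S : Set Oracle} (D : ι → Set Oracle)
    (hY : MeasurableSet Y) (hS : MeasurableSet S) (hSY : S ⊆ Y)
    (hD : ∀ i ∈ F, MeasurableSet (D i)) {θ : ℝ} (hθ : 0 ≤ θ)
    (h1 : ∀ i ∈ F, prob (Y ∩ D i) = θ * prob Y)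
    (h2 : ∀ i ∈ F, ∀ j ∈ F, i ≠ j → prob (Y ∩ (D i ∩ D j)) = θ ^ 2 * prob Y) :
    ∑ i ∈ F, prob (S ∩ D i) ≤ F.card * θ * prob S + Real.sqrt (F.card * θ) * prob Y := by
  classical
  have hYn : 0 ≤ prob Y := by unfold prob; exact measureReal_nonneg
  have hSn : 0 ≤ prob S := by unfold prob; exact measureReal_nonneg
  set lam : ℝ := F.card * θ with hlam
  have hlam0 : 0 ≤ lam := mul_nonneg (Nat.cast_nonneg _) hθ
  rcases hlam0.eq_or_lt with h0 | hpos
  · rw [← h0, Real.sqrt_zero, zero_mul, zero_mul, add_zero]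
    refine Finset.sum_nonpos fun i hi => ?_
    have hc : (0 : ℝ) < F.card := by
      exact_mod_cast Finset.card_pos.2 ⟨i, hi⟩
    have hth : θ = 0 := by
      rcases mul_eq_zero.1 h0.symm with h | h
      · exact absurd h hc.ne'
      · exact h
    have h3 : prob (S ∩ D i) ≤ prob (Y ∩ D i) := by
      unfold prob
      exact measureReal_mono (Set.inter_subset_inter_left _ hSY)
    rw [h1 i hi, hth, zero_mul] at h3
    exact h3
  · set c : ℝ := Real.sqrt lam with hc
    have hcpos : 0 < c := Real.sqrt_pos.2 hpos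
    have hcc : c * c = lam := Real.mul_self_sqrt hlam0
    -- pointwise inequality
    have hpt : ∀ A : Oracle, ∑ i ∈ F, P3_I (S ∩ D i) A ≤
        lam * P3_I S A + ((1 / (2 * c)) * ((∑ i ∈ F, ∑ j ∈ F, P3_I (Y ∩ (D i ∩ D j)) A) -
          2 * lam * (∑ i ∈ F, P3_I (Y ∩ D i) A) + lam ^ 2 * P3_I Y A) +
          (c / 2) * P3_I Y A) := by
      intro A
      by_cases hAY : A ∈ Y
      · have e1 : ∀ i ∈ F, P3_I (Y ∩ D i) A = P3_I (D i) A := by
          intro i _
          rw [P3_I_eq, P3_I_eq]
          simp [hAY]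
        have e2 : ∀ i ∈ F, ∑ j ∈ F, P3_I (Y ∩ (D i ∩ D j)) A =
            P3_I (D i) A * ∑ j ∈ F, P3_I (D j) A := by
          intro i _
          rw [Finset.mul_sum]
          refine Finset.sum_congr rfl fun j _ => ?_
          rw [P3_I_eq, P3_I_eq, P3_I_eq]
          by_cases hi : A ∈ D i <;> by_cases hj : A ∈ D j <;> simp [hAY, hi, hj]
        have e3 : P3_I Y A = 1 := by rw [P3_I_eq, if_pos hAY]
        rw [Finset.sum_congr rfl e1, Finset.sum_congr rfl e2, ← Finset.sum_mul, e3]
        set x : ℝ := ∑ j ∈ F, P3_I (D j) A with hx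
        have e4 : (1 / (2 * c)) * (x * x - 2 * lam * x + lam ^ 2 * 1) + c / 2 * 1 =
            ((x - lam) ^ 2 + c ^ 2) / (2 * c) := by
          field_simp
          ring
        by_cases hAS : A ∈ S
        · have e5 : ∀ i ∈ F, P3_I (S ∩ D i) A = P3_I (D i) A := by
            intro i _
            rw [P3_I_eq, P3_I_eq]
            simp [hAS]
          have e6 : P3_I S A = 1 := by rw [P3_I_eq, if_pos hAS]
          rw [Finset.sum_congr rfl e5, e6, e4, mul_one]
          have e7 : x - lam ≤ ((x - lam) ^ 2 + c ^ 2) / (2 * c) := by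
            rw [le_div_iff₀ (by positivity)]
            nlinarith [sq_nonneg (x - lam - c)]
          linarith
        · have e5 : ∀ i ∈ F, P3_I (S ∩ D i) A = 0 := by
            intro i _
            rw [P3_I_eq, if_neg fun h => hAS h.1]
          have e6 : P3_I S A = 0 := by rw [P3_I_eq, if_neg hAS]
          rw [Finset.sum_congr rfl e5, e6, e4, mul_zero, zero_add, Finset.sum_const_zero]
          positivity
      · have hAS : A ∉ S := fun h => hAY (hSY h)
        have e1 : ∀ i ∈ F, P3_I (S ∩ D i) A = 0 := by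
          intro i _
          rw [P3_I_eq, if_neg fun h => hAS h.1]
        have e2 : ∀ i ∈ F, P3_I (Y ∩ D i) A = 0 := by
          intro i _
          rw [P3_I_eq, if_neg fun h => hAY h.1]
        have e3 : ∀ i ∈ F, ∑ j ∈ F, P3_I (Y ∩ (D i ∩ D j)) A = 0 := by
          intro i _
          refine Finset.sum_eq_zero fun j _ => ?_
          rw [P3_I_eq, if_neg fun h => hAY h.1]
        have e4 : P3_I Y A = 0 := by rw [P3_I_eq, if_neg hAY]
        have e5 : P3_I S A = 0 := by rw [P3_I_eq, if_neg hAS]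
        rw [Finset.sum_congr rfl e1, Finset.sum_congr rfl e2, Finset.sum_congr rfl e3, e4, e5]
        simp
    -- integrability
    have i1 : ∀ i ∈ F, Integrable (fun A => P3_I (S ∩ D i) A) randomOracle :=
      fun i hi => P3_int (hS.inter (hD i hi))
    have i2 : ∀ i ∈ F, Integrable (fun A => P3_I (Y ∩ D i) A) randomOracle :=
      fun i hi => P3_int (hY.inter (hD i hi))
    have i3 : ∀ i ∈ F, ∀ j ∈ F, Integrable (fun A => P3_I (Y ∩ (D i ∩ D j)) A) randomOracle :=
      fun i hi j hj => P3_int (hY.inter ((hD i hi).inter (hD j hj)))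
    have i4 : ∀ i ∈ F, Integrable (fun A => ∑ j ∈ F, P3_I (Y ∩ (D i ∩ D j)) A) randomOracle :=
      fun i hi => integrable_finsetSum _ (i3 i hi)
    have i5 := integrable_finsetSum _ i4
    have i6 := integrable_finsetSum _ i2
    have i7 := integrable_finsetSum _ i1
    have iY := P3_int hY
    have iS := P3_int hS
    have i8 : Integrable (fun A => (∑ i ∈ F, ∑ j ∈ F, P3_I (Y ∩ (D i ∩ D j)) A) -
          2 * lam * (∑ i ∈ F, P3_I (Y ∩ D i) A)) randomOracle := i5.sub (i6.const_mul _)
    have i9 : Integrable (fun A => (∑ i ∈ F, ∑ j ∈ F, P3_I (Y ∩ (D i ∩ D j)) A) -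
          2 * lam * (∑ i ∈ F, P3_I (Y ∩ D i) A) + lam ^ 2 * P3_I Y A) randomOracle :=
      i8.add (iY.const_mul _)
    have i10 : Integrable (fun A => (1 / (2 * c)) *
        ((∑ i ∈ F, ∑ j ∈ F, P3_I (Y ∩ (D i ∩ D j)) A) -
          2 * lam * (∑ i ∈ F, P3_I (Y ∩ D i) A) + lam ^ 2 * P3_I Y A)) randomOracle :=
      i9.const_mul _
    have i11 : Integrable (fun A => (1 / (2 * c)) *
        ((∑ i ∈ F, ∑ j ∈ F, P3_I (Y ∩ (D i ∩ D j)) A) -
          2 * lam * (∑ i ∈ F, P3_I (Y ∩ D i) A) + lam ^ 2 * P3_I Y A) +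
          (c / 2) * P3_I Y A) randomOracle := i10.add (iY.const_mul _)
    have i12 := (iS.const_mul lam).add i11
    have hmono := integral_mono i7 i12 hpt
    -- compute the integrals
    rw [integral_finsetSum _ i1] at hmono
    have v1 : ∑ i ∈ F, ∫ A, P3_I (S ∩ D i) A ∂randomOracle = ∑ i ∈ F, prob (S ∩ D i) :=
      Finset.sum_congr rfl fun i hi => P3_val (hS.inter (hD i hi))
    rw [v1] at hmono
    have v2 : ∫ A, (lam * P3_I S A + ((1 / (2 * c)) *
        ((∑ i ∈ F, ∑ j ∈ F, P3_I (Y ∩ (D i ∩ D j)) A) -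
          2 * lam * (∑ i ∈ F, P3_I (Y ∩ D i) A) + lam ^ 2 * P3_I Y A) +
          (c / 2) * P3_I Y A)) ∂randomOracle =
        lam * prob S + ((1 / (2 * c)) * ((∑ i ∈ F, ∑ j ∈ F, prob (Y ∩ (D i ∩ D j))) -
          2 * lam * (∑ i ∈ F, prob (Y ∩ D i)) + lam ^ 2 * prob Y) + (c / 2) * prob Y) := by
      rw [integral_add (iS.const_mul lam) i11, integral_add i10 (iY.const_mul _),
        integral_const_mul, integral_const_mul, integral_const_mul, integral_add i8
        (iY.const_mul _), integral_sub i5 (i6.const_mul _), integral_const_mul,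
        integral_const_mul, integral_finsetSum _ i4, integral_finsetSum _ i2, P3_val hS,
        P3_val hY]
      congr 4
      · congr 1
        · refine Finset.sum_congr rfl fun i hi => ?_
          rw [integral_finsetSum _ (i3 i hi)]
          exact Finset.sum_congr rfl fun j hj => P3_val (hY.inter ((hD i hi).inter (hD j hj)))
        · congr 1
          exact Finset.sum_congr rfl fun i hi => P3_val (hY.inter (hD i hi))
    have hmono2 := hmono.trans_eq v2
    refine hmono2.trans ?_
    -- the moments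
    have m1 : ∑ i ∈ F, prob (Y ∩ D i) = lam * prob Y := by
      rw [Finset.sum_congr rfl h1, Finset.sum_const, nsmul_eq_mul, hlam]
      ring
    have m2 : ∑ i ∈ F, ∑ j ∈ F, prob (Y ∩ (D i ∩ D j)) ≤ (lam + lam ^ 2) * prob Y := by
      have m3 : ∀ i ∈ F, ∑ j ∈ F, prob (Y ∩ (D i ∩ D j)) ≤
          θ * prob Y + F.card * (θ ^ 2 * prob Y) := by
        intro i hi
        have m4 : ∀ j ∈ F, prob (Y ∩ (D i ∩ D j)) ≤
            (if j = i then θ * prob Y else 0) + θ ^ 2 * prob Y := by
          intro j hj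
          by_cases hij : j = i
          · subst hij
            rw [if_pos rfl, Set.inter_self, h1 j hj]
            have : 0 ≤ θ ^ 2 * prob Y := by positivity
            linarith
          · rw [if_neg hij, zero_add, h2 i hi j hj (Ne.symm hij)]
        refine (Finset.sum_le_sum m4).trans ?_
        rw [Finset.sum_add_distrib, Finset.sum_ite_eq' F i, if_pos hi, Finset.sum_const,
          nsmul_eq_mul]
      refine (Finset.sum_le_sum m3).trans ?_
      rw [Finset.sum_const, nsmul_eq_mul, hlam]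
      apply le_of_eq
      ring
    rw [m1]
    have m5 : (1 / (2 * c)) * ((∑ i ∈ F, ∑ j ∈ F, prob (Y ∩ (D i ∩ D j))) -
          2 * lam * (lam * prob Y) + lam ^ 2 * prob Y) ≤ (1 / (2 * c)) * (lam * prob Y) := by
      refine mul_le_mul_of_nonneg_left ?_ (by positivity)
      nlinarith [m2]
    have m6 : (1 / (2 * c)) * (lam * prob Y) = c / 2 * prob Y := by
      rw [← hcc]
      field_simp
    have m7 : c / 2 * prob Y + c / 2 * prob Y = c * prob Y := by ring
    linarith

end Pool.Agent.H673R3.UC
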