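import Pool.Agent.H673R3.UC.P1b
import Pool.Agent.H673R3.UC.P2
import Pool.Agent.H673R3.UC.P3

/-! Task P4: the abstract key inequality. -/

namespace Pool.Agent.H673R3.UC

open MeasureTheory Pool.Agent.NPC Pool.Agent.H628R3.RO

variable {Z O D : ℕ → ℕ → Set Oracle} {sp : ℕ → ℕ → Set (List Bool)} {a0 a1 d : ℝ} {B K : ℕ}

namespace P4A

theorem sum_prob_le_prob {ι : Type} (S : Finset ι) (f : ι → Set Oracle)
    (hm : ∀ i ∈ S, MeasurableSet (f i))
    (hd : ∀ i ∈ S, ∀ j ∈ S, i ≠ j → Disjoint (f i) (f j)) {T : Set Oracle}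
    (hT : ∀ i ∈ S, f i ⊆ T) : ∑ i ∈ S, prob (f i) ≤ prob T := by
  have h1 : prob (⋃ i ∈ S, f i) = ∑ i ∈ S, prob (f i) :=
    measureReal_biUnion_finset (fun i hi j hj hij => hd i hi j hj hij) hm
  rw [← h1]
  exact M2.prob_mono (Set.iUnion₂_subset hT)

/-- everything depends on finitely many strings -/
theorem loc_all (h : PSys Z O D sp a0 a1 d B K) :
    ∃ K' : Set (List Bool), K'.Finite ∧ ∀ A A' : Oracle, (∀ x ∈ K', A x = A' x) →
      ∀ b < B, ∀ i < K, (A ∈ Z b i ↔ A' ∈ Z b i) ∧ (A ∈ O b i ↔ A' ∈ O b i) ∧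
        (A ∈ D b i ↔ A' ∈ D b i) := by
  refine ⟨⋃ b ∈ Finset.range B, ⋃ i ∈ Finset.range K, sp b i, ?_, ?_⟩
  · refine Set.Finite.biUnion (Finset.finite_toSet _) fun b hb => ?_
    refine Set.Finite.biUnion (Finset.finite_toSet _) fun i hi => ?_
    exact h.fin b (Finset.mem_range.1 hb) i (Finset.mem_range.1 hi)
  · intro A A' hA b hb i hi
    have hs : ∀ x ∈ sp b i, A x = A' x := fun x hx => hA x
      (Set.mem_biUnion (Finset.mem_range.2 hb) (Set.mem_biUnion (Finset.mem_range.2 hi) hx))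
    exact ⟨h.locZ b hb i hi A A' hs, h.locO b hb i hi A A' hs, h.locD b hb i hi A A' hs⟩

theorem iff_Low {A A' : Oracle} {b i : ℕ} (h : (A ∈ Z b i ↔ A' ∈ Z b i) ∧ (A ∈ O b i ↔ A' ∈ O b i)) :
    A ∈ Low Z O b i ↔ A' ∈ Low Z O b i := or_congr h.1 h.2

theorem iff_AllH {A A' : Oracle} {b : ℕ}
    (h : ∀ i < K, (A ∈ Z b i ↔ A' ∈ Z b i) ∧ (A ∈ O b i ↔ A' ∈ O b i)) :
    A ∈ AllH Z O K b ↔ A' ∈ AllH Z O K b :=
  forall₂_congr fun i hi => not_congr (iff_Low (h i hi))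

theorem iff_Oth {A A' : Oracle} {b j : ℕ}
    (h : ∀ i < K, (A ∈ Z b i ↔ A' ∈ Z b i) ∧ (A ∈ O b i ↔ A' ∈ O b i)) :
    A ∈ Oth Z O K b j ↔ A' ∈ Oth Z O K b j :=
  forall₃_congr fun i hi _ => not_congr (iff_Low (h i hi))

theorem iff_OneL {A A' : Oracle} {b : ℕ}
    (h : ∀ i < K, (A ∈ Z b i ↔ A' ∈ Z b i) ∧ (A ∈ O b i ↔ A' ∈ O b i)) :
    A ∈ OneL Z O K b ↔ A' ∈ OneL Z O K b := by
  constructor
  · rintro ⟨i₀, h1, h2, h3⟩
    exact ⟨i₀, h1, (iff_Low (h i₀ h1)).1 h2, fun i hi hne h4 => h3 i hi hne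
      ((iff_Low (h i hi)).2 h4)⟩
  · rintro ⟨i₀, h1, h2, h3⟩
    exact ⟨i₀, h1, (iff_Low (h i₀ h1)).2 h2, fun i hi hne h4 => h3 i hi hne
      ((iff_Low (h i hi)).1 h4)⟩

theorem iff_QuiG {A A' : Oracle} {b : ℕ}
    (h : ∀ b < B, ∀ i < K, (A ∈ Z b i ↔ A' ∈ Z b i) ∧ (A ∈ O b i ↔ A' ∈ O b i)) :
    A ∈ QuiG Z O B K b ↔ A' ∈ QuiG Z O B K b :=
  forall₃_congr fun b' hb' _ => and_congr (not_congr (iff_AllH (h b' hb')))
    (not_congr (iff_OneL (h b' hb')))

theorem iff_BadG {A A' : Oracle}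
    (h : ∀ b < B, ∀ i < K, (A ∈ Z b i ↔ A' ∈ Z b i) ∧ (A ∈ O b i ↔ A' ∈ O b i)) :
    A ∈ BadG Z O B K ↔ A' ∈ BadG Z O B K :=
  exists_congr fun b' => and_congr_right fun hb' => iff_AllH (h b' hb')

theorem sqrt_le {x : ℝ} (h : 256 ≤ x) : Real.sqrt x ≤ x / 16 := by
  rw [Real.sqrt_le_left (by linarith)]
  nlinarith

/-- the numbers for one block -/
theorem num_block {a1 δ d L K PY PE PF S : ℝ} (ha1 : 0 ≤ a1) (hd : 0 < d) (hL : 0 < L)
    (hPY : 0 ≤ PY) (hK : 0 ≤ K) (hlam : 256 ≤ K * d / L) (hF : PF = PY / L)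
    (hS : S ≤ K * (d / L) * PE + Real.sqrt (K * (d / L)) * PY) :
    a1 / 4 * (K / L) * ((1 - δ - 1 / 16) * PY - PE) ≤
      a1 / 4 * ((1 - δ) * (K * PF) - S / d) := by
  have e1 : K * (d / L) = K * d / L := by ring
  have h1 : Real.sqrt (K * (d / L)) ≤ K * (d / L) / 16 := by
    rw [e1]; exact sqrt_le hlam
  have h2 : S ≤ K * (d / L) * (PE + PY / 16) := by
    have := mul_le_mul_of_nonneg_right h1 hPY
    linarith
  have h3 : S / d ≤ K / L * (PE + PY / 16) := by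
    rw [div_le_iff₀ hd]
    calc S ≤ K * (d / L) * (PE + PY / 16) := h2
      _ = K / L * (PE + PY / 16) * d := by ring
  have h4 : (1 - δ) * (K * PF) = K / L * ((1 - δ) * PY) := by
    rw [hF]; ring
  rw [h4]
  have h5 : K / L * ((1 - δ - 1 / 16) * PY - PE) ≤ K / L * ((1 - δ) * PY) - S / d := by
    linarith
  calc a1 / 4 * (K / L) * ((1 - δ - 1 / 16) * PY - PE)
      = a1 / 4 * (K / L * ((1 - δ - 1 / 16) * PY - PE)) := by ring
    _ ≤ _ := mul_le_mul_of_nonneg_left h5 (by positivity)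

/-- the final computation -/
theorem num_final {c M X PB Pη P l : ℝ} (hc : 0 ≤ c) (hl : l ≤ c * (1 / 2 * M))
    (hX0 : 0 ≤ X) (hXB : X ≤ PB) (hBM : PB ≤ M) (hP : 0 ≤ P) (hl0 : 0 ≤ l)
    (h : c * (7 / 8 * Pη * M - X) ≤ P) : l * (7 / 8 * Pη - X / PB) ≤ P := by
  have hPB : 0 ≤ PB := hX0.trans hXB
  have hM : 0 ≤ M := hPB.trans hBM
  by_cases hQ : 7 / 8 * Pη - X / PB ≤ 0
  · exact (mul_nonpos_of_nonneg_of_nonpos hl0 hQ).trans hP
  · push Not at hQ
    have h1 : M * (7 / 8 * Pη - X / PB) ≤ 7 / 8 * Pη * M - X := by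
      rcases hPB.eq_or_lt with h0 | h0
      · have hX : X = 0 := le_antisymm (hXB.trans h0.symm.le) hX0
        rw [hX, zero_div]
        linarith
      · have h2 : X ≤ M * (X / PB) := by
          calc X = PB * (X / PB) := by field_simp
            _ ≤ M * (X / PB) := mul_le_mul_of_nonneg_right hBM (by positivity)
        linarith
    calc l * (7 / 8 * Pη - X / PB) ≤ c * (1 / 2 * M) * (7 / 8 * Pη - X / PB) :=
          mul_le_mul_of_nonneg_right hl hQ.le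
      _ ≤ c * (M * (7 / 8 * Pη - X / PB)) := by
          have : 0 ≤ c * (M * (7 / 8 * Pη - X / PB)) := by positivity
          linarith
      _ ≤ c * (7 / 8 * Pη * M - X) := mul_le_mul_of_nonneg_left h1 hc
      _ ≤ P := h

end P4A

open P4A

theorem key_gen (h : PSys Z O D sp a0 a1 d B K) {K₀ : Set (List Bool)} (hK : K₀.Finite)
    (hd : ∀ b < B, ∀ i < K, Disjoint K₀ (sp b i)) {η G E : Set Oracle} (hη : Loc K₀ η)
    (hG : MeasurableSet G) (hE : MeasurableSet E) {δ : ℝ} (hδ : δ ≤ 1 / 64)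
    (hq : (B : ℝ) * ((1 - (a0 + a1)) ^ K + K * (a0 + a1) * (1 - (a0 + a1)) ^ (K - 1)) ≤ 1 / 64)
    (hlam : 256 ≤ K * d / (1 - (a0 + a1))) {l : ℝ} (hl0 : 0 ≤ l)
    (hl : l ≤ a1 / 4 * (K / (1 - (a0 + a1))) * (1 / 2 * (B * (1 - (a0 + a1)) ^ K)))
    (key : ∀ b < B, ∀ j < K,
      a1 / 4 * ((1 - δ) * prob (η ∩ (QuiG Z O B K b ∩ Oth Z O K b j)) -
        prob ((η ∩ (QuiG Z O B K b ∩ Oth Z O K b j)) ∩ (D b j ∩ E)) / d) ≤
      prob ((η ∩ (QuiG Z O B K b ∩ Oth Z O K b j)) ∩ (O b j ∩ Gᶜ))) :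
    l * (7 / 8 * prob η - prob (η ∩ (BadG Z O B K ∩ E)) / prob (BadG Z O B K)) ≤
      prob (η ∩ Gᶜ) := by
  classical
  have ha0 := h.nn0
  have ha1 := h.nn1
  have hal := h.al
  have hd0 := h.dpos
  have hL : 0 < 1 - (a0 + a1) := by linarith
  have hK0 : 0 < K := by
    rcases Nat.eq_zero_or_pos K with h0 | h0
    · rw [h0] at hlam
      simp at hlam
      linarith
    · exact h0
  set L : ℝ := 1 - (a0 + a1) with hLd
  have hPη : 0 ≤ prob η := M2.prob_nonneg _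
  obtain ⟨K', hKf, hKZ⟩ := loc_all h
  have hKZ' : ∀ A A' : Oracle, (∀ x ∈ K', A x = A' x) →
      ∀ b < B, ∀ i < K, (A ∈ Z b i ↔ A' ∈ Z b i) ∧ (A ∈ O b i ↔ A' ∈ O b i) :=
    fun A A' hA b hb i hi => ⟨(hKZ A A' hA b hb i hi).1, (hKZ A A' hA b hb i hi).2.1⟩
  have mη : MeasurableSet η := measurableSet_of_loc hK hη
  have mQ : ∀ b, MeasurableSet (QuiG Z O B K b) := fun b =>
    measurableSet_of_loc hKf fun A A' hA => iff_QuiG (hKZ' A A' hA)
  have mO : ∀ b < B, ∀ j, MeasurableSet (Oth Z O K b j) := fun b hb j =>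
    measurableSet_of_loc hKf fun A A' hA => iff_Oth (hKZ' A A' hA b hb)
  have mA : ∀ b < B, MeasurableSet (AllH Z O K b) := fun b hb =>
    measurableSet_of_loc hKf fun A A' hA => iff_AllH (hKZ' A A' hA b hb)
  have mOne : ∀ b < B, ∀ j < K, MeasurableSet (O b j) := fun b hb j hj =>
    measurableSet_of_loc hKf fun A A' hA => (hKZ' A A' hA b hb j hj).2
  have mD : ∀ b < B, ∀ j < K, MeasurableSet (D b j) := fun b hb j hj =>
    measurableSet_of_loc hKf fun A A' hA => (hKZ A A' hA b hb j hj).2.2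
  -- the sum of the right sides
  set R : ℕ × ℕ → Set Oracle := fun p =>
    (η ∩ (QuiG Z O B K p.1 ∩ Oth Z O K p.1 p.2)) ∩ (O p.1 p.2 ∩ Gᶜ) with hR
  have hRm : ∀ p ∈ Finset.range B ×ˢ Finset.range K, MeasurableSet (R p) := by
    rintro ⟨b, j⟩ hp
    rw [Finset.mem_product, Finset.mem_range, Finset.mem_range] at hp
    obtain ⟨hb, hj⟩ := hp
    exact (mη.inter ((mQ b).inter (mO b hb j))).inter ((mOne b hb j hj).inter hG.compl)
  have hRsum : ∑ p ∈ Finset.range B ×ˢ Finset.range K, prob (R p) ≤ prob (η ∩ Gᶜ) := by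
    apply sum_prob_le_prob _ _ hRm
    · rintro ⟨b, j⟩ hp ⟨b', j'⟩ hp' hne
      rw [Finset.mem_product, Finset.mem_range, Finset.mem_range] at hp hp'
      obtain ⟨hb, hj⟩ := hp
      obtain ⟨hb', hj'⟩ := hp'
      simp only at hb hj hb' hj'
      rw [Set.disjoint_left]
      rintro A ⟨⟨_, hQ, hO⟩, hX, _⟩ ⟨⟨_, hQ', hO'⟩, hX', _⟩
      by_cases hbb : b' = b
      · have hjj : j' ≠ j := fun h => hne (by rw [hbb, h])
        subst hbb
        exact hO j' hj' hjj (Or.inr hX')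
      · exact (hQ b' hb' hbb).2 ⟨j', hj', Or.inr hX', hO'⟩
    · rintro ⟨b, j⟩ _ A ⟨⟨h1, _⟩, _, h2⟩
      exact ⟨h1, h2⟩
  -- one block
  set Y : ℕ → Set Oracle := fun b => η ∩ (QuiG Z O B K b ∩ AllH Z O K b) with hY
  have hYm : ∀ b < B, MeasurableSet (Y b) := fun b hb => mη.inter ((mQ b).inter (mA b hb))
  have hYP : ∀ b < B, prob (Y b) = prob η * prob (QuiG Z O B K b) * L ^ K := fun b hb =>
    prob_all h hK hd hη hb
  have hblock : ∀ b < B, a1 / 4 * (K / L) * ((1 - δ - 1 / 16) * prob (Y b) - prob (Y b ∩ E)) ≤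
      ∑ j ∈ Finset.range K, prob (R (b, j)) := by
    intro b hb
    have hset : ∀ j < K, (η ∩ (QuiG Z O B K b ∩ Oth Z O K b j)) ∩ (D b j ∩ E) =
        (Y b ∩ E) ∩ D b j := by
      intro j hj
      ext A
      constructor
      · rintro ⟨⟨h1, h2, h3⟩, h4, h5⟩
        refine ⟨⟨⟨h1, h2, fun i hi => ?_⟩, h5⟩, h4⟩
        by_cases hij : i = j
        · subst hij
          exact fun h6 => Set.disjoint_left.1 (h.dD b hb i hi) h4 h6
        · exact h3 i hi hij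
      · rintro ⟨⟨⟨h1, h2, h3⟩, h5⟩, h4⟩
        exact ⟨⟨h1, h2, fun i hi _ => h3 i hi⟩, h4, h5⟩
    have hsm := second_moment (Finset.range K) (Y := Y b) (S := Y b ∩ E) (D b) (hYm b hb)
      ((hYm b hb).inter hE) Set.inter_subset_left
      (fun i hi => mD b hb i (Finset.mem_range.1 hi)) (θ := d / L) (by positivity)
      (fun i hi => prob_all_D h hK hd hη hb (Finset.mem_range.1 hi))
      (fun i hi j hj hij => prob_all_DD h hK hd hη hb (Finset.mem_range.1 hi)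
        (Finset.mem_range.1 hj) hij)
    rw [Finset.card_range] at hsm
    have hPF : ∀ j ∈ Finset.range K, a1 / 4 * ((1 - δ) *
        (prob η * prob (QuiG Z O B K b) * L ^ (K - 1)) - prob ((Y b ∩ E) ∩ D b j) / d) ≤
        prob (R (b, j)) := by
      intro j hj
      have hj' := Finset.mem_range.1 hj
      have h1 := key b hb j hj'
      rw [prob_eta h hK hd hη hb hj', hset j hj'] at h1
      exact h1
    refine le_trans ?_ (Finset.sum_le_sum hPF)
    have hsumeq : ∑ j ∈ Finset.range K, a1 / 4 * ((1 - δ) *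
        (prob η * prob (QuiG Z O B K b) * L ^ (K - 1)) - prob ((Y b ∩ E) ∩ D b j) / d) =
        a1 / 4 * ((1 - δ) * (K * (prob η * prob (QuiG Z O B K b) * L ^ (K - 1))) -
          (∑ j ∈ Finset.range K, prob ((Y b ∩ E) ∩ D b j)) / d) := by
      rw [← Finset.mul_sum, Finset.sum_sub_distrib, Finset.sum_const, Finset.card_range,
        nsmul_eq_mul, Finset.sum_div]
      ring
    rw [hsumeq]
    refine num_block ha1 hd0 hL (M2.prob_nonneg _) (Nat.cast_nonneg K) hlam ?_ hsm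
    rw [hYP b hb, eq_div_iff hL.ne', mul_assoc, ← pow_succ, Nat.sub_add_cancel hK0]
  -- the sum over the blocks
  have hYE : ∑ b ∈ Finset.range B, prob (Y b ∩ E) ≤ prob (η ∩ (BadG Z O B K ∩ E)) := by
    apply sum_prob_le_prob
    · exact fun b hb => (hYm b (Finset.mem_range.1 hb)).inter hE
    · intro b hb b' hb' hne
      rw [Set.disjoint_left]
      rintro A ⟨⟨_, hQ, _⟩, _⟩ ⟨⟨_, _, hA'⟩, _⟩
      exact (hQ b' (Finset.mem_range.1 hb') (Ne.symm hne)).1 hA'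
    · rintro b hb A ⟨⟨h1, h2, h3⟩, h4⟩
      exact ⟨h1, ⟨b, Finset.mem_range.1 hb, h3⟩, h4⟩
  have hYge : 63 / 64 * (B * (prob η * L ^ K)) ≤ ∑ b ∈ Finset.range B, prob (Y b) := by
    have h1 : ∀ b ∈ Finset.range B, 63 / 64 * (prob η * L ^ K) ≤ prob (Y b) := by
      intro b hb
      rw [hYP b (Finset.mem_range.1 hb)]
      have h2 := prob_QuiG_ge h b
      have h3 : 63 / 64 ≤ prob (QuiG Z O B K b) := by
        rw [← hLd] at h2
        linarith
      have h4 : 0 ≤ prob η * L ^ K := by positivity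
      calc 63 / 64 * (prob η * L ^ K) ≤ prob (QuiG Z O B K b) * (prob η * L ^ K) :=
            mul_le_mul_of_nonneg_right h3 h4
        _ = _ := by ring
    have h2 := Finset.sum_le_sum h1
    rw [Finset.sum_const, Finset.card_range, nsmul_eq_mul] at h2
    linarith
  have htot : a1 / 4 * (K / L) * (7 / 8 * prob η * (B * L ^ K) -
      prob (η ∩ (BadG Z O B K ∩ E))) ≤ prob (η ∩ Gᶜ) := by
    refine le_trans ?_ hRsum
    rw [Finset.sum_product]
    refine le_trans ?_ (Finset.sum_le_sum fun b hb => hblock b (Finset.mem_range.1 hb))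
    rw [← Finset.mul_sum, Finset.sum_sub_distrib, ← Finset.mul_sum]
    refine mul_le_mul_of_nonneg_left ?_ (by positivity)
    have h1 : 0 ≤ (B : ℝ) * (prob η * L ^ K) := by positivity
    have h2 : 59 / 64 ≤ 1 - δ - 1 / 16 := by linarith
    have h3 : 59 / 64 * (63 / 64 * (B * (prob η * L ^ K))) ≤
        (1 - δ - 1 / 16) * ∑ b ∈ Finset.range B, prob (Y b) :=
      mul_le_mul h2 hYge (by positivity) (by linarith)
    nlinarith
  refine num_final (c := a1 / 4 * (K / L)) (M := B * L ^ K) (by positivity) hl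
    (M2.prob_nonneg _) ?_ (prob_BadG_le h) (M2.prob_nonneg _) hl0 htot
  exact M2.prob_mono fun A hA => hA.2.1

end Pool.Agent.H673R3.UC
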