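import Pool.Agent.H673R3.UC.Defs
import Pool.Agent.H628R3.RO.M5
import Pool.Agent.H583R2.NC.KP

/-! Task Q1: probabilities for one pair. -/

namespace Pool.Agent.H673R3.UC

open MeasureTheory Pool.Agent.NPC Pool.Agent.H628R3.RO

open Pool.Agent.H628R3.RO.M2 in
private theorem Q1_hs (m : ℕ) {W h : Finset Cand} (hh : h ⊆ W) :
    prob (HitSet m W h) =
      ((1 / 2 : ℝ) ^ m) ^ h.card * (1 - (1 / 2 : ℝ) ^ m) ^ (W.card - h.card) := by
  classical
  have h1 : HitSet m W h =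
      {A | ∀ x ∈ allSpots m h, A x = true} ∩ NoHit m (W \ h) := by
    ext A
    simp only [HitSet, NoHit, Set.mem_inter_iff, Set.mem_ofPred_eq, Finset.mem_sdiff]
    have e : (∀ x ∈ allSpots m h, A x = true) ↔ ∀ κ ∈ h, Hit m κ A := by
      constructor
      · intro h2 κ hκ
        rw [hit_iff]
        intro x hx
        exact h2 x (mem_allSpots.2 ⟨κ, hκ, hx⟩)
      · intro h2 x hx
        obtain ⟨κ, hκ, hx'⟩ := mem_allSpots.1 hx
        exact (hit_iff.1 (h2 κ hκ)) x hx'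
    rw [e]
    constructor
    · intro h3
      exact ⟨fun κ hκ => (h3 κ (hh hκ)).2 hκ, fun κ hκ h4 => hκ.2 ((h3 κ hκ.1).1 h4)⟩
    · rintro ⟨h3, h4⟩
      refine fun κ hκ => ⟨fun h5 => ?_, fun h5 => h3 κ h5⟩
      by_contra h6
      exact h4 κ ⟨hκ, h6⟩ h5
  have h2 : plant (allSpots m h) ⁻¹' NoHit m (W \ h) = NoHit m (W \ h) := by
    ext A
    simp only [NoHit, Set.mem_preimage, Set.mem_ofPred_eq, Finset.mem_sdiff]
    refine forall₂_congr fun κ hκ => not_congr (hit_plant hκ.2 A)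
  have h3 := prob_noHit_aux (S := Set.univ) MeasurableSet.univ m (W \ h) (by simp)
  have h4 : prob Set.univ = 1 := by
    unfold prob
    simp
  rw [h1, prob_plant (measurableSet_noHit m (W \ h)), card_allSpots, pow_mul, h2]
  rw [Set.univ_inter, h4, one_mul, Finset.card_sdiff_of_subset hh] at h3
  rw [h3]

private theorem Q1_sum (m k : ℕ) (W : Finset Cand) (F : Finset (Finset Cand))
    (hF : ∀ h ∈ F, h ⊆ W ∧ h.card = k) :
    prob (⋃ h ∈ F, HitSet m W h) =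
      F.card * (((1 / 2 : ℝ) ^ m) ^ k * (1 - (1 / 2 : ℝ) ^ m) ^ (W.card - k)) := by
  classical
  have h2 : (F : Set (Finset Cand)).PairwiseDisjoint (fun h => HitSet m W h) := by
    intro h hh h' hh' hne
    rw [Function.onFun, Set.disjoint_left]
    intro A hA hA'
    apply hne
    have e1 := (hF h hh).1
    have e2 := (hF h' hh').1
    ext κ
    constructor
    · intro hκ
      exact (hA' κ (e1 hκ)).1 ((hA κ (e1 hκ)).2 hκ)
    · intro hκ
      exact (hA κ (e2 hκ)).1 ((hA' κ (e2 hκ)).2 hκ)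
  have h3 : prob (⋃ h ∈ F, HitSet m W h) = ∑ h ∈ F, prob (HitSet m W h) := by
    unfold prob
    rw [measureReal_biUnion_finset h2 fun h _ => M2.measurableSet_hitSet m W h]
  rw [h3, Finset.sum_congr rfl fun h hh => by rw [Q1_hs m (hF h hh).1, (hF h hh).2],
    Finset.sum_const, nsmul_eq_mul]

theorem prob_hit_one (m : ℕ) (W : Finset Cand) :
    prob {A | ∃ κ ∈ W, A ∈ HitSet m W {κ}} =
      W.card * (1 / 2) ^ m * (1 - (1 / 2 : ℝ) ^ m) ^ (W.card - 1) := by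
  classical
  have h1 : {A | ∃ κ ∈ W, A ∈ HitSet m W {κ}} = ⋃ h ∈ W.powersetCard 1, HitSet m W h := by
    ext A
    simp only [Set.mem_iUnion, exists_prop, Finset.mem_powersetCard, Set.mem_ofPred_eq]
    constructor
    · rintro ⟨κ, hκ, hA⟩
      exact ⟨{κ}, ⟨Finset.singleton_subset_iff.2 hκ, Finset.card_singleton κ⟩, hA⟩
    · rintro ⟨h, ⟨hs, hc⟩, hA⟩
      obtain ⟨κ, rfl⟩ := Finset.card_eq_one.1 hc
      exact ⟨κ, Finset.singleton_subset_iff.1 hs, hA⟩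
  rw [h1, Q1_sum m 1 W _ fun h hh => Finset.mem_powersetCard.1 hh, Finset.card_powersetCard,
    Nat.choose_one_right]
  ring

theorem prob_hit_LR (m : ℕ) {W₀ W₁ : Finset Cand} (hd : Disjoint W₀ W₁) :
    prob {A | ∃ κ ∈ W₀, ∃ κ' ∈ W₁, A ∈ HitSet m (W₀ ∪ W₁) {κ, κ'}} =
      W₀.card * W₁.card * ((1 / 2) ^ m) ^ 2 *
        (1 - (1 / 2 : ℝ) ^ m) ^ (W₀.card + W₁.card - 2) := by
  classical
  set F : Finset (Finset Cand) := (W₀ ×ˢ W₁).image fun p => {p.1, p.2} with hF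
  have hne : ∀ κ ∈ W₀, ∀ κ' ∈ W₁, κ ≠ κ' := by
    intro κ hκ κ' hκ' he
    exact Finset.disjoint_left.1 hd hκ (he ▸ hκ')
  have h1 : {A | ∃ κ ∈ W₀, ∃ κ' ∈ W₁, A ∈ HitSet m (W₀ ∪ W₁) {κ, κ'}} =
      ⋃ h ∈ F, HitSet m (W₀ ∪ W₁) h := by
    ext A
    simp only [hF, Set.mem_iUnion, exists_prop, Finset.mem_image, Finset.mem_product,
      Set.mem_ofPred_eq]
    constructor
    · rintro ⟨κ, hκ, κ', hκ', hA⟩
      exact ⟨{κ, κ'}, ⟨(κ, κ'), ⟨hκ, hκ'⟩, rfl⟩, hA⟩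
    · rintro ⟨h, ⟨p, hp, rfl⟩, hA⟩
      exact ⟨p.1, hp.1, p.2, hp.2, hA⟩
  have h2 : ∀ h ∈ F, h ⊆ W₀ ∪ W₁ ∧ h.card = 2 := by
    intro h hh
    rw [hF, Finset.mem_image] at hh
    obtain ⟨⟨κ, κ'⟩, hp, rfl⟩ := hh
    rw [Finset.mem_product] at hp
    refine ⟨?_, Finset.card_pair (hne κ hp.1 κ' hp.2)⟩
    intro x hx
    rw [Finset.mem_insert, Finset.mem_singleton] at hx
    rw [Finset.mem_union]
    rcases hx with rfl | rfl
    · exact Or.inl hp.1
    · exact Or.inr hp.2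
  have h3 : F.card = W₀.card * W₁.card := by
    rw [hF, Finset.card_image_of_injOn, Finset.card_product]
    rintro ⟨a, b⟩ hp ⟨a', b'⟩ hp' he
    rw [Finset.mem_coe, Finset.mem_product] at hp hp'
    simp only at hp hp' he
    have ha : a ∈ ({a', b'} : Finset Cand) := by rw [← he]; simp
    have hb : b ∈ ({a', b'} : Finset Cand) := by rw [← he]; simp
    rw [Finset.mem_insert, Finset.mem_singleton] at ha hb
    have ha' : a = a' := ha.resolve_right (hne a hp.1 b' hp'.2)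
    have hb' : b = b' := hb.resolve_left fun e => hne a' hp'.1 b hp.2 e.symm
    rw [ha', hb']
  rw [h1, Q1_sum m 2 _ F h2, h3, Finset.card_union_of_disjoint hd]
  push_cast
  ring

theorem prob_hit_LL (m : ℕ) {W₀ W₁ : Finset Cand} (hd : Disjoint W₀ W₁) :
    prob {A | ∃ κ ∈ W₀, ∃ κ' ∈ W₀, κ ≠ κ' ∧ A ∈ HitSet m (W₀ ∪ W₁) {κ, κ'}} =
      W₀.card * (W₀.card - 1) / 2 * ((1 / 2) ^ m) ^ 2 *
        (1 - (1 / 2 : ℝ) ^ m) ^ (W₀.card + W₁.card - 2) := by
  classical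
  have h1 : {A | ∃ κ ∈ W₀, ∃ κ' ∈ W₀, κ ≠ κ' ∧ A ∈ HitSet m (W₀ ∪ W₁) {κ, κ'}} =
      ⋃ h ∈ W₀.powersetCard 2, HitSet m (W₀ ∪ W₁) h := by
    ext A
    simp only [Set.mem_iUnion, exists_prop, Finset.mem_powersetCard, Set.mem_ofPred_eq]
    constructor
    · rintro ⟨κ, hκ, κ', hκ', hne, hA⟩
      refine ⟨{κ, κ'}, ⟨?_, Finset.card_pair hne⟩, hA⟩
      intro x hx
      rw [Finset.mem_insert, Finset.mem_singleton] at hx
      rcases hx with rfl | rfl
      · exact hκ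
      · exact hκ'
    · rintro ⟨h, ⟨hs, hc⟩, hA⟩
      obtain ⟨κ, κ', hne, rfl⟩ := Finset.card_eq_two.1 hc
      exact ⟨κ, hs (by simp), κ', hs (by simp), hne, hA⟩
  rw [h1, Q1_sum m 2 _ _ fun h hh => ⟨((Finset.mem_powersetCard.1 hh).1.trans
    Finset.subset_union_left), (Finset.mem_powersetCard.1 hh).2⟩, Finset.card_powersetCard,
    Finset.card_union_of_disjoint hd, Nat.cast_choose_two]
  ring

end Pool.Agent.H673R3.UC
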