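import Pool.Agent.H673R3.UC.Q1

/-! Task Q2: the key inequality for one pair, first version. -/

namespace Pool.Agent.H673R3.UC

open MeasureTheory Pool.Agent.NPC Pool.Agent.H628R3.RO Pool.Agent.H628R3.RO.M2

namespace Q2A

/-- the sum of the probabilities of different sets of hits -/
theorem prob_sum_hitSet {S : Set Oracle} (hS : MeasurableSet S) (m : ℕ) (W : Finset Cand)
    {ι : Type} (F : Finset ι) (g : ι → Finset Cand) (hg : ∀ i ∈ F, g i ⊆ W)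
    (hinj : ∀ i ∈ F, ∀ j ∈ F, g i = g j → i = j) :
    ∑ i ∈ F, prob (S ∩ HitSet m W (g i)) = prob (S ∩ {A | ∃ i ∈ F, A ∈ HitSet m W (g i)}) := by
  have h1 : S ∩ {A | ∃ i ∈ F, A ∈ HitSet m W (g i)} = ⋃ i ∈ F, S ∩ HitSet m W (g i) := by
    ext A
    simp only [Set.mem_iUnion, Set.mem_inter_iff, exists_prop, Set.mem_ofPred_eq]
    constructor
    · rintro ⟨h1, i, hi, h2⟩
      exact ⟨i, hi, h1, h2⟩
    · rintro ⟨i, hi, h1, h2⟩
      exact ⟨h1, i, hi, h2⟩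
  have h2 : (F : Set ι).PairwiseDisjoint (fun i => S ∩ HitSet m W (g i)) := by
    intro i hi j hj hne
    rw [Function.onFun, Set.disjoint_left]
    rintro A ⟨_, hA⟩ ⟨_, hA'⟩
    apply hne
    apply hinj i hi j hj
    ext κ
    constructor
    · intro hκ
      exact (hA' κ (hg i hi hκ)).1 ((hA κ (hg i hi hκ)).2 hκ)
    · intro hκ
      exact (hA κ (hg j hj hκ)).1 ((hA' κ (hg j hj hκ)).2 hκ)
  rw [h1]
  unfold prob
  rw [measureReal_biUnion_finset h2 fun i _ => hS.inter (measurableSet_hitSet m W (g i))]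

/-- worlds with the set of hits `g i` for some `i`, and worlds without hits -/
theorem sum_hit {S : Set Oracle} (hS : MeasurableSet S) (m : ℕ) (W : Finset Cand)
    {ι : Type} (F : Finset ι) (g : ι → Finset Cand) (hg : ∀ i ∈ F, g i ⊆ W) (c : ℕ)
    (hc : ∀ i ∈ F, (g i).card = c) (hinj : ∀ i ∈ F, ∀ j ∈ F, g i = g j → i = j) :
    ((1 / 2 : ℝ) ^ m) ^ c * ∑ i ∈ F, prob (plant (allSpots m (g i)) ⁻¹' S ∩ NoHit m W) =
      (1 - (1 / 2 : ℝ) ^ m) ^ c * prob (S ∩ {A | ∃ i ∈ F, A ∈ HitSet m W (g i)}) := by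
  rw [← prob_sum_hitSet hS m W F g hg hinj, Finset.mul_sum, Finset.mul_sum]
  refine Finset.sum_congr rfl fun i hi => ?_
  have h1 := prob_hitSet hS m (hg i hi)
  rw [hc i hi] at h1
  rw [← h1, mul_comm]

theorem num {w t q u Pη X Y Zs Es : ℝ} (hw : 0 < w) (ht : 0 ≤ t) (hq : 0 < q) (hq1 : q < 1)
    (hu : 0 < u) (hP : 0 ≤ Pη) (hY : 0 ≤ Y)
    (h : w * (w * (Pη * (u * (1 - q) ^ 2))) ≤
      w * Zs + Es + 4 * (w * (t * (Pη * (u * (1 - q) ^ 2)))))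
    (hZ : q ^ 1 * Zs = (1 - q) ^ 1 * Y) (hE : q ^ 2 * Es = (1 - q) ^ 2 * X) :
    (2 * w * q * (u * (1 - q))) / 4 * ((1 - 16 * t / w) * Pη - X / (w ^ 2 * q ^ 2 * u)) ≤ Y := by
  have h1q : 0 < 1 - q := by linarith
  have hZs : Zs = (1 - q) * Y / q := by
    rw [eq_div_iff hq.ne']; linarith
  have hEs : Es = (1 - q) ^ 2 * X / q ^ 2 := by
    rw [eq_div_iff (by positivity)]; linarith
  rw [hZs, hEs] at h
  set c : ℝ := w * q * (u * (1 - q)) with hc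
  have hc0 : 0 ≤ c := by positivity
  have h1 : c * ((1 - 4 * t / w) * Pη - X / (w ^ 2 * q ^ 2 * u)) ≤ Y := by
    have h2 := mul_le_mul_of_nonneg_left h (show 0 ≤ q / (w * (1 - q)) by positivity)
    have e1 : q / (w * (1 - q)) * (w * (w * (Pη * (u * (1 - q) ^ 2)))) = c * Pη := by
      rw [hc]; field_simp
    have e2 : q / (w * (1 - q)) * (w * ((1 - q) * Y / q) + (1 - q) ^ 2 * X / q ^ 2 +
        4 * (w * (t * (Pη * (u * (1 - q) ^ 2))))) =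
        Y + c * (X / (w ^ 2 * q ^ 2 * u)) + c * (4 * t / w) * Pη := by
      rw [hc]; field_simp
    rw [e1, e2] at h2
    nlinarith
  by_cases h3 : (1 - 16 * t / w) * Pη - X / (w ^ 2 * q ^ 2 * u) ≤ 0
  · refine le_trans (mul_nonpos_of_nonneg_of_nonpos (by positivity) h3) hY
  · push Not at h3
    have h4 : 0 ≤ t / w * Pη := by positivity
    have h5 : (1 - 16 * t / w) * Pη - X / (w ^ 2 * q ^ 2 * u) ≤
        (1 - 4 * t / w) * Pη - X / (w ^ 2 * q ^ 2 * u) := by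
      have : (1 - 4 * t / w) * Pη - (1 - 16 * t / w) * Pη = 12 * (t / w * Pη) := by ring
      linarith
    calc (2 * w * q * (u * (1 - q))) / 4 * ((1 - 16 * t / w) * Pη - X / (w ^ 2 * q ^ 2 * u))
        = c * ((1 - 16 * t / w) * Pη - X / (w ^ 2 * q ^ 2 * u)) / 2 := by rw [hc]; ring
      _ ≤ c * ((1 - 16 * t / w) * Pη - X / (w ^ 2 * q ^ 2 * u)) := by
          have := mul_nonneg hc0 h3.le
          linarith
      _ ≤ c * ((1 - 4 * t / w) * Pη - X / (w ^ 2 * q ^ 2 * u)) :=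
          mul_le_mul_of_nonneg_left h5 hc0
      _ ≤ Y := h1

end Q2A

open Q2A

theorem key_pairN {K : Set (List Bool)} (hK : K.Finite) {Z E η : Set Oracle} (hZ : Loc K Z)
    (hE : Loc K E) (hη : Loc K η) {W₀ W₁ : Finset Cand} (hd : Disjoint W₀ W₁) {m w : ℕ}
    (hm : 1 ≤ m) (hw0 : W₀.card = w) (hw1 : W₁.card = w) (hw : 2 ≤ w) (t : ℕ) (ht : 1 ≤ t)
    (hW : ∀ κ ∈ W₀ ∪ W₁, ∀ l < m, pos κ.1 l κ.2 ∈ K)
    (hη' : ∀ (B : Oracle) (h : Finset Cand), h ⊆ W₀ ∪ W₁ →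
      (plant (allSpots m h) B ∈ η ↔ B ∈ η))
    (hkey : ∀ B ∈ NoHit m (W₀ ∪ W₁), B ∈ η → ∃ (T : Finset Cand) (T' : Cand → Finset Cand),
      T.card ≤ t ∧ (∀ κ, (T' κ).card ≤ t) ∧ ∀ κ ∈ W₀, ∀ κ' ∈ W₁, κ ∉ T → κ' ∉ T →
        κ' ∉ T' κ → κ ∉ T' κ' → plant (allSpots m {κ}) B ∈ Z →
        plant (allSpots m {κ'}) B ∈ Z → plant (allSpots m {κ, κ'}) B ∈ E) :
    (2 * w * (1 / 2) ^ m * (1 - (1 / 2 : ℝ) ^ m) ^ (2 * w - 1)) / 4 *
      ((1 - 16 * t / w) * prob η -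
        prob (η ∩ ({A | ∃ κ ∈ W₀, ∃ κ' ∈ W₁, A ∈ HitSet m (W₀ ∪ W₁) {κ, κ'}} ∩ E)) /
          ((w : ℝ) ^ 2 * ((1 / 2) ^ m) ^ 2 * (1 - (1 / 2 : ℝ) ^ m) ^ (2 * w - 2))) ≤
      prob (η ∩ ({A | ∃ κ ∈ W₀ ∪ W₁, A ∈ HitSet m (W₀ ∪ W₁) {κ}} ∩ Zᶜ)) := by
  classical
  set q : ℝ := (1 / 2) ^ m with hq
  have hq0 : 0 < q := by positivity
  have hq1 : q ≤ 1 / 2 := by
    rw [hq]
    calc (1 / 2 : ℝ) ^ m ≤ (1 / 2) ^ 1 := pow_le_pow_of_le_one (by norm_num) (by norm_num) hm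
      _ = 1 / 2 := by norm_num
  set N := NoHit m (W₀ ∪ W₁) with hNdef
  have hN : Loc K N := loc_noHit hW
  have hZm := measurableSet_of_loc hK hZ
  have hEm := measurableSet_of_loc hK hE
  have hηm := measurableSet_of_loc hK hη
  have hNm : MeasurableSet N := measurableSet_noHit m _
  -- the choice of `T` and `T'`
  have hch : ∀ B : Oracle, ∃ (T : Finset Cand) (T' : Cand → Finset Cand),
      T.card ≤ t ∧ (∀ κ, (T' κ).card ≤ t) ∧ (B ∈ N → B ∈ η →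
      ∀ κ ∈ W₀, ∀ κ' ∈ W₁, κ ∉ T → κ' ∉ T →
        κ' ∉ T' κ → κ ∉ T' κ' → plant (allSpots m {κ}) B ∈ Z →
        plant (allSpots m {κ'}) B ∈ Z → plant (allSpots m {κ, κ'}) B ∈ E) := by
    intro B
    by_cases h1 : B ∈ N ∧ B ∈ η
    · obtain ⟨T, T', hT, hT', hT2⟩ := hkey B h1.1 h1.2
      exact ⟨T, T', hT, hT', fun _ _ => hT2⟩
    · exact ⟨∅, fun _ => ∅, by simp, by simp, fun h2 h3 => absurd ⟨h2, h3⟩ h1⟩
  choose T T' hT1 hT1' hT2 using hch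
  have hmask : ∀ B : Oracle, ∀ x ∈ K, mask K B x = B x := fun B x hx => mask_eq hx
  set Ak : Cand → Set Oracle := fun κ => {B | κ ∈ T (mask K B)} with hAk
  have hAl : ∀ κ, Loc K (Ak κ) := by
    intro κ A A' h
    simp only [hAk, Set.mem_ofPred_eq, mask_congr h]
  have hAm : ∀ κ, MeasurableSet (Ak κ) := fun κ => measurableSet_of_loc hK (hAl κ)
  set Ak' : Cand → Cand → Set Oracle := fun κ x => {B | x ∈ T' (mask K B) κ} with hAk'
  have hAl' : ∀ κ x, Loc K (Ak' κ x) := by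
    intro κ x A A' hA
    simp only [hAk', Set.mem_ofPred_eq, mask_congr hA]
  have hAm' : ∀ κ x, MeasurableSet (Ak' κ x) :=
    fun κ x => measurableSet_of_loc hK (hAl' κ x)
  set ν : ℝ := prob (η ∩ N) with hν
  have hν0 : 0 ≤ ν := prob_nonneg _
  have hηN : ν = prob η * (1 - q) ^ (2 * w) := by
    have h1 : prob (η ∩ N) = prob η * (1 - q) ^ (W₀ ∪ W₁).card := by
      apply prob_noHit_aux hηm
      intro κ hκ A
      rw [← allSpots_singleton]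
      exact hη' A {κ} (Finset.singleton_subset_iff.2 hκ)
    rw [hν, h1, Finset.card_union_of_disjoint hd, hw0, hw1, two_mul]
  set z : Cand → ℝ := fun κ => prob (plant (allSpots m {κ}) ⁻¹' (η ∩ Zᶜ) ∩ N) with hz
  set e : Cand → Cand → ℝ := fun κ κ' =>
    prob (plant (allSpots m {κ, κ'}) ⁻¹' (η ∩ E) ∩ N) with he
  set p : Cand → ℝ := fun κ => prob (η ∩ N ∩ Ak κ) with hp
  set p' : Cand → Cand → ℝ := fun κ x => prob (η ∩ N ∩ Ak' κ x) with hp'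
  -- the bound for one pair of candidates
  have hone : ∀ κ ∈ W₀, ∀ κ' ∈ W₁,
      ν ≤ z κ + (z κ' + (e κ κ' + (p κ + (p κ' + (p' κ κ' + p' κ' κ))))) := by
    intro κ hκ κ' hκ'
    have hs0 : ({κ} : Finset Cand) ⊆ W₀ ∪ W₁ :=
      Finset.singleton_subset_iff.2 (Finset.mem_union_left _ hκ)
    have hs1 : ({κ'} : Finset Cand) ⊆ W₀ ∪ W₁ :=
      Finset.singleton_subset_iff.2 (Finset.mem_union_right _ hκ')
    have hs2 : ({κ, κ'} : Finset Cand) ⊆ W₀ ∪ W₁ := by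
      intro x hx
      rcases Finset.mem_insert.1 hx with rfl | hx
      · exact Finset.mem_union_left _ hκ
      · rw [Finset.mem_singleton] at hx
        rw [hx]
        exact Finset.mem_union_right _ hκ'
    have h1 : η ∩ N ⊆ (plant (allSpots m {κ}) ⁻¹' (η ∩ Zᶜ) ∩ N) ∪
        ((plant (allSpots m {κ'}) ⁻¹' (η ∩ Zᶜ) ∩ N) ∪
        ((plant (allSpots m {κ, κ'}) ⁻¹' (η ∩ E) ∩ N) ∪ ((η ∩ N ∩ Ak κ) ∪ ((η ∩ N ∩ Ak κ') ∪
        ((η ∩ N ∩ Ak' κ κ') ∪ (η ∩ N ∩ Ak' κ' κ)))))) := by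
      rintro B ⟨hBη, hBN⟩
      by_cases c1 : plant (allSpots m {κ}) B ∈ Z
      swap
      · exact Or.inl ⟨⟨(hη' B _ hs0).2 hBη, c1⟩, hBN⟩
      by_cases c2 : plant (allSpots m {κ'}) B ∈ Z
      swap
      · exact Or.inr (Or.inl ⟨⟨(hη' B _ hs1).2 hBη, c2⟩, hBN⟩)
      by_cases c3 : B ∈ Ak κ
      · exact Or.inr (Or.inr (Or.inr (Or.inl ⟨⟨hBη, hBN⟩, c3⟩)))
      by_cases c4 : B ∈ Ak κ'
      · exact Or.inr (Or.inr (Or.inr (Or.inr (Or.inl ⟨⟨hBη, hBN⟩, c4⟩))))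
      by_cases c5 : B ∈ Ak' κ κ'
      · exact Or.inr (Or.inr (Or.inr (Or.inr (Or.inr (Or.inl ⟨⟨hBη, hBN⟩, c5⟩)))))
      by_cases c6 : B ∈ Ak' κ' κ
      · exact Or.inr (Or.inr (Or.inr (Or.inr (Or.inr (Or.inr ⟨⟨hBη, hBN⟩, c6⟩)))))
      refine Or.inr (Or.inr (Or.inl ⟨⟨(hη' B _ hs2).2 hBη, ?_⟩, hBN⟩))
      have h2 : mask K B ∈ N := (hN _ _ (hmask B)).2 hBN
      have h3 : mask K B ∈ η := (hη _ _ (hmask B)).2 hBη
      have h4 := hT2 (mask K B) h2 h3 κ hκ κ' hκ' c3 c4 c5 c6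
        ((loc_plant hZ (allSpots m {κ}) _ _ (hmask B)).2 c1)
        ((loc_plant hZ (allSpots m {κ'}) _ _ (hmask B)).2 c2)
      exact (loc_plant hE (allSpots m {κ, κ'}) _ _ (hmask B)).1 h4
    refine (prob_mono h1).trans ?_
    refine (prob_union_le _ _).trans (add_le_add le_rfl ?_)
    refine (prob_union_le _ _).trans (add_le_add le_rfl ?_)
    refine (prob_union_le _ _).trans (add_le_add le_rfl ?_)
    refine (prob_union_le _ _).trans (add_le_add le_rfl ?_)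
    refine (prob_union_le _ _).trans (add_le_add le_rfl ?_)
    exact prob_union_le _ _
  have hcount : ∀ W : Finset Cand, ∑ κ ∈ W, p κ ≤ t * ν := by
    intro W
    apply sum_prob_le (hηm.inter hNm) W Ak hAm t
    intro B _
    exact ⟨T (mask K B), hT1 _, fun κ _ hκ => hκ⟩
  have hcount' : ∀ (W : Finset Cand) (κ : Cand), ∑ x ∈ W, p' κ x ≤ t * ν := by
    intro W κ
    apply sum_prob_le (hηm.inter hNm) W (Ak' κ) (hAm' κ) t
    intro B _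
    exact ⟨T' (mask K B) κ, hT1' _ _, fun κ _ hκ => hκ⟩
  -- the sum over all pairs
  have hsum : (w : ℝ) * (w * ν) ≤ w * (∑ κ ∈ W₀ ∪ W₁, z κ) +
      (∑ x ∈ W₀ ×ˢ W₁, e x.1 x.2) + 4 * (w * (t * ν)) := by
    have h1 : ∑ x ∈ W₀ ×ˢ W₁, ν ≤ ∑ x ∈ W₀ ×ˢ W₁,
        (z x.1 + (z x.2 + (e x.1 x.2 + (p x.1 + (p x.2 + (p' x.1 x.2 + p' x.2 x.1)))))) :=
      Finset.sum_le_sum fun x hx => hone x.1 (Finset.mem_product.1 hx).1 x.2
        (Finset.mem_product.1 hx).2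
    simp only [Finset.sum_add_distrib] at h1
    rw [Finset.sum_const, Finset.card_product, hw0, hw1, nsmul_eq_mul] at h1
    have s1 : ∀ f : Cand → ℝ, ∑ x ∈ W₀ ×ˢ W₁, f x.1 = w * ∑ κ ∈ W₀, f κ := by
      intro f
      rw [Finset.sum_product, Finset.mul_sum]
      refine Finset.sum_congr rfl fun κ _ => ?_
      change ∑ _y ∈ W₁, f κ = w * f κ
      rw [Finset.sum_const, hw1, nsmul_eq_mul]
    have s2 : ∀ f : Cand → ℝ, ∑ x ∈ W₀ ×ˢ W₁, f x.2 = w * ∑ κ ∈ W₁, f κ := by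
      intro f
      rw [Finset.sum_product]
      change ∑ _x ∈ W₀, ∑ κ ∈ W₁, f κ = w * ∑ κ ∈ W₁, f κ
      rw [Finset.sum_const, hw0, nsmul_eq_mul]
    rw [s1 z, s2 z, s1 p, s2 p] at h1
    have h2 := mul_le_mul_of_nonneg_left (hcount W₀) (Nat.cast_nonneg (α := ℝ) w)
    have h3 := mul_le_mul_of_nonneg_left (hcount W₁) (Nat.cast_nonneg (α := ℝ) w)
    have h4 : ∑ x ∈ W₀ ×ˢ W₁, p' x.1 x.2 ≤ w * (t * ν) := by
      rw [Finset.sum_product]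
      calc ∑ κ ∈ W₀, ∑ κ' ∈ W₁, p' κ κ' ≤ ∑ κ ∈ W₀, (t : ℝ) * ν :=
            Finset.sum_le_sum fun κ _ => hcount' W₁ κ
        _ = w * (t * ν) := by rw [Finset.sum_const, hw0, nsmul_eq_mul]
    have h5 : ∑ x ∈ W₀ ×ˢ W₁, p' x.2 x.1 ≤ w * (t * ν) := by
      rw [Finset.sum_product_right]
      calc ∑ κ' ∈ W₁, ∑ κ ∈ W₀, p' κ' κ ≤ ∑ κ' ∈ W₁, (t : ℝ) * ν :=
            Finset.sum_le_sum fun κ _ => hcount' W₀ κ
        _ = w * (t * ν) := by rw [Finset.sum_const, hw1, nsmul_eq_mul]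
    rw [Finset.sum_union hd, mul_add]
    push_cast at h1
    nlinarith
  -- one hit
  have hZs := sum_hit (hηm.inter hZm.compl) m (W₀ ∪ W₁) (W₀ ∪ W₁) (fun κ => {κ})
    (fun κ hκ => Finset.singleton_subset_iff.2 hκ) 1 (fun κ _ => Finset.card_singleton κ)
    (fun κ _ κ' _ h => Finset.singleton_injective h)
  -- two hits
  have hne : ∀ x ∈ W₀ ×ˢ W₁, x.1 ≠ x.2 := by
    intro x hx h
    rw [Finset.mem_product] at hx
    exact Finset.disjoint_left.1 hd hx.1 (h ▸ hx.2)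
  have hEs := sum_hit (hηm.inter hEm) m (W₀ ∪ W₁) (W₀ ×ˢ W₁) (fun x => {x.1, x.2})
    (fun x hx => by
      rw [Finset.mem_product] at hx
      intro y hy
      rcases Finset.mem_insert.1 hy with rfl | hy
      · exact Finset.mem_union_left _ hx.1
      · rw [Finset.mem_singleton] at hy
        rw [hy]
        exact Finset.mem_union_right _ hx.2) 2
    (fun x hx => Finset.card_pair (hne x hx))
    (fun x hx y hy h => by
      rw [Finset.mem_product] at hx hy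
      have h1 : x.1 ∈ ({y.1, y.2} : Finset Cand) := by
        rw [← h]; exact Finset.mem_insert_self _ _
      have h2 : x.2 ∈ ({y.1, y.2} : Finset Cand) := by
        rw [← h]; exact Finset.mem_insert_of_mem (Finset.mem_singleton_self _)
      rw [Finset.mem_insert, Finset.mem_singleton] at h1 h2
      have h3 : x.1 = y.1 := by
        rcases h1 with h1 | h1
        · exact h1
        · exact absurd (h1 ▸ hy.2) (Finset.disjoint_left.1 hd hx.1)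
      have h4 : x.2 = y.2 := by
        rcases h2 with h2 | h2
        · exact absurd hx.2 (Finset.disjoint_left.1 hd (h2 ▸ hy.1))
        · exact h2
      exact Prod.ext h3 h4)
  rw [← hq] at hZs hEs
  have hset1 : (η ∩ Zᶜ) ∩ {A | ∃ κ ∈ W₀ ∪ W₁, A ∈ HitSet m (W₀ ∪ W₁) {κ}} =
      η ∩ ({A | ∃ κ ∈ W₀ ∪ W₁, A ∈ HitSet m (W₀ ∪ W₁) {κ}} ∩ Zᶜ) := by
    rw [Set.inter_assoc, Set.inter_comm Zᶜ]
  have hset2 : (η ∩ E) ∩ {A | ∃ x ∈ W₀ ×ˢ W₁, A ∈ HitSet m (W₀ ∪ W₁) {x.1, x.2}} =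
      η ∩ ({A | ∃ κ ∈ W₀, ∃ κ' ∈ W₁, A ∈ HitSet m (W₀ ∪ W₁) {κ, κ'}} ∩ E) := by
    ext A
    simp only [Set.mem_inter_iff, Set.mem_ofPred_eq, Finset.mem_product]
    constructor
    · rintro ⟨⟨h1, h2⟩, x, ⟨h3, h4⟩, h5⟩
      exact ⟨h1, ⟨x.1, h3, x.2, h4, h5⟩, h2⟩
    · rintro ⟨h1, ⟨κ, h3, κ', h4, h5⟩, h2⟩
      exact ⟨⟨h1, h2⟩, (κ, κ'), ⟨h3, h4⟩, h5⟩
  rw [hset1] at hZs
  rw [hset2] at hEs
  have hw' : (0 : ℝ) < w := by exact_mod_cast (by omega : 0 < w)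
  have hu0 : 0 < (1 - q) ^ (2 * w - 2) := by apply pow_pos; linarith
  have hu1 : (1 - q) ^ (2 * w - 1) = (1 - q) ^ (2 * w - 2) * (1 - q) := by
    rw [← pow_succ]; congr 1; omega
  have hu2 : (1 - q) ^ (2 * w) = (1 - q) ^ (2 * w - 2) * (1 - q) ^ 2 := by
    rw [← pow_add]; congr 1; omega
  rw [hηN, hu2] at hsum
  rw [hu1]
  exact num hw' (Nat.cast_nonneg t) hq0 (by linarith) hu0 (prob_nonneg _) (prob_nonneg _)
    hsum hZs hEs

end Pool.Agent.H673R3.UC
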