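import Pool.Agent.H673R3.UC.Q1

/-! Task Q3: the key inequality for one pair, second version. -/

namespace Pool.Agent.H673R3.UC

open MeasureTheory Pool.Agent.NPC Pool.Agent.H628R3.RO

/-- the finite combinatorics: number of ordered pairs -/
private theorem Q3_ordered {α : Type*} [DecidableEq α] (W₀ : Finset α) (P : Finset α → Prop)
    [DecidablePred P] :
    ((W₀.offDiag).filter (fun x => P {x.1, x.2})).card ≤
      2 * ((W₀.powersetCard 2).filter P).card := by
  classical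
  refine Finset.card_le_mul_card_image_of_maps_to (f := fun x : α × α => ({x.1, x.2} : Finset α))
    ?_ 2 ?_
  · intro x hx
    rw [Finset.mem_filter, Finset.mem_offDiag] at hx
    rw [Finset.mem_filter, Finset.mem_powersetCard]
    refine ⟨⟨?_, Finset.card_pair hx.1.2.2⟩, hx.2⟩
    intro y hy
    rw [Finset.mem_insert, Finset.mem_singleton] at hy
    rcases hy with rfl | rfl
    · exact hx.1.1
    · exact hx.1.2.1
  · intro b hb
    rw [Finset.mem_filter, Finset.mem_powersetCard] at hb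
    obtain ⟨x, y, hxy, rfl⟩ := Finset.card_eq_two.1 hb.1.2
    refine (Finset.card_le_card (t := {(x, y), (y, x)}) ?_).trans Finset.card_le_two
    intro z hz
    rw [Finset.mem_filter, Finset.mem_filter, Finset.mem_offDiag] at hz
    obtain ⟨⟨⟨_, _, hne⟩, _⟩, he⟩ := hz
    have h1 : z.1 ∈ ({x, y} : Finset α) := by rw [← he]; simp
    have h2 : z.2 ∈ ({x, y} : Finset α) := by rw [← he]; simp
    rw [Finset.mem_insert, Finset.mem_singleton] at h1 h2 ⊢
    rcases h1 with h1 | h1 <;> rcases h2 with h2 | h2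
    · exact absurd (h1.trans h2.symm) hne
    · exact Or.inl (Prod.ext h1 h2)
    · exact Or.inr (Prod.ext h1 h2)
    · exact absurd (h1.trans h2.symm) hne

private theorem Q3_comb {α : Type*} [DecidableEq α] (W₀ W₁ : Finset α) {w t : ℕ}
    (hw0 : W₀.card = w) (hw1 : W₁.card = w) (hw : 2 ≤ w) (ht : 1 ≤ t) (G : α → Prop)
    [DecidablePred G] (P : Finset α → Prop) [DecidablePred P] (T : Finset α) (T' : α → Finset α)
    (hT : T.card ≤ t) (hT' : ∀ κ, (T' κ).card ≤ t)
    (h : ∀ κ ∈ W₀, ∀ κ' ∈ W₀, ∀ ρ ∈ W₁, κ ≠ κ' → κ ∉ T → κ' ∉ T → ρ ∉ T → κ' ∉ T' κ →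
      κ ∉ T' κ' → ρ ∉ T' κ → G κ → G κ' → G ρ → P {κ, κ'}) :
    (w : ℝ) / 2 * (1 - 16 * t / w) ≤
      (((W₀.filter (fun κ => ¬ G κ)).card : ℝ) + ((W₁.filter (fun κ => ¬ G κ)).card : ℝ)) +
        1 / ((w : ℝ) - 1) * (((W₀.powersetCard 2).filter P).card : ℝ) := by
  classical
  set G0 := W₀.filter G with hG0
  set G1 := W₁.filter G with hG1
  set g := ((W₀.powersetCard 2).filter P).card with hg
  have hw0' : (2 : ℝ) ≤ w := by exact_mod_cast hw
  have ht' : (1 : ℝ) ≤ t := by exact_mod_cast ht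
  have hwpos : (0 : ℝ) < w := by linarith
  have hw1pos : (0 : ℝ) < (w : ℝ) - 1 := by linarith
  have e0 : ((W₀.filter (fun κ => ¬ G κ)).card : ℝ) = w - G0.card := by
    have := Finset.card_filter_add_card_filter_not (s := W₀) (p := G)
    rw [hw0] at this
    have h2 : (G0.card : ℝ) + ((W₀.filter (fun κ => ¬ G κ)).card : ℝ) = w := by exact_mod_cast this
    linarith
  have e1 : ((W₁.filter (fun κ => ¬ G κ)).card : ℝ) = w - G1.card := by
    have := Finset.card_filter_add_card_filter_not (s := W₁) (p := G)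
    rw [hw1] at this
    have h2 : (G1.card : ℝ) + ((W₁.filter (fun κ => ¬ G κ)).card : ℝ) = w := by exact_mod_cast this
    linarith
  have ha : (G0.card : ℝ) ≤ w := by
    have : G0.card ≤ W₀.card := Finset.card_filter_le _ _
    rw [hw0] at this
    exact_mod_cast this
  have hb : (G1.card : ℝ) ≤ w := by
    have : G1.card ≤ W₁.card := Finset.card_filter_le _ _
    rw [hw1] at this
    exact_mod_cast this
  have hg0 : (0 : ℝ) ≤ g := Nat.cast_nonneg _
  have hlhs : (w : ℝ) / 2 * (1 - 16 * t / w) = w / 2 - 8 * t := by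
    field_simp
    ring
  rw [e0, e1, hlhs]
  by_cases hcase : G1.card ≤ 2 * t
  · have h1 : (G1.card : ℝ) ≤ 2 * t := by exact_mod_cast hcase
    have h2 : (0 : ℝ) ≤ 1 / ((w : ℝ) - 1) * g := by positivity
    linarith
  · -- the ordered pairs
    have hord : G0.card * G0.card ≤ G0.card + 4 * (t * w) + 2 * g := by
      have hsub : G0 ×ˢ G0 ⊆
          (G0.image (fun x => (x, x))) ∪ ((T ×ˢ W₀) ∪ ((W₀ ×ˢ T) ∪
            ((W₀.sigma (fun κ => T' κ)).image (fun x => (x.1, x.2)) ∪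
            ((W₀.sigma (fun κ => T' κ)).image (fun x => (x.2, x.1)) ∪
            ((W₀.offDiag).filter (fun x => P {x.1, x.2})))))) := by
        rintro ⟨κ, κ'⟩ hx
        rw [Finset.mem_product] at hx
        obtain ⟨hκ, hκ'⟩ := hx
        simp only [hG0, Finset.mem_filter] at hκ hκ'
        simp only [Finset.mem_union, Finset.mem_image, Finset.mem_product, Finset.mem_sigma,
          Finset.mem_filter, Finset.mem_offDiag]
        by_cases c1 : κ = κ'
        · left
          exact ⟨κ, by rw [hG0, Finset.mem_filter]; exact hκ, by rw [c1]⟩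
        right
        by_cases c2 : κ ∈ T
        · left; exact ⟨c2, hκ'.1⟩
        right
        by_cases c3 : κ' ∈ T
        · left; exact ⟨hκ.1, c3⟩
        right
        by_cases c4 : κ' ∈ T' κ
        · left; exact ⟨⟨κ, κ'⟩, ⟨hκ.1, c4⟩, rfl⟩
        right
        by_cases c5 : κ ∈ T' κ'
        · left; exact ⟨⟨κ', κ⟩, ⟨hκ'.1, c5⟩, rfl⟩
        right
        -- find `ρ`
        have hρ : ∃ ρ ∈ G1, ρ ∉ T ∪ T' κ := by
          by_contra hcon
          push Not at hcon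
          have h1 : G1.card ≤ (T ∪ T' κ).card := Finset.card_le_card hcon
          have h2 := Finset.card_union_le T (T' κ)
          have h3 := hT' κ
          omega
        obtain ⟨ρ, hρ1, hρ2⟩ := hρ
        rw [hG1, Finset.mem_filter] at hρ1
        rw [Finset.mem_union, not_or] at hρ2
        exact ⟨⟨hκ.1, hκ'.1, c1⟩, h κ hκ.1 κ' hκ'.1 ρ hρ1.1 c1 c2 c3 hρ2.1 c4 c5 hρ2.2 hκ.2 hκ'.2
          hρ1.2⟩
      have h1 := Finset.card_le_card hsub
      rw [Finset.card_product] at h1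
      have u1 := Finset.card_union_le (G0.image (fun x => (x, x))) ((T ×ˢ W₀) ∪ ((W₀ ×ˢ T) ∪
            ((W₀.sigma (fun κ => T' κ)).image (fun x => (x.1, x.2)) ∪
            ((W₀.sigma (fun κ => T' κ)).image (fun x => (x.2, x.1)) ∪
            ((W₀.offDiag).filter (fun x => P {x.1, x.2}))))))
      have u2 := Finset.card_union_le (T ×ˢ W₀) ((W₀ ×ˢ T) ∪
            ((W₀.sigma (fun κ => T' κ)).image (fun x => (x.1, x.2)) ∪
            ((W₀.sigma (fun κ => T' κ)).image (fun x => (x.2, x.1)) ∪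
            ((W₀.offDiag).filter (fun x => P {x.1, x.2})))))
      have u3 := Finset.card_union_le (W₀ ×ˢ T)
            ((W₀.sigma (fun κ => T' κ)).image (fun x => (x.1, x.2)) ∪
            ((W₀.sigma (fun κ => T' κ)).image (fun x => (x.2, x.1)) ∪
            ((W₀.offDiag).filter (fun x => P {x.1, x.2}))))
      have u4 := Finset.card_union_le
            ((W₀.sigma (fun κ => T' κ)).image (fun x => (x.1, x.2)))
            ((W₀.sigma (fun κ => T' κ)).image (fun x => (x.2, x.1)) ∪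
            ((W₀.offDiag).filter (fun x => P {x.1, x.2})))
      have u5 := Finset.card_union_le
            ((W₀.sigma (fun κ => T' κ)).image (fun x => (x.2, x.1)))
            ((W₀.offDiag).filter (fun x => P {x.1, x.2}))
      have v1 : (G0.image (fun x => (x, x))).card ≤ G0.card := Finset.card_image_le
      have v2 : (T ×ˢ W₀).card ≤ t * w := by
        rw [Finset.card_product, hw0]
        exact Nat.mul_le_mul_right _ hT
      have v3 : (W₀ ×ˢ T).card ≤ t * w := by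
        rw [Finset.card_product, hw0, mul_comm]
        exact Nat.mul_le_mul_right _ hT
      have vs : (W₀.sigma (fun κ => T' κ)).card ≤ t * w := by
        rw [Finset.card_sigma]
        calc ∑ a ∈ W₀, (T' a).card ≤ ∑ _a ∈ W₀, t := Finset.sum_le_sum fun a _ => hT' a
          _ = t * w := by rw [Finset.sum_const, hw0, smul_eq_mul, mul_comm]
      have v4 : ((W₀.sigma (fun κ => T' κ)).image (fun x => (x.1, x.2))).card ≤ t * w :=
        Finset.card_image_le.trans vs
      have v5 : ((W₀.sigma (fun κ => T' κ)).image (fun x => (x.2, x.1))).card ≤ t * w :=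
        Finset.card_image_le.trans vs
      have v6 : ((W₀.offDiag).filter (fun x => P {x.1, x.2})).card ≤ 2 * g := Q3_ordered W₀ P
      omega
    have hord' : (G0.card : ℝ) * G0.card ≤ G0.card + 4 * (t * w) + 2 * g := by
      exact_mod_cast hord
    set a : ℝ := (G0.card : ℝ) with hadef
    -- `(w - a) (w - a - 1) ≥ 0`
    have hint : 0 ≤ ((w : ℝ) - a) * ((w : ℝ) - a - 1) := by
      have hle : G0.card ≤ w := by
        have : G0.card ≤ W₀.card := Finset.card_filter_le _ _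
        rwa [hw0] at this
      rcases Nat.eq_or_lt_of_le hle with h1 | h1
      · have : a = w := by rw [hadef]; exact_mod_cast h1
        rw [this]; simp
      · have h2 : (a : ℝ) + 1 ≤ w := by rw [hadef]; exact_mod_cast h1
        apply mul_nonneg <;> linarith
    have hb' : 0 ≤ (w : ℝ) - G1.card := by linarith
    have hmain : (w : ℝ) / 2 - 8 * t ≤ ((w : ℝ) - a) + 1 / ((w : ℝ) - 1) * g := by
      have h1 : ((w : ℝ) / 2 - 8 * t) * ((w : ℝ) - 1) ≤ ((w : ℝ) - a) * ((w : ℝ) - 1) + g := by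
        have h3 : 0 ≤ (t : ℝ) * (w - 2) := mul_nonneg (by linarith) (by linarith)
        nlinarith
      have h2 : ((w : ℝ) - a) + 1 / ((w : ℝ) - 1) * g =
          (((w : ℝ) - a) * ((w : ℝ) - 1) + g) / ((w : ℝ) - 1) := by
        field_simp
      rw [h2, le_div_iff₀ hw1pos]
      exact h1
    linarith

/-- disjointness of the hit sets -/
private theorem Q3_disj {ι : Type*} (I : Finset ι) (f : ι → Finset Cand) (hf : Set.InjOn f I)
    {m : ℕ} {U : Finset Cand} (hsub : ∀ i ∈ I, f i ⊆ U) {S S' : Set Oracle}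
    (hS : MeasurableSet S) (hSS : ∀ i ∈ I, S ∩ HitSet m U (f i) ⊆ S') :
    ∑ i ∈ I, prob (S ∩ HitSet m U (f i)) ≤ prob S' := by
  classical
  have h2 : (I : Set ι).PairwiseDisjoint (fun i => S ∩ HitSet m U (f i)) := by
    intro i hi j hj hne
    rw [Function.onFun, Set.disjoint_left]
    rintro A ⟨_, hA⟩ ⟨_, hA'⟩
    apply hne
    apply hf hi hj
    ext κ
    constructor
    · intro hκ
      exact (hA' κ (hsub i hi hκ)).1 ((hA κ (hsub i hi hκ)).2 hκ)
    · intro hκ
      exact (hA κ (hsub j hj hκ)).1 ((hA' κ (hsub j hj hκ)).2 hκ)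
  have h3 : ∑ i ∈ I, prob (S ∩ HitSet m U (f i)) = prob (⋃ i ∈ I, S ∩ HitSet m U (f i)) := by
    unfold prob
    rw [measureReal_biUnion_finset h2 fun i _ => hS.inter (M2.measurableSet_hitSet m U (f i))]
  rw [h3]
  exact M2.prob_mono (Set.iUnion₂_subset hSS)

/-- integration of a pointwise inequality -/
private theorem Q3_int {ι κ : Type*} (I : Finset ι) (J : Finset κ) (S : ι → Set Oracle)
    (Q : κ → Set Oracle) (R : Set Oracle) (hS : ∀ i, MeasurableSet (S i))
    (hQ : ∀ j, MeasurableSet (Q j)) (hR : MeasurableSet R) (α β : ℝ)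
    (h : ∀ B, α * R.indicator (fun _ => (1 : ℝ)) B ≤ ∑ i ∈ I, (S i).indicator (fun _ => (1 : ℝ)) B +
      β * ∑ j ∈ J, (Q j).indicator (fun _ => (1 : ℝ)) B) :
    α * prob R ≤ ∑ i ∈ I, prob (S i) + β * ∑ j ∈ J, prob (Q j) := by
  have hi : ∀ {V : Set Oracle}, MeasurableSet V →
      Integrable (fun B => V.indicator (fun _ => (1 : ℝ)) B) randomOracle := fun hV =>
    (integrable_const (1 : ℝ)).indicator hV
  have hp : ∀ {V : Set Oracle}, MeasurableSet V →
      prob V = ∫ B, V.indicator (fun _ => (1 : ℝ)) B ∂randomOracle := by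
    intro V hV
    rw [integral_indicator_const _ hV]
    simp [prob]
  have h1 : ∫ B, α * R.indicator (fun _ => (1 : ℝ)) B ∂randomOracle ≤
      ∫ B, (∑ i ∈ I, (S i).indicator (fun _ => (1 : ℝ)) B +
        β * ∑ j ∈ J, (Q j).indicator (fun _ => (1 : ℝ)) B) ∂randomOracle := by
    refine integral_mono ((hi hR).const_mul α) ?_ h
    exact (integrable_finsetSum _ fun i _ => hi (hS i)).add
      ((integrable_finsetSum _ fun j _ => hi (hQ j)).const_mul β)
  rw [integral_const_mul, integral_add (integrable_finsetSum _ fun i _ => hi (hS i))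
    ((integrable_finsetSum _ fun j _ => hi (hQ j)).const_mul β), integral_const_mul,
    integral_finsetSum _ (fun i _ => hi (hS i)), integral_finsetSum _ (fun j _ => hi (hQ j))]
    at h1
  rw [hp hR, Finset.sum_congr rfl (fun i _ => hp (hS i)), Finset.sum_congr rfl
    (fun j _ => hp (hQ j))]
  exact h1

theorem key_pairU {K : Set (List Bool)} (hK : K.Finite) {Z E η : Set Oracle} (hZ : Loc K Z)
    (hE : Loc K E) (hη : Loc K η) {W₀ W₁ : Finset Cand} (hd : Disjoint W₀ W₁) {m w : ℕ}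
    (hm : 1 ≤ m) (hw0 : W₀.card = w) (hw1 : W₁.card = w) (hw : 2 ≤ w) (t : ℕ) (ht : 1 ≤ t)
    (hW : ∀ κ ∈ W₀ ∪ W₁, ∀ l < m, pos κ.1 l κ.2 ∈ K)
    (hη' : ∀ (B : Oracle) (h : Finset Cand), h ⊆ W₀ ∪ W₁ →
      (plant (allSpots m h) B ∈ η ↔ B ∈ η))
    (hkey : ∀ B ∈ NoHit m (W₀ ∪ W₁), B ∈ η → ∃ (T : Finset Cand) (T' : Cand → Finset Cand),
      T.card ≤ t ∧ (∀ κ, (T' κ).card ≤ t) ∧ ∀ κ ∈ W₀, ∀ κ' ∈ W₀, ∀ ρ ∈ W₁, κ ≠ κ' → κ ∉ T →
        κ' ∉ T → ρ ∉ T → κ' ∉ T' κ → κ ∉ T' κ' → ρ ∉ T' κ → plant (allSpots m {κ}) B ∈ Z →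
        plant (allSpots m {κ'}) B ∈ Z → plant (allSpots m {ρ}) B ∈ Z →
        plant (allSpots m {κ, κ'}) B ∈ E) :
    (2 * w * (1 / 2) ^ m * (1 - (1 / 2 : ℝ) ^ m) ^ (2 * w - 1)) / 4 *
      ((1 - 16 * t / w) * prob η -
        prob (η ∩ ({A | ∃ κ ∈ W₀, ∃ κ' ∈ W₀, κ ≠ κ' ∧ A ∈ HitSet m (W₀ ∪ W₁) {κ, κ'}} ∩ E)) /
          ((w : ℝ) * (w - 1) / 2 * ((1 / 2) ^ m) ^ 2 *
            (1 - (1 / 2 : ℝ) ^ m) ^ (2 * w - 2))) ≤
      prob (η ∩ ({A | ∃ κ ∈ W₀ ∪ W₁, A ∈ HitSet m (W₀ ∪ W₁) {κ}} ∩ Zᶜ)) := by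
  classical
  set U := W₀ ∪ W₁ with hU
  set q : ℝ := (1 / 2) ^ m with hq
  have hq0 : 0 < q := by positivity
  have hq1 : q ≤ 1 / 2 := by
    rw [hq]
    calc (1 / 2 : ℝ) ^ m ≤ (1 / 2) ^ 1 := pow_le_pow_of_le_one (by norm_num) (by norm_num) hm
      _ = 1 / 2 := by norm_num
  have hp0 : 0 < 1 - q := by linarith
  set N := NoHit m U with hNdef
  set PE := prob (η ∩ ({A | ∃ κ ∈ W₀, ∃ κ' ∈ W₀, κ ≠ κ' ∧ A ∈ HitSet m U {κ, κ'}} ∩ E)) with hPE
  set PR := prob (η ∩ ({A | ∃ κ ∈ U, A ∈ HitSet m U {κ}} ∩ Zᶜ)) with hPR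
  have hZm := measurableSet_of_loc hK hZ
  have hEm := measurableSet_of_loc hK hE
  have hηm := measurableSet_of_loc hK hη
  have hNm : MeasurableSet N := M2.measurableSet_noHit m _
  have hw0' : (2 : ℝ) ≤ w := by exact_mod_cast hw
  have hUc : U.card = 2 * w := by
    rw [hU, Finset.card_union_of_disjoint hd, hw0, hw1]; ring
  -- probability of `η ∩ N`
  have hηN : prob (η ∩ N) = prob η * (1 - q) ^ (2 * w) := by
    have h1 : prob (η ∩ N) = prob η * (1 - q) ^ U.card := by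
      apply M2.prob_noHit_aux hηm
      intro κ hκ A
      rw [← M2.allSpots_singleton]
      exact hη' A {κ} (Finset.singleton_subset_iff.2 hκ)
    rw [h1, hUc]
  -- the sets
  set Sk : Cand → Set Oracle := fun κ => plant (allSpots m {κ}) ⁻¹' (η ∩ Zᶜ) ∩ N with hSk
  set Qp : Finset Cand → Set Oracle := fun p => plant (allSpots m p) ⁻¹' (η ∩ E) ∩ N with hQp
  have hSkm : ∀ κ, MeasurableSet (Sk κ) := fun κ =>
    (M2.measurable_plant _ (hηm.inter hZm.compl)).inter hNm
  have hQpm : ∀ p, MeasurableSet (Qp p) := fun p =>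
    (M2.measurable_plant _ (hηm.inter hEm)).inter hNm
  -- the pointwise inequality
  have hpt : ∀ B, ((w : ℝ) / 2 * (1 - 16 * t / w)) * (η ∩ N).indicator (fun _ => (1 : ℝ)) B ≤
      ∑ κ ∈ U, (Sk κ).indicator (fun _ => (1 : ℝ)) B +
        (1 / ((w : ℝ) - 1)) * ∑ p ∈ W₀.powersetCard 2, (Qp p).indicator (fun _ => (1 : ℝ)) B := by
    intro B
    have hnn : ∀ (V : Set Oracle), 0 ≤ V.indicator (fun _ => (1 : ℝ)) B := fun V =>
      Set.indicator_nonneg (fun _ _ => zero_le_one) B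
    by_cases hB : B ∈ η ∩ N
    swap
    · rw [Set.indicator_of_notMem hB, mul_zero]
      have h1 : 0 ≤ ∑ κ ∈ U, (Sk κ).indicator (fun _ => (1 : ℝ)) B :=
        Finset.sum_nonneg fun κ _ => hnn _
      have h2 : 0 ≤ ∑ p ∈ W₀.powersetCard 2, (Qp p).indicator (fun _ => (1 : ℝ)) B :=
        Finset.sum_nonneg fun κ _ => hnn _
      have h3 : 0 ≤ 1 / ((w : ℝ) - 1) := by
        apply div_nonneg zero_le_one; linarith
      exact add_nonneg h1 (mul_nonneg h3 h2)
    · rw [Set.indicator_of_mem hB, mul_one]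
      obtain ⟨T, T', hT, hT', hTT⟩ := hkey B hB.2 hB.1
      have hcomb := Q3_comb W₀ W₁ hw0 hw1 hw ht (fun κ => plant (allSpots m {κ}) B ∈ Z)
        (fun p => plant (allSpots m p) B ∈ E) T T' hT hT' hTT
      have hs1 : ∀ κ ∈ U, (Sk κ).indicator (fun _ => (1 : ℝ)) B =
          if ¬ (plant (allSpots m {κ}) B ∈ Z) then (1 : ℝ) else 0 := by
        intro κ hκ
        by_cases h1 : plant (allSpots m {κ}) B ∈ Z
        · rw [if_neg (not_not.2 h1), Set.indicator_of_notMem]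
          intro h2
          exact h2.1.2 h1
        · rw [if_pos h1, Set.indicator_of_mem]
          exact ⟨⟨(hη' B {κ} (Finset.singleton_subset_iff.2 hκ)).2 hB.1, h1⟩, hB.2⟩
      have hs2 : ∀ p ∈ W₀.powersetCard 2, (Qp p).indicator (fun _ => (1 : ℝ)) B =
          if plant (allSpots m p) B ∈ E then (1 : ℝ) else 0 := by
        intro p hp
        rw [Finset.mem_powersetCard] at hp
        have hpU : p ⊆ U := hp.1.trans Finset.subset_union_left
        by_cases h1 : plant (allSpots m p) B ∈ E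
        · rw [if_pos h1, Set.indicator_of_mem]
          exact ⟨⟨(hη' B p hpU).2 hB.1, h1⟩, hB.2⟩
        · rw [if_neg h1, Set.indicator_of_notMem]
          intro h2
          exact h1 h2.1.2
      rw [Finset.sum_congr rfl hs1, Finset.sum_congr rfl hs2, hU, Finset.sum_union hd,
        Finset.sum_boole, Finset.sum_boole, Finset.sum_boole]
      exact hcomb
  have hint := Q3_int U (W₀.powersetCard 2) Sk Qp (η ∩ N) hSkm hQpm (hηm.inter hNm) _ _ hpt
  -- the sum over the single hits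
  have h1 : (q / (1 - q)) * ∑ κ ∈ U, prob (Sk κ) ≤ PR := by
    have h2 := Q3_disj U (fun κ => ({κ} : Finset Cand))
      (Set.injOn_of_injective Finset.singleton_injective) (m := m)
      (fun κ hκ => Finset.singleton_subset_iff.2 hκ) (S := η ∩ Zᶜ)
      (S' := η ∩ ({A | ∃ κ ∈ U, A ∈ HitSet m U {κ}} ∩ Zᶜ)) (hηm.inter hZm.compl)
      (by
        rintro κ hκ A ⟨⟨hA1, hA2⟩, hA3⟩
        exact ⟨hA1, ⟨κ, hκ, hA3⟩, hA2⟩)
    have h3 : ∀ κ ∈ U, prob ((η ∩ Zᶜ) ∩ HitSet m U {κ}) = (q / (1 - q)) * prob (Sk κ) := by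
      intro κ hκ
      have h4 := prob_hitSet (hηm.inter hZm.compl) m (Finset.singleton_subset_iff.2 hκ)
      rw [Finset.card_singleton, pow_one, pow_one] at h4
      rw [div_mul_eq_mul_div, eq_div_iff hp0.ne']
      exact h4
    rw [Finset.sum_congr rfl h3, ← Finset.mul_sum] at h2
    exact h2
  have h2 : (q / (1 - q)) ^ 2 * ∑ p ∈ W₀.powersetCard 2, prob (Qp p) ≤ PE := by
    have h2 := Q3_disj (W₀.powersetCard 2) (fun p => p) (Set.injOn_id _) (m := m) (U := U)
      (fun p hp => (Finset.mem_powersetCard.1 hp).1.trans Finset.subset_union_left) (S := η ∩ E)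
      (S' := η ∩ ({A | ∃ κ ∈ W₀, ∃ κ' ∈ W₀, κ ≠ κ' ∧ A ∈ HitSet m U {κ, κ'}} ∩ E))
      (hηm.inter hEm)
      (by
        rintro p hp A ⟨⟨hA1, hA2⟩, hA3⟩
        obtain ⟨hp1, hp2⟩ := Finset.mem_powersetCard.1 hp
        obtain ⟨x, y, hxy, rfl⟩ := Finset.card_eq_two.1 hp2
        exact ⟨hA1, ⟨x, hp1 (Finset.mem_insert_self _ _), y,
          hp1 (Finset.mem_insert_of_mem (Finset.mem_singleton_self _)), hxy, hA3⟩, hA2⟩)
    have h3 : ∀ p ∈ W₀.powersetCard 2, prob ((η ∩ E) ∩ HitSet m U p) =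
        (q / (1 - q)) ^ 2 * prob (Qp p) := by
      intro p hp
      have h4 := prob_hitSet (hηm.inter hEm) m (W := U) (h := p)
        ((Finset.mem_powersetCard.1 hp).1.trans Finset.subset_union_left)
      rw [(Finset.mem_powersetCard.1 hp).2] at h4
      rw [div_pow, div_mul_eq_mul_div, eq_div_iff (pow_ne_zero 2 hp0.ne')]
      exact h4
    rw [Finset.sum_congr rfl h3, ← Finset.mul_sum] at h2
    exact h2
  -- conclusion
  set s1 := ∑ κ ∈ U, prob (Sk κ) with hs1
  set s2 := ∑ p ∈ W₀.powersetCard 2, prob (Qp p) with hs2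
  rw [hηN] at hint
  have hw1pos : (0 : ℝ) < (w : ℝ) - 1 := by linarith
  have hwpos : (0 : ℝ) < (w : ℝ) := by linarith
  obtain ⟨v, rfl⟩ : ∃ v, w = v + 1 := ⟨w - 1, by omega⟩
  have hx1 : 2 * (v + 1) - 1 = 2 * v + 1 := by omega
  have hx2 : 2 * (v + 1) - 2 = 2 * v := by omega
  rw [hx1, hx2]
  set P : ℝ := (1 - q) ^ (2 * v) with hP
  have hP0 : 0 < P := pow_pos hp0 _
  have hPP : (1 - q) ^ (2 * (v + 1)) = P * (1 - q) ^ 2 := by
    rw [hP, ← pow_add]; ring_nf
  have hPQ : (1 - q) ^ (2 * v + 1) = P * (1 - q) := by rw [hP, pow_succ]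
  rw [hPQ]
  rw [hPP] at hint
  set W : ℝ := ((v + 1 : ℕ) : ℝ) with hWdef
  -- `hint : (W/2*(1-16 t/W)) * (prob η * (P * (1-q)^2)) ≤ s1 + 1/(W-1) * s2`
  have h3 : s2 ≤ PE / (q / (1 - q)) ^ 2 := by
    rw [le_div_iff₀ (by positivity)]
    linarith
  have h4 : (W / 2 * (1 - 16 * t / W)) * (prob η * (P * (1 - q) ^ 2)) ≤
      s1 + 1 / (W - 1) * (PE / (q / (1 - q)) ^ 2) := by
    refine hint.trans ?_
    have : 1 / (W - 1) * s2 ≤ 1 / (W - 1) * (PE / (q / (1 - q)) ^ 2) :=
      mul_le_mul_of_nonneg_left h3 (by positivity)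
    linarith
  have h5 : (q / (1 - q)) * ((W / 2 * (1 - 16 * t / W)) * (prob η * (P * (1 - q) ^ 2)) -
      1 / (W - 1) * (PE / (q / (1 - q)) ^ 2)) ≤ PR := by
    refine le_trans ?_ h1
    refine mul_le_mul_of_nonneg_left ?_ (by positivity)
    linarith
  refine le_trans (le_of_eq ?_) h5
  field_simp
  ring

end Pool.Agent.H673R3.UC
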