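import Pool.Agent.H673R3.UC.I1
import Pool.Agent.H673R3.UC.L1b
import Pool.Agent.H628R3.RO.D4
import Pool.Agent.H628R3.RO.K4

/-! Task R1a (helper541): locality of the reductions. -/

namespace Pool.Agent.H673R3.UC

open MeasureTheory Pool.Agent.NPC Pool.Agent.H628R3.RO

theorem loc_GoodN (V : Bool → Alg) (p : Bool → Polynomial ℕ) (r : Alg) : ∃ b : Polynomial ℕ,
    ∀ n s, s ≤ n → Loc {x | x.length ≤ b.eval (2 ^ n)} (GoodN V p r n s) := by
  choose bw hbw using fun i => wit_congr (V i) (p i)
  obtain ⟨qr, hqr⟩ := r.out_congr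
  obtain ⟨br, hbr⟩ := r.out_length
  obtain ⟨P, hP⟩ := inst_length
  obtain ⟨S, hS⟩ := length_spotsB
  refine ⟨S + qr.comp P + (bw false).comp (br.comp P) + (bw true).comp (br.comp P),
    fun n s hs => loc_of_imp fun A A' h => ?_⟩
  have hn2 : n ≤ 2 ^ n := Nat.lt_two_pow_self.le
  have h' : ∀ z : List Bool, z.length ≤ S.eval (2 ^ n) + qr.eval (P.eval (2 ^ n)) +
      (bw false).eval (br.eval (P.eval (2 ^ n))) + (bw true).eval (br.eval (P.eval (2 ^ n))) →
      A z = A' z := by
    intro z hz
    apply h z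
    change z.length ≤ _
    simpa only [Polynomial.eval_add, Polynomial.eval_comp] using hz
  have hspots : ∀ x ∈ spotsB n s, A x = A' x := by
    intro x hx
    apply h'
    have h1 := hS n s hs x hx
    have h2 := eval_mono S hn2
    omega
  intro hG b hb j hj hO'
  have hO : A ∈ Others n s b j := (loc_Others hb A A' hspots).mpr hO'
  have hj2 : 2 * j < 2 * KK s := by omega
  obtain ⟨y, hy, hy0, hy1⟩ := hG b hb j hj hO
  have hinst : inst n s b j A = inst n s b j A' := inst_congr hb hspots
  have hlen : (inst n s b j A).length ≤ P.eval (2 ^ n) :=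
    (hP n s b j A hs hb hj).trans (eval_mono P hn2)
  have hylen : y.length ≤ br.eval (P.eval (2 ^ n)) :=
    (hbr A _ y hy).trans (eval_mono br hlen)
  have hloc := loc_noHitHalf (n := n) hb hj2 A A' hspots
  refine ⟨y, ?_, fun h0 => ?_, fun h1 => ?_⟩
  · rw [← hinst, ← hy]
    symm
    refine hqr A A' _ (P.eval (2 ^ n)) hlen fun z hz => h' z ?_
    omega
  · refine hbw false A A' y _ hylen (fun z hz => h' z ?_) (hy0 fun hA => h0 (hloc.mp hA))
    omega
  · refine hbw true A A' y _ hylen (fun z hz => h' z ?_) (hy1 (hloc.mpr h1))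
    omega

end Pool.Agent.H673R3.UC
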