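import Pool.Agent.H673R3.UC.S2
import Pool.Agent.H673R3.UC.R1a
import Pool.Agent.H628R3.RO.D4
import Pool.Agent.H628R3.RO.K4

/-! Task R1: reductions, first version. -/

namespace Pool.Agent.H673R3.UC

open MeasureTheory Pool.Agent.NPC Pool.Agent.H628R3.RO

theorem key_N (V : Bool → Alg) (p : Bool → Polynomial ℕ) (r : Alg) : ∃ n0, ∀ n ≥ n0, ∀ s,
    4 ≤ s → s ≤ n → ∀ t < n, ∀ η : Set Oracle, Loc {x | x.length ≤ t} η →
    ll s * (7 / 8 * prob η - prob (η ∩ (Bad n s ∩ ErrN V p n)) / prob (Bad n s)) ≤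
      prob (η ∩ (GoodN V p r n s)ᶜ) := by
  classical
  obtain ⟨bE, hbE⟩ := loc_ErrN V p
  obtain ⟨bG, hbG⟩ := loc_GoodN V p r
  obtain ⟨bl, hbl⟩ := r.out_length
  obtain ⟨qr, hqr⟩ := r.out_local
  obtain ⟨P, hP⟩ := inst_length
  choose qV hqV using fun i => (V i).out_local
  obtain ⟨n1, hn1⟩ := poly_le_two_pow (bl.comp P)
  obtain ⟨n2, hn2⟩ := poly_le_two_pow
    (r.p.comp P + ∑ i : Bool, (V i).p.comp
      (Polynomial.C 2 * bl.comp P + 1 + (p i).comp (bl.comp P)))
  refine ⟨max n1 n2, fun n hn s hs4 hsn t ht η hη => ?_⟩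
  have hn1' := hn1 n (le_trans (le_max_left _ _) hn)
  have hn2' := hn2 n (le_trans (le_max_right _ _) hn)
  rw [Polynomial.eval_comp] at hn1'
  set t0 : ℕ := (r.p.comp P + ∑ i : Bool, (V i).p.comp
      (Polynomial.C 2 * bl.comp P + 1 + (p i).comp (bl.comp P))).eval n with ht0
  have ht0r : r.p.eval (P.eval n) ≤ t0 := by
    rw [ht0, Polynomial.eval_add, Polynomial.eval_comp]
    exact Nat.le_add_right _ _
  have ht0V : ∀ i, (V i).p.eval (2 * bl.eval (P.eval n) + 1 + (p i).eval (bl.eval (P.eval n))) ≤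
      t0 := by
    intro i
    rw [ht0, Polynomial.eval_add, Polynomial.eval_finsetSum]
    refine le_trans ?_ (Nat.le_add_left _ _)
    have h1 := Finset.single_le_sum (f := fun i : Bool =>
      ((V i).p.comp (Polynomial.C 2 * bl.comp P + 1 + (p i).comp (bl.comp P))).eval n)
      (fun _ _ => Nat.zero_le _) (Finset.mem_univ i)
    refine le_trans (le_of_eq ?_) h1
    simp only [Polynomial.eval_comp, Polynomial.eval_add, Polynomial.eval_mul, Polynomial.eval_C,
      Polynomial.eval_one]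
  refine key_blocksN (k := bE.eval (2 ^ n) + bG.eval (2 ^ n)) (t := t0) hs4 hsn ht hη
    (Loc.mono (fun x hx => by simp only [Set.mem_ofPred_eq] at hx ⊢; omega) (hbG n s hsn))
    (Loc.mono (fun x hx => by simp only [Set.mem_ofPred_eq] at hx ⊢; omega) (hbE n)) hn2' ?_
  intro b hb j hj B hBO hBZ
  set m := wl n with hm
  set W := pair n s b j with hWdef
  -- the instance
  set x : List Bool := inst n s b j B with hx
  have hxlen : x.length ≤ P.eval n := hP n s b j B hsn hb hj
  have hxp : ∀ h : Finset Cand, h ⊆ W → inst n s b j (plant (allSpots m h) B) = x :=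
    fun h hh => inst_plant hj hh B
  set x0 : List Bool := (r.out B x).getD [] with hx0
  have hx0len : x0.length ≤ bl.eval (P.eval n) := by
    rw [hx0]
    cases h : r.out B x with
    | none => simp
    | some z =>
      have := (hbl B _ z h).trans (eval_mono bl hxlen)
      simpa using this
  obtain ⟨Q0, hQ0c, -, hQ0⟩ := hqr B x
  obtain ⟨T, hTc, hT⟩ := touch W m Q0
  -- the side of a candidate: `false` = left half, `true` = right half
  set sd : Cand → Bool := fun κ => decide (κ ∉ half n s b (2 * j)) with hsd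
  -- the witnesses
  have hch : ∀ (κ : Cand), ∃ y : List Bool,
      y.length ≤ (p (sd κ)).eval x0.length ∧
      (Wit (V (sd κ)) (p (sd κ)) x0 (plant (allSpots m {κ}) B) →
        (V (sd κ)).out (plant (allSpots m {κ}) B) (pairBits x0 y) = some [true]) := by
    intro κ
    by_cases hw : Wit (V (sd κ)) (p (sd κ)) x0 (plant (allSpots m {κ}) B)
    · obtain ⟨y, hy1, hy2⟩ := hw
      exact ⟨y, hy1, fun _ => hy2⟩
    · exact ⟨[], by simp, fun h' => absurd h' hw⟩
  choose yy hyy1 hyy2 using hch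
  choose Q' hQ'c hQ'l hQ' using fun (κ : Cand) =>
    hqV (sd κ) (plant (allSpots m {κ}) B) (pairBits x0 (yy κ))
  choose T' hT'c hT' using fun (κ : Cand) => touch W m (Q' κ)
  refine ⟨T, T', hTc.trans (hQ0c.trans ((eval_mono r.p hxlen).trans ht0r)), fun κ => ?_, ?_⟩
  · refine (hT'c κ).trans ((hQ'c κ).trans (le_trans ?_ (ht0V (sd κ))))
    apply eval_mono
    rw [length_pairBits]
    have h1 := hyy1 κ
    have h2 := eval_mono (p (sd κ)) hx0len
    omega
  · intro κ hκ κ' hκ' hκT hκ'T hT1 hT2 hG hG'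
    have hκW : κ ∈ W := Finset.mem_union_left _ hκ
    have hκ'W : κ' ∈ W := Finset.mem_union_right _ hκ'
    have hsκ : sd κ = false := by
      rw [hsd]; simpa using hκ
    have hnκ' : κ' ∉ half n s b (2 * j) := fun h =>
      Finset.disjoint_left.1 (half_disjoint n s b j) h hκ'
    have hsκ' : sd κ' = true := by
      rw [hsd]; simpa using hnκ'
    have hWit : ∀ ρ ∈ W, ρ ∉ T → plant (allSpots m {ρ}) B ∈ GoodN V p r n s →
        ((plant (allSpots m {ρ}) B ∉ NoHit m (half n s b (2 * j)) →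
          Wit (V false) (p false) x0 (plant (allSpots m {ρ}) B)) ∧
        (plant (allSpots m {ρ}) B ∈ NoHit m (half n s b (2 * j)) →
          Wit (V true) (p true) x0 (plant (allSpots m {ρ}) B))) := by
      intro ρ hρ hρT hρG
      have hhi : ({ρ} : Finset Cand) ⊆ W := Finset.singleton_subset_iff.2 hρ
      have hOi : plant (allSpots m {ρ}) B ∈ Others n s b j := (plant_Others hj hhi B).mpr hBO
      obtain ⟨y, hy, hy0, hy1⟩ := hρG b hb j hj hOi
      have h1 : r.out (plant (allSpots m {ρ}) B) x = r.out B x :=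
        hQ0 _ fun q hq => hT {ρ} hhi (Finset.disjoint_singleton_left.2 hρT) B q hq
      rw [hxp _ hhi, h1] at hy
      have hyx : y = x0 := by
        rw [hx0, hy]
        rfl
      rw [hyx] at hy0 hy1
      exact ⟨hy0, hy1⟩
    have hw1 : Wit (V (sd κ)) (p (sd κ)) x0 (plant (allSpots m {κ}) B) := by
      rw [hsκ]
      refine (hWit κ hκW hκT hG).1 fun hno => ?_
      exact hno κ hκ (M2.hit_plant_self (Finset.mem_singleton_self κ) B)
    have hw2 : Wit (V (sd κ')) (p (sd κ')) x0 (plant (allSpots m {κ'}) B) := by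
      rw [hsκ']
      refine (hWit κ' hκ'W hκ'T hG').2 fun ρ hρ hhit => ?_
      have hne : ρ ∉ ({κ'} : Finset Cand) := by
        rw [Finset.mem_singleton]
        rintro rfl
        exact hnκ' hρ
      exact hBZ ρ (Finset.mem_union_left _ hρ) ((M2.hit_plant hne B).1 hhit)
    have h3 : plant (allSpots m {κ, κ'}) B =
        plant (allSpots m {κ'}) (plant (allSpots m {κ}) B) := by
      rw [show ({κ, κ'} : Finset Cand) = {κ} ∪ {κ'} from rfl]
      exact plant_union m _ _ B
    have h4 : plant (allSpots m {κ, κ'}) B =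
        plant (allSpots m {κ}) (plant (allSpots m {κ'}) B) := by
      rw [show ({κ, κ'} : Finset Cand) = {κ} ∪ {κ'} from rfl, Finset.union_comm]
      exact plant_union m _ _ B
    refine ⟨x0, hx0len.trans hn1', fun i => ?_⟩
    cases i
    · rw [← hsκ]
      refine ⟨yy κ, hyy1 κ, ?_⟩
      rw [← hyy2 κ hw1, h3]
      exact hQ' κ _ fun q hq => hT' κ {κ'} (Finset.singleton_subset_iff.2 hκ'W)
        (Finset.disjoint_singleton_left.2 hT1) _ q hq
    · rw [← hsκ']
      refine ⟨yy κ', hyy1 κ', ?_⟩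
      rw [← hyy2 κ' hw2, h4]
      exact hQ' κ' _ fun q hq => hT' κ' {κ} (Finset.singleton_subset_iff.2 hκW)
        (Finset.disjoint_singleton_left.2 hT2) _ q hq

end Pool.Agent.H673R3.UC
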