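import Pool.Agent.H673R3.UC.I1
import Pool.Agent.H673R3.UC.L1b
import Pool.Agent.H628R3.RO.D4
import Pool.Agent.H628R3.RO.K4

/-! Task R2a: locality of the reductions. -/

namespace Pool.Agent.H673R3.UC

open MeasureTheory Pool.Agent.NPC Pool.Agent.H628R3.RO

theorem loc_GoodU (V : Alg) (p : Polynomial ℕ) (r : Alg) : ∃ b : Polynomial ℕ,
    ∀ n s, s ≤ n → Loc {x | x.length ≤ b.eval (2 ^ n)} (GoodU V p r n s) := by
  obtain ⟨bw, hbw⟩ := wit_congr V p
  obtain ⟨qr, hqr⟩ := r.out_congr
  obtain ⟨br, hbr⟩ := r.out_length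
  obtain ⟨P, hP⟩ := inst_length
  obtain ⟨S, hS⟩ := length_spotsB
  refine ⟨S + qr.comp P + bw.comp (br.comp P), fun n s hs => loc_of_imp fun A A' h => ?_⟩
  have hn2 : n ≤ 2 ^ n := Nat.lt_two_pow_self.le
  have h' : ∀ z : List Bool, z.length ≤ S.eval (2 ^ n) + qr.eval (P.eval (2 ^ n)) +
      bw.eval (br.eval (P.eval (2 ^ n))) → A z = A' z := by
    intro z hz
    apply h z
    change z.length ≤ _
    simpa only [Polynomial.eval_add, Polynomial.eval_comp] using hz
  have hspots : ∀ x ∈ spotsB n s, A x = A' x := by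
    intro x hx
    apply h'
    have h1 := hS n s hs x hx
    have h2 := eval_mono S hn2
    omega
  intro hG b hb j hj hO'
  have hO : A ∈ Others n s b j := (loc_Others hb A A' hspots).mpr hO'
  obtain ⟨y, hy, hy0⟩ := hG b hb j hj hO
  have hinst : inst n s b j A = inst n s b j A' := inst_congr hb hspots
  have hlen : (inst n s b j A).length ≤ P.eval (2 ^ n) :=
    (hP n s b j A hs hb hj).trans (eval_mono P hn2)
  have hylen : y.length ≤ br.eval (P.eval (2 ^ n)) :=
    (hbr A _ y hy).trans (eval_mono br hlen)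
  refine ⟨y, ?_, ?_⟩
  · rw [← hinst, ← hy]
    symm
    refine hqr A A' _ (P.eval (2 ^ n)) hlen fun z hz => h' z ?_
    omega
  · have h0 : (A ∉ NoHit (wl n) (half n s b (2 * j))) ↔
        (A' ∉ NoHit (wl n) (half n s b (2 * j))) :=
      not_congr (loc_noHitHalf hb (by omega) A A' hspots)
    rw [← h0, hy0]
    constructor
    · refine hbw A A' y _ hylen fun z hz => h' z ?_
      omega
    · refine hbw A' A y _ hylen fun z hz => (h' z ?_).symm
      omega

end Pool.Agent.H673R3.UC
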