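import Pool.Agent.H673R3.UC.S2
import Pool.Agent.H673R3.UC.R2a
import Pool.Agent.H628R3.RO.D4
import Pool.Agent.H628R3.RO.K5

/-! Task R2: reductions, second version. -/

namespace Pool.Agent.H673R3.UC

open MeasureTheory Pool.Agent.NPC Pool.Agent.H628R3.RO

theorem key_U (V : Alg) (p : Polynomial ℕ) (r : Alg) : ∃ n0, ∀ n ≥ n0, ∀ s,
    4 ≤ s → s ≤ n → ∀ t < n, ∀ η : Set Oracle, Loc {x | x.length ≤ t} η →
    ll s * (7 / 8 * prob η - prob (η ∩ (Bad n s ∩ ErrU V p n)) / prob (Bad n s)) ≤
      prob (η ∩ (GoodU V p r n s)ᶜ) := by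
  classical
  obtain ⟨bE, hbE⟩ := loc_ErrU V p
  obtain ⟨bG, hbG⟩ := loc_GoodU V p r
  obtain ⟨bl, hbl⟩ := r.out_length
  obtain ⟨qr, hqr⟩ := r.out_local
  obtain ⟨P, hP⟩ := inst_length
  obtain ⟨qV, hqV⟩ := V.out_local
  obtain ⟨n1, hn1⟩ := poly_le_two_pow (bl.comp P)
  obtain ⟨n2, hn2⟩ := poly_le_two_pow
    (r.p.comp P + Polynomial.C 2 * V.p.comp
      (Polynomial.C 2 * bl.comp P + 1 + p.comp (bl.comp P)))
  refine ⟨max n1 n2, fun n hn s hs4 hsn t ht η hη => ?_⟩
  have hn1' := hn1 n (le_trans (le_max_left _ _) hn)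
  have hn2' := hn2 n (le_trans (le_max_right _ _) hn)
  rw [Polynomial.eval_comp] at hn1'
  set t0 : ℕ := (r.p.comp P + Polynomial.C 2 * V.p.comp
      (Polynomial.C 2 * bl.comp P + 1 + p.comp (bl.comp P))).eval n with ht0
  have ht0r : r.p.eval (P.eval n) ≤ t0 := by
    rw [ht0, Polynomial.eval_add, Polynomial.eval_comp]
    exact Nat.le_add_right _ _
  have ht0V : 2 * V.p.eval (2 * bl.eval (P.eval n) + 1 + p.eval (bl.eval (P.eval n))) ≤ t0 := by
    rw [ht0]
    simp only [Polynomial.eval_add, Polynomial.eval_mul, Polynomial.eval_C, Polynomial.eval_comp,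
      Polynomial.eval_one]
    exact Nat.le_add_left _ _
  refine key_blocksU (k := bE.eval (2 ^ n) + bG.eval (2 ^ n)) (t := t0) hs4 hsn ht hη
    (Loc.mono (fun x hx => by simp only [Set.mem_ofPred_eq] at hx ⊢; omega) (hbG n s hsn))
    (Loc.mono (fun x hx => by simp only [Set.mem_ofPred_eq] at hx ⊢; omega) (hbE n)) hn2' ?_
  intro b hb j hj B hBO hBZ
  set m := wl n with hm
  set W := pair n s b j with hWdef
  -- the instance
  set x : List Bool := inst n s b j B with hx
  have hxlen : x.length ≤ P.eval n := hP n s b j B hsn hb hj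
  have hxp : ∀ h : Finset Cand, h ⊆ W → inst n s b j (plant (allSpots m h) B) = x :=
    fun h hh => inst_plant hj hh B
  set x0 : List Bool := (r.out B x).getD [] with hx0
  have hx0len : x0.length ≤ bl.eval (P.eval n) := by
    rw [hx0]
    cases h : r.out B x with
    | none => simp
    | some z =>
      have := (hbl B _ z h).trans (eval_mono bl hxlen)
      simpa using this
  obtain ⟨Q0, hQ0c, -, hQ0⟩ := hqr B x
  obtain ⟨T, hTc, hT⟩ := touch W m Q0
  -- the witnesses
  have hch : ∀ (κ : Cand), ∃ y : List Bool,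
      y.length ≤ p.eval x0.length ∧
      (Wit V p x0 (plant (allSpots m {κ}) B) →
        V.out (plant (allSpots m {κ}) B) (pairBits x0 y) = some [true]) := by
    intro κ
    by_cases hw : Wit V p x0 (plant (allSpots m {κ}) B)
    · obtain ⟨y, hy1, hy2⟩ := hw
      exact ⟨y, hy1, fun _ => hy2⟩
    · exact ⟨[], by simp, fun h' => absurd h' hw⟩
  choose yy hyy1 hyy2 using hch
  choose Q' hQ'c hQ'l hQ' using fun (A : Oracle) (z : List Bool) => hqV A z
  choose T' hT'c hT' using fun (Q : Finset (List Bool)) => touch W m Q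
  have hQc : ∀ (A : Oracle) (κ : Cand), (Q' A (pairBits x0 (yy κ))).card ≤
      V.p.eval (2 * bl.eval (P.eval n) + 1 + p.eval (bl.eval (P.eval n))) := by
    intro A κ
    refine (hQ'c _ _).trans (eval_mono _ ?_)
    rw [length_pairBits]
    have h1 := hyy1 κ
    have h2 := eval_mono p hx0len
    omega
  refine ⟨T, fun κ => T' (Q' (plant (allSpots m {κ}) B) (pairBits x0 (yy κ)) ∪
    Q' B (pairBits x0 (yy κ))), hTc.trans (hQ0c.trans ((eval_mono r.p hxlen).trans ht0r)),
    fun κ => ?_, ?_⟩
  · refine (hT'c _).trans ((Finset.card_union_le _ _).trans (le_trans ?_ ht0V))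
    have h1 := hQc (plant (allSpots m {κ}) B) κ
    have h2 := hQc B κ
    omega
  · intro κ hκ κ' hκ' ρ hρ hne hκT hκ'T hρT hT1 hT2 hT3 hG hG' hGρ
    have hκW : κ ∈ W := Finset.mem_union_left _ hκ
    have hκ'W : κ' ∈ W := Finset.mem_union_left _ hκ'
    have hρW : ρ ∈ W := Finset.mem_union_right _ hρ
    have hnρ : ρ ∉ half n s b (2 * j) := fun h =>
      Finset.disjoint_left.1 (half_disjoint n s b j) h hρ
    have hWit : ∀ σ ∈ W, σ ∉ T → plant (allSpots m {σ}) B ∈ GoodU V p r n s →
        (plant (allSpots m {σ}) B ∉ NoHit m (half n s b (2 * j)) ↔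
          Wit V p x0 (plant (allSpots m {σ}) B)) := by
      intro σ hσ hσT hσG
      have hhi : ({σ} : Finset Cand) ⊆ W := Finset.singleton_subset_iff.2 hσ
      have hOi : plant (allSpots m {σ}) B ∈ Others n s b j := (plant_Others hj hhi B).mpr hBO
      obtain ⟨y, hy, hy0⟩ := hσG b hb j hj hOi
      have h1 : r.out (plant (allSpots m {σ}) B) x = r.out B x :=
        hQ0 _ fun q hq => hT {σ} hhi (Finset.disjoint_singleton_left.2 hσT) B q hq
      rw [hxp _ hhi, h1] at hy
      have hyx : y = x0 := by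
        rw [hx0, hy]
        rfl
      rw [hyx] at hy0
      exact hy0
    have hw1 : Wit V p x0 (plant (allSpots m {κ}) B) := by
      refine (hWit κ hκW hκT hG).1 fun hno => ?_
      exact hno κ hκ (M2.hit_plant_self (Finset.mem_singleton_self κ) B)
    have hw2 : Wit V p x0 (plant (allSpots m {κ'}) B) := by
      refine (hWit κ' hκ'W hκ'T hG').1 fun hno => ?_
      exact hno κ' hκ' (M2.hit_plant_self (Finset.mem_singleton_self κ') B)
    have hw3 : ¬ Wit V p x0 (plant (allSpots m {ρ}) B) := by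
      intro h
      refine (hWit ρ hρW hρT hGρ).2 h fun σ hσ hhit => ?_
      have hne : σ ∉ ({ρ} : Finset Cand) := by
        rw [Finset.mem_singleton]
        rintro rfl
        exact hnρ hσ
      exact hBZ σ (Finset.mem_union_left _ hσ) ((M2.hit_plant hne B).1 hhit)
    have h3 : plant (allSpots m {κ, κ'}) B =
        plant (allSpots m {κ'}) (plant (allSpots m {κ}) B) := by
      rw [show ({κ, κ'} : Finset Cand) = {κ} ∪ {κ'} from rfl]
      exact plant_union m _ _ B
    have h4 : plant (allSpots m {κ, κ'}) B =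
        plant (allSpots m {κ}) (plant (allSpots m {κ'}) B) := by
      rw [show ({κ, κ'} : Finset Cand) = {κ} ∪ {κ'} from rfl, Finset.union_comm]
      exact plant_union m _ _ B
    refine ⟨x0, hx0len.trans hn1', yy κ, yy κ', fun heq => hw3 ⟨yy κ, hyy1 κ, ?_⟩, hyy1 κ,
      hyy1 κ', ?_, ?_⟩
    · -- the same witness for both: it is also one for `ρ`
      have e1 : V.out (plant (allSpots m {ρ}) B) (pairBits x0 (yy κ)) =
          V.out B (pairBits x0 (yy κ)) := by
        refine hQ' _ _ _ fun q hq => ?_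
        exact hT' _ {ρ} (Finset.singleton_subset_iff.2 hρW)
          (Finset.disjoint_singleton_left.2 hT3) _ q (Finset.mem_union_right _ hq)
      have e2 : V.out (plant (allSpots m {κ}) B) (pairBits x0 (yy κ')) =
          V.out B (pairBits x0 (yy κ')) := by
        refine hQ' _ _ _ fun q hq => ?_
        exact hT' _ {κ} (Finset.singleton_subset_iff.2 hκW)
          (Finset.disjoint_singleton_left.2 hT2) _ q (Finset.mem_union_right _ hq)
      rw [e1]
      rw [← heq] at e2
      rw [← e2]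
      exact hyy2 κ hw1
    · rw [← hyy2 κ hw1, h3]
      refine hQ' _ _ _ fun q hq => ?_
      exact hT' _ {κ'} (Finset.singleton_subset_iff.2 hκ'W)
        (Finset.disjoint_singleton_left.2 hT1) _ q (Finset.mem_union_left _ hq)
    · rw [← hyy2 κ' hw2, h4]
      refine hQ' _ _ _ fun q hq => ?_
      exact hT' _ {κ} (Finset.singleton_subset_iff.2 hκW)
        (Finset.disjoint_singleton_left.2 hT2) _ q (Finset.mem_union_left _ hq)

end Pool.Agent.H673R3.UC
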