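import Pool.Agent.H673R3.UC.L2
import Pool.Agent.H673R3.UC.L2b
import Pool.Agent.H673R3.UC.L2c
import Pool.Agent.H673R3.UC.P1b
import Pool.Agent.H673R3.UC.Q1
import Pool.Agent.H673R3.UC.P2
import Pool.Agent.H673R3.UC.N3

/-! Task S1: the stages are systems of blocks. -/

namespace Pool.Agent.H673R3.UC

open MeasureTheory Pool.Agent.NPC Pool.Agent.H628R3.RO

private theorem S1_one_sub_q {n : ℕ} : (0 : ℝ) < 1 - (1 / 2 : ℝ) ^ wl n := by
  have h : (1 / 2 : ℝ) ^ wl n ≤ (1 / 2) ^ 1 :=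
    pow_le_pow_of_le_one (by norm_num) (by norm_num) (by unfold wl; omega)
  have : (1 / 2 : ℝ) ^ 1 = 1 / 2 := pow_one _
  linarith

private theorem S1_two_q (n : ℕ) : (2 : ℝ) ^ wl n * (1 / 2 : ℝ) ^ wl n = 1 := by
  rw [← mul_pow]; norm_num

private theorem S1_rr {s : ℕ} (hs : 4 ≤ s) : (3 : ℝ) ≤ rr s := by
  exact_mod_cast three_le_rr hs

private theorem S1_card {n s : ℕ} (hs : 4 ≤ s) : 2 ≤ 2 * rr s * 2 ^ wl n := by
  have h1 := three_le_rr hs
  have h2 : 1 ≤ 2 ^ wl n := Nat.one_le_two_pow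
  nlinarith

private theorem S1_sys {n s : ℕ} (hs : 4 ≤ s) (hn : s ≤ n) {D : ℕ → ℕ → Set Oracle} {d : ℝ}
    (hl : ∀ b j, Loc (sp n s b j) (D b j))
    (hd : ∀ b j, ∀ A ∈ D b j, A ∉ Low (Zero n s) (One n s) b j)
    (hp : ∀ b j, prob (D b j) = d) (h0 : 0 < d) :
    PSys (Zero n s) (One n s) D (sp n s) (zp n s) (op n s) d (BB s) (KK s) where
  fin b _ i _ := (allSpots (wl n) (pair n s b i)).finite_toSet
  disj b _ i hi b' _ i' hi' h := sp_disjoint hi hi' h
  locZ b _ i _ := loc_Zero n s b i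
  locO b _ i _ := loc_One n s b i
  locD b _ i _ := hl b i
  dZO b _ i _ := by
    rw [Set.disjoint_left]
    intro A hA hA'
    obtain ⟨κ, hκ, h1, _⟩ := mem_One_iff.1 hA'
    exact hA κ hκ h1
  dD b _ i _ := by
    rw [Set.disjoint_left]
    intro A hA hA'
    exact hd b i A hA hA'
  prZ b _ i _ := by
    unfold Zero
    rw [prob_noHit, card_pair]
    rfl
  prO b _ i _ := by
    unfold One
    rw [prob_hit_one, card_pair]
    have h1 := S1_one_sub_q (n := n)
    have h2 := S1_two_q n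
    have h3 := S1_card (n := n) hs
    unfold op zp
    have h4 : (1 - (1 / 2 : ℝ) ^ wl n) ^ (2 * rr s * 2 ^ wl n) =
        (1 - (1 / 2 : ℝ) ^ wl n) ^ (2 * rr s * 2 ^ wl n - 1) * (1 - (1 / 2 : ℝ) ^ wl n) :=
      (pow_sub_one_mul (by generalize 2 * rr s * 2 ^ wl n = N at h3; omega) _).symm
    rw [h4, eq_div_iff h1.ne']
    push_cast
    clear h4
    generalize (1 - (1 / 2 : ℝ) ^ wl n) ^ (2 * rr s * 2 ^ wl n - 1) = X
    generalize (1 / 2 : ℝ) ^ wl n = q at *
    generalize (2 : ℝ) ^ wl n = P at *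
    generalize (rr s : ℝ) = R at *
    linear_combination (2 * R * X * (1 - q)) * h2
  prD b _ i _ := hp b i
  nn0 := (zp_pos n s).le
  nn1 := by
    unfold op
    have h1 := S1_one_sub_q (n := n)
    have h2 := (zp_pos n s).le
    exact div_nonneg (mul_nonneg (mul_nonneg (by norm_num) (Nat.cast_nonneg _)) h2) h1.le
  dpos := h0
  al := by
    have h := lp_le hs hn
    unfold lp at h
    linarith

private theorem S1_cards {n s : ℕ} (hs : 4 ≤ s) : (1 - (1 / 2 : ℝ) ^ wl n) ^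
    (rr s * 2 ^ wl n + rr s * 2 ^ wl n - 2) = zp n s / (1 - (1 / 2 : ℝ) ^ wl n) ^ 2 := by
  have h1 := S1_one_sub_q (n := n)
  have h3 := S1_card (n := n) hs
  have h5 : 2 * rr s * 2 ^ wl n = rr s * 2 ^ wl n + rr s * 2 ^ wl n := by
    rw [mul_assoc, two_mul]
  rw [eq_div_iff (pow_pos h1 2).ne', ← pow_add]
  unfold zp
  rw [h5] at h3 ⊢
  rw [Nat.sub_add_cancel h3]

private theorem S1_not_low {n s b j : ℕ} {κ κ' : Cand} (h : κ ∈ pair n s b j)
    (h' : κ' ∈ pair n s b j) (hne : κ ≠ κ') {A : Oracle}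
    (hA : A ∈ HitSet (wl n) (pair n s b j) {κ, κ'}) : A ∉ Low (Zero n s) (One n s) b j :=
  not_low_iff.2 ⟨κ, h, κ', h', hne, (hA κ h).2 (by simp), (hA κ' h').2 (by simp)⟩

theorem sys_N {n s : ℕ} (hs : 4 ≤ s) (hn : s ≤ n) :
    PSys (Zero n s) (One n s) (EvN n s) (sp n s) (zp n s) (op n s) (dN n s) (BB s) (KK s) := by
  have h1 := S1_one_sub_q (n := n)
  have hr := S1_rr hs
  refine S1_sys hs hn (loc_EvN n s) ?_ ?_ ?_
  · rintro b j A ⟨κ, hκ, κ', hκ', hA⟩
    refine S1_not_low (Finset.mem_union_left _ hκ) (Finset.mem_union_right _ hκ') ?_ hA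
    rintro rfl
    exact Finset.disjoint_left.1 (half_disjoint n s b j) hκ hκ'
  · intro b j
    have h := prob_hit_LR (wl n) (half_disjoint n s b j)
    have h2 := S1_two_q n
    rw [card_half, card_half, S1_cards hs] at h
    refine Eq.trans h ?_
    unfold dN
    push_cast
    rw [← mul_div_assoc]
    congr 1
    generalize (1 / 2 : ℝ) ^ wl n = q at *
    generalize (2 : ℝ) ^ wl n = P at *
    generalize (rr s : ℝ) = R at *
    generalize zp n s = X at *
    linear_combination (R ^ 2 * X * (P * q + 1)) * h2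
  · unfold dN
    have h2 := zp_pos n s
    have h3 : (0 : ℝ) < (rr s : ℝ) := by linarith
    exact div_pos (mul_pos (pow_pos h3 2) h2) (pow_pos h1 2)

theorem sys_U {n s : ℕ} (hs : 4 ≤ s) (hn : s ≤ n) :
    PSys (Zero n s) (One n s) (EvU n s) (sp n s) (zp n s) (op n s) (dU n s) (BB s) (KK s) := by
  have h1 := S1_one_sub_q (n := n)
  have hr := S1_rr hs
  refine S1_sys hs hn (loc_EvU n s) ?_ ?_ ?_
  · rintro b j A ⟨κ, hκ, κ', hκ', hne, hA⟩
    exact S1_not_low (Finset.mem_union_left _ hκ) (Finset.mem_union_left _ hκ') hne hA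
  · intro b j
    have h := prob_hit_LL (wl n) (half_disjoint n s b j)
    have h2 := S1_two_q n
    rw [card_half, card_half, S1_cards hs] at h
    refine Eq.trans h ?_
    unfold dU
    push_cast
    rw [← mul_div_assoc]
    congr 1
    generalize (1 / 2 : ℝ) ^ wl n = q at *
    generalize (2 : ℝ) ^ wl n = P at *
    generalize (rr s : ℝ) = R at *
    generalize zp n s = X at *
    linear_combination (R / 2 * X * (R * (P * q + 1) - q)) * h2
  · unfold dU
    have h2 := zp_pos n s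
    have h3 : (0 : ℝ) < (rr s : ℝ) - (1 / 2 : ℝ) ^ wl n := by linarith
    have h4 : (0 : ℝ) < (rr s : ℝ) := by linarith
    exact div_pos (mul_pos (div_pos (mul_pos h4 h3) two_pos) h2) (pow_pos h1 2)

theorem prob_Bad_le_ee {n s : ℕ} (hs : 4 ≤ s) (hn : s ≤ n) : prob (Bad n s) ≤ ee s :=
  (prob_BadG_le (sys_N hs hn)).trans (bad_hi hs hn)

private theorem S1_bad_ge {n s : ℕ} (hs : 4 ≤ s) (hn : s ≤ n) :
    1 / 2 * (BB s * (1 - lp n s) ^ KK s) ≤ prob (Bad n s) := by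
  refine prob_BadG_ge (sys_N hs hn) ?_
  exact (bad_hi hs hn).trans ((ee_le hs).trans (by norm_num))

theorem prob_Bad_pos {n s : ℕ} (hs : 4 ≤ s) (hn : s ≤ n) :
    (1 / 2 : ℝ) * ((1 / 2 : ℝ) ^ (rr s + 12) / (rr s : ℝ) ^ 2) ≤ prob (Bad n s) :=
  le_trans (mul_le_mul_of_nonneg_left (bad_lo hs hn) (by norm_num)) (S1_bad_ge hs hn)

theorem prob_Inv_le {n s : ℕ} (hs : 4 ≤ s) (hn : s ≤ n) :
    prob (Inv n s) ≤ 200 * prob (Bad n s) := by
  have h1 := S1_bad_ge hs hn
  have h2 : prob (Two n s) ≤ 80 * (BB s * (1 - lp n s) ^ KK s) :=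
    (prob_TwoG_le (sys_N hs hn)).trans (two_num hs hn)
  have h3 := M2.prob_union_le (Bad n s) (Two n s)
  have h4 := M2.prob_nonneg (Bad n s)
  unfold Inv
  linarith

end Pool.Agent.H673R3.UC
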