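import Pool.Agent.H673R3.UC.S1
import Pool.Agent.H673R3.UC.P4
import Pool.Agent.H673R3.UC.Q2
import Pool.Agent.H673R3.UC.Q3

/-! Task S2: the key inequality for the stages. -/

namespace Pool.Agent.H673R3.UC

open MeasureTheory Pool.Agent.NPC Pool.Agent.H628R3.RO

private theorem S2_q {n : ℕ} : (0 : ℝ) < 1 - (1 / 2 : ℝ) ^ wl n := by
  have h : (1 / 2 : ℝ) ^ wl n ≤ (1 / 2) ^ 1 :=
    pow_le_pow_of_le_one (by norm_num) (by norm_num) (by unfold wl; omega)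
  have : (1 / 2 : ℝ) ^ 1 = 1 / 2 := pow_one _
  linarith

private theorem S2_two_q (n : ℕ) : (2 : ℝ) ^ wl n * (1 / 2 : ℝ) ^ wl n = 1 := by
  rw [← mul_pow]; norm_num

private theorem S2_w {n s : ℕ} (hs : 4 ≤ s) : 2 ≤ rr s * 2 ^ wl n := by
  have h1 := three_le_rr hs
  have h2 : 1 ≤ 2 ^ wl n := Nat.one_le_two_pow
  nlinarith

private theorem S2_op {n s : ℕ} (hs : 4 ≤ s) :
    2 * ((rr s * 2 ^ wl n : ℕ) : ℝ) * (1 / 2) ^ wl n *
      (1 - (1 / 2 : ℝ) ^ wl n) ^ (2 * (rr s * 2 ^ wl n) - 1) = op n s := by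
  have h1 := S2_q (n := n)
  have h2 := S2_two_q n
  have h3 := S2_w (n := n) hs
  unfold op zp
  have h4 : (1 - (1 / 2 : ℝ) ^ wl n) ^ (2 * rr s * 2 ^ wl n) =
      (1 - (1 / 2 : ℝ) ^ wl n) ^ (2 * (rr s * 2 ^ wl n) - 1) * (1 - (1 / 2 : ℝ) ^ wl n) := by
    rw [mul_assoc]
    exact (pow_sub_one_mul (by generalize rr s * 2 ^ wl n = N at h3; omega) _).symm
  rw [h4, eq_div_iff h1.ne']
  push_cast
  clear h4
  generalize (1 - (1 / 2 : ℝ) ^ wl n) ^ (2 * (rr s * 2 ^ wl n) - 1) = X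
  generalize (1 / 2 : ℝ) ^ wl n = q at *
  generalize (2 : ℝ) ^ wl n = P at *
  generalize (rr s : ℝ) = R at *
  linear_combination (2 * R * X * (1 - q)) * h2

private theorem S2_pow {n s : ℕ} (hs : 4 ≤ s) : (1 - (1 / 2 : ℝ) ^ wl n) ^
    (2 * (rr s * 2 ^ wl n) - 2) = zp n s / (1 - (1 / 2 : ℝ) ^ wl n) ^ 2 := by
  have h1 := S2_q (n := n)
  have h3 := S2_w (n := n) hs
  rw [eq_div_iff (pow_pos h1 2).ne', ← pow_add]
  unfold zp
  rw [mul_assoc 2 (rr s), Nat.sub_add_cancel (by generalize rr s * 2 ^ wl n = N at h3; omega)]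

private theorem S2_dN {n s : ℕ} (hs : 4 ≤ s) :
    ((rr s * 2 ^ wl n : ℕ) : ℝ) ^ 2 * ((1 / 2) ^ wl n) ^ 2 *
      (1 - (1 / 2 : ℝ) ^ wl n) ^ (2 * (rr s * 2 ^ wl n) - 2) = dN n s := by
  have h2 := S2_two_q n
  rw [S2_pow hs]
  unfold dN
  push_cast
  rw [← mul_div_assoc]
  congr 1
  generalize (1 / 2 : ℝ) ^ wl n = q at *
  generalize (2 : ℝ) ^ wl n = P at *
  generalize (rr s : ℝ) = R at *
  generalize zp n s = X at *
  linear_combination (R ^ 2 * X * (P * q + 1)) * h2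

private theorem S2_dU {n s : ℕ} (hs : 4 ≤ s) :
    ((rr s * 2 ^ wl n : ℕ) : ℝ) * (((rr s * 2 ^ wl n : ℕ) : ℝ) - 1) / 2 * ((1 / 2) ^ wl n) ^ 2 *
      (1 - (1 / 2 : ℝ) ^ wl n) ^ (2 * (rr s * 2 ^ wl n) - 2) = dU n s := by
  have h2 := S2_two_q n
  rw [S2_pow hs]
  unfold dU
  push_cast
  rw [← mul_div_assoc]
  congr 1
  generalize (1 / 2 : ℝ) ^ wl n = q at *
  generalize (2 : ℝ) ^ wl n = P at *
  generalize (rr s : ℝ) = R at *
  generalize zp n s = X at *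
  linear_combination (R / 2 * X * (R * (P * q + 1) - q)) * h2

private theorem S2_delta {n s t : ℕ} (hs : 4 ≤ s) (ht : t ≤ 2 ^ n) :
    16 * ((max t 1 : ℕ) : ℝ) / ((rr s * 2 ^ wl n : ℕ) : ℝ) ≤ 1 / 64 := by
  have h1 : max t 1 ≤ 2 ^ n := max_le ht Nat.one_le_two_pow
  have h2 : 1024 * 2 ^ n ≤ rr s * 2 ^ wl n := by
    have h3 := three_le_rr hs
    have h4 : 2 ^ wl n = 2 ^ n * 2 ^ (n + 16) := by
      rw [← pow_add]; congr 1; unfold wl; omega
    have h5 : 1024 ≤ 2 ^ (n + 16) := by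
      calc 1024 ≤ 2 ^ 16 := by norm_num
        _ ≤ 2 ^ (n + 16) := Nat.pow_le_pow_right (by norm_num) (by omega)
    rw [h4]
    calc 1024 * 2 ^ n = 1 * (2 ^ n * 1024) := by ring
      _ ≤ rr s * (2 ^ n * 2 ^ (n + 16)) :=
        Nat.mul_le_mul (by omega) (Nat.mul_le_mul_left _ h5)
  have h3 : 1024 * max t 1 ≤ rr s * 2 ^ wl n := le_trans (Nat.mul_le_mul_left _ h1) h2
  have h4 : (1024 : ℝ) * ((max t 1 : ℕ) : ℝ) ≤ ((rr s * 2 ^ wl n : ℕ) : ℝ) := by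
    exact_mod_cast h3
  have h5 : (0 : ℝ) < ((rr s * 2 ^ wl n : ℕ) : ℝ) := by
    have := S2_w (n := n) hs
    exact_mod_cast (by generalize rr s * 2 ^ wl n = N at this ⊢; omega : 0 < rr s * 2 ^ wl n)
  rw [div_le_iff₀ h5]
  linarith

/-- everything depends on short strings -/
private theorem S2_fin {n s t₀ k b j : ℕ} (hb : b < BB s) (hj : j < KK s)
    {η Z E : Set Oracle} (hη : Loc {x | x.length ≤ t₀} η) (hZ : Loc {x | x.length ≤ k} Z)
    (hE : Loc {x | x.length ≤ k} E) : ∃ K : Set (List Bool), K.Finite ∧ Loc K Z ∧ Loc K E ∧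
      Loc K (η ∩ (Quiet n s b ∩ Others n s b j)) ∧
      ∀ κ ∈ half n s b (2 * j) ∪ half n s b (2 * j + 1), ∀ l < wl n, pos κ.1 l κ.2 ∈ K := by
  obtain ⟨L, hL⟩ : ∃ L, ∀ x ∈ spotsB n s, x.length ≤ L :=
    ⟨(spotsB n s).sup List.length, fun x hx => Finset.le_sup (f := List.length) hx⟩
  have hsp : (spotsB n s : Set (List Bool)) ⊆ {x | x.length ≤ max L (max k t₀)} :=
    fun x hx => (hL x hx).trans (le_max_left _ _)
  have hkK : {x : List Bool | x.length ≤ k} ⊆ {x | x.length ≤ max L (max k t₀)} := by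
    intro x hx
    have hx' : x.length ≤ k := hx
    have : x.length ≤ max L (max k t₀) := by omega
    exact this
  have htK : {x : List Bool | x.length ≤ t₀} ⊆ {x | x.length ≤ max L (max k t₀)} := by
    intro x hx
    have hx' : x.length ≤ t₀ := hx
    have : x.length ≤ max L (max k t₀) := by omega
    exact this
  refine ⟨{x | x.length ≤ max L (max k t₀)}, List.finite_length_le Bool _,
    M2.Loc.mono hZ hkK, M2.Loc.mono hE hkK,
    M2.Loc.inter (M2.Loc.mono hη htK) (M2.Loc.inter (M2.Loc.mono (loc_Quiet n s b) hsp)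
      (M2.Loc.mono (loc_Others hb) hsp)), ?_⟩
  intro κ hκ l hl
  exact hsp (pos_mem_spotsB (pair_subset hb hj hκ) hl)

private theorem S2_inv {n s t₀ b j : ℕ} (ht₀ : t₀ < n) (hb : b < BB s) (hj : j < KK s)
    {η : Set Oracle} (hη : Loc {x | x.length ≤ t₀} η) (B : Oracle) (h : Finset Cand)
    (hh : h ⊆ half n s b (2 * j) ∪ half n s b (2 * j + 1)) :
    (plant (allSpots (wl n) h) B ∈ η ∩ (Quiet n s b ∩ Others n s b j) ↔
      B ∈ η ∩ (Quiet n s b ∩ Others n s b j)) := by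
  have hh' : h ⊆ pair n s b j := hh
  have e1 := plant_short (n := n) (s := s) ht₀.le hη (hh'.trans (pair_subset hb hj)) B
  have e2 := plant_Quiet (n := n) (b := b) hj hh' B
  have e3 := plant_Others (n := n) (b := b) hj hh' B
  simp only [Set.mem_inter_iff]
  rw [e1, e2, e3]

private theorem S2_disj {n s t₀ : ℕ} (ht₀ : t₀ < n) : ∀ b < BB s, ∀ i < KK s,
    Disjoint {x : List Bool | x.length ≤ t₀} (sp n s b i) := by
  intro b hb i hi
  rw [Set.disjoint_left]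
  intro x hx hx'
  have h1 : x.length ≤ t₀ := hx
  have h2 := lt_length_spotsB x (Finset.mem_coe.1 (sp_subset hb hi hx'))
  omega

theorem key_blocksN {n s t₀ t k : ℕ} (hs : 4 ≤ s) (hsn : s ≤ n) (ht₀ : t₀ < n)
    {η Z E : Set Oracle} (hη : Loc {x | x.length ≤ t₀} η) (hZ : Loc {x | x.length ≤ k} Z)
    (hE : Loc {x | x.length ≤ k} E) (ht : t ≤ 2 ^ n)
    (hkey : ∀ b < BB s, ∀ j < KK s, ∀ B ∈ Others n s b j, B ∈ Zero n s b j →
      ∃ (T : Finset Cand) (T' : Cand → Finset Cand), T.card ≤ t ∧ (∀ κ, (T' κ).card ≤ t) ∧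
      ∀ κ ∈ half n s b (2 * j), ∀ κ' ∈ half n s b (2 * j + 1), κ ∉ T → κ' ∉ T →
        κ' ∉ T' κ → κ ∉ T' κ' → plant (allSpots (wl n) {κ}) B ∈ Z →
        plant (allSpots (wl n) {κ'}) B ∈ Z → plant (allSpots (wl n) {κ, κ'}) B ∈ E) :
    ll s * (7 / 8 * prob η - prob (η ∩ (Bad n s ∩ E)) / prob (Bad n s)) ≤
      prob (η ∩ Zᶜ) := by
  refine key_gen (sys_N hs hsn) (List.finite_length_le Bool t₀) (S2_disj ht₀) hη
    (measurableSet_of_loc (List.finite_length_le Bool k) hZ)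
    (measurableSet_of_loc (List.finite_length_le Bool k) hE) (S2_delta hs ht)
    (quiet_num hs hsn) (lam_N hs hsn) (ll_nonneg s) (ll_num hs hsn) ?_
  intro b hb j hj
  obtain ⟨K, hK, lZ, lE, lη, hpos⟩ := S2_fin (n := n) hb hj hη hZ hE
  have key := key_pairN hK lZ lE lη (half_disjoint n s b j) (m := wl n)
    (w := rr s * 2 ^ wl n) (by unfold wl; omega) (card_half _ _ _ _) (card_half _ _ _ _)
    (S2_w hs) (max t 1) (le_max_right _ _) hpos (S2_inv ht₀ hb hj hη)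
    (by
      rintro B hB ⟨_, _, hO⟩
      obtain ⟨T, T', hT, hT', hTT⟩ := hkey b hb j hj B hO hB
      exact ⟨T, T', hT.trans (le_max_left _ _), fun κ => (hT' κ).trans (le_max_left _ _), hTT⟩)
  rw [S2_op hs, S2_dN hs] at key
  exact key

theorem key_blocksU {n s t₀ t k : ℕ} (hs : 4 ≤ s) (hsn : s ≤ n) (ht₀ : t₀ < n)
    {η Z E : Set Oracle} (hη : Loc {x | x.length ≤ t₀} η) (hZ : Loc {x | x.length ≤ k} Z)
    (hE : Loc {x | x.length ≤ k} E) (ht : t ≤ 2 ^ n)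
    (hkey : ∀ b < BB s, ∀ j < KK s, ∀ B ∈ Others n s b j, B ∈ Zero n s b j →
      ∃ (T : Finset Cand) (T' : Cand → Finset Cand), T.card ≤ t ∧ (∀ κ, (T' κ).card ≤ t) ∧
      ∀ κ ∈ half n s b (2 * j), ∀ κ' ∈ half n s b (2 * j), ∀ ρ ∈ half n s b (2 * j + 1),
        κ ≠ κ' → κ ∉ T → κ' ∉ T → ρ ∉ T → κ' ∉ T' κ → κ ∉ T' κ' → ρ ∉ T' κ →
        plant (allSpots (wl n) {κ}) B ∈ Z → plant (allSpots (wl n) {κ'}) B ∈ Z →
        plant (allSpots (wl n) {ρ}) B ∈ Z → plant (allSpots (wl n) {κ, κ'}) B ∈ E) :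
    ll s * (7 / 8 * prob η - prob (η ∩ (Bad n s ∩ E)) / prob (Bad n s)) ≤
      prob (η ∩ Zᶜ) := by
  refine key_gen (sys_U hs hsn) (List.finite_length_le Bool t₀) (S2_disj ht₀) hη
    (measurableSet_of_loc (List.finite_length_le Bool k) hZ)
    (measurableSet_of_loc (List.finite_length_le Bool k) hE) (S2_delta hs ht)
    (quiet_num hs hsn) (lam_U hs hsn) (ll_nonneg s) (ll_num hs hsn) ?_
  intro b hb j hj
  obtain ⟨K, hK, lZ, lE, lη, hpos⟩ := S2_fin (n := n) hb hj hη hZ hE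
  have key := key_pairU hK lZ lE lη (half_disjoint n s b j) (m := wl n)
    (w := rr s * 2 ^ wl n) (by unfold wl; omega) (card_half _ _ _ _) (card_half _ _ _ _)
    (S2_w hs) (max t 1) (le_max_right _ _) hpos (S2_inv ht₀ hb hj hη)
    (by
      rintro B hB ⟨_, _, hO⟩
      obtain ⟨T, T', hT, hT', hTT⟩ := hkey b hb j hj B hO hB
      exact ⟨T, T', hT.trans (le_max_left _ _), fun κ => (hT' κ).trans (le_max_left _ _), hTT⟩)
  rw [S2_op hs, S2_dU hs] at key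
  exact key

end Pool.Agent.H673R3.UC
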