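import Pool.Agent.H673R3.UC.R2
import Pool.Agent.H673R3.UC.Z1

/-! Task Z2: the theorem, second version. -/

namespace Pool.Agent.H673R3.UC

open MeasureTheory Pool.Agent.NPC Pool.Agent.H628R3.RO

theorem Z2_rr_pos {s : ℕ} (hs : 4 ≤ s) : (0 : ℝ) < rr s := by
  have := three_le_rr hs
  positivity

/-- the core, for `UP` -/
theorem Z2_ae (V : Alg) (p : Polynomial ℕ) : ∃ b : Polynomial ℕ,
    Check Bad (fun n _ => ErrU V p n) b ∧
    ∀ᵐ A ∂randomOracle, (∀ n s, A ∉ Bad n s ∩ ErrU V p n) →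
      ∃ (t : ℕ) (L : List (List Bool)),
      (∃ i0, ∀ i ≥ i0, A ∉ Inv (Tt b t i) (lev Bad (fun n _ => ErrU V p n) t L (Tt b t) i)) ∧
      ∀ (r : Alg) (i0 : ℕ), ∃ i ≥ i0,
        A ∉ GoodU V p r (Tt b t i) (lev Bad (fun n _ => ErrU V p n) t L (Tt b t) i) := by
  obtain ⟨b, hc⟩ := check_BU V p
  refine ⟨b, hc, ?_⟩
  exact H583R2.NC.core_gen (R := Alg) Bad Inv (fun n _ => ErrU V p n) (GoodU V p) spotsB
    (fun n s => lt_length_spotsB) (fun n n' s s' h => disjoint_spotsB n n' s s' h)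
    loc_Bad (fun n s => measurableSet_of_loc (spotsB n s).finite_toSet (loc_Inv n s))
    b hc.locErr hc.locBad (fun r => loc_GoodU V p r)
    ee ll ee_nonneg summable_ee (fun s hs => ee_le hs)
    (fun n s hs hn => prob_Bad_le_ee hs hn) 200 (fun n s hs hn => prob_Inv_le hs hn)
    (fun s hs => ⟨(1 / 2 : ℝ) * ((1 / 2 : ℝ) ^ (rr s + 12) / (rr s : ℝ) ^ 2), by
      have := Z2_rr_pos hs
      positivity, fun n hn => prob_Bad_pos hs hn⟩)
    ll_nonneg not_summable_ll (fun r => key_U V p r) hc.le_eval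

theorem Z2_mem {f : ℕ → Option ℕ} {n s b j : ℕ} {A : Oracle} (hf : f n = some s)
    (hb : b < BB s) (hj : j < KK s) (hA : A ∈ Others n s b j) :
    inst n s b j A ∈ LL f A ↔ A ∉ NoHit (wl n) (half n s b (2 * j)) := by
  constructor
  · rintro ⟨D, s', h1, h2, -, h4⟩
    have h5 : D = instD n s b j A := bits_injective h1
    subst h5
    simp only [instD, List.length_replicate] at h2 h4
    rw [hf, Option.some.injEq] at h2
    subst h2
    exact h4
  · intro h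
    refine ⟨instD n s b j A, s, rfl, ?_, inst_cert hb hj hA, ?_⟩
    · simp only [instD, List.length_replicate]
      exact hf
    · simp only [instD, List.length_replicate]
      exact h

theorem main_U : ∀ᵐ A ∂randomOracle, ∀ K : Set (List Bool), IsUP A K →
    ∃ L : Set (List Bool), IsUP A L ∧ IsUP A Lᶜ ∧ ¬ Red A L K := by
  have := countable_poly2
  choose b hc hcore using fun q : Alg × Polynomial ℕ => Z2_ae q.1 q.2
  have hall : ∀ᵐ A ∂randomOracle, ∀ q : Alg × Polynomial ℕ,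
      (∀ n s, A ∉ Bad n s ∩ ErrU q.1 q.2 n) → ∃ (t : ℕ) (L : List (List Bool)),
      (∃ i0, ∀ i ≥ i0, A ∉ Inv (Tt (b q) t i)
        (lev Bad (fun n _ => ErrU q.1 q.2 n) t L (Tt (b q) t) i)) ∧
      ∀ (r : Alg) (i0 : ℕ), ∃ i ≥ i0, A ∉ GoodU q.1 q.2 r (Tt (b q) t i)
        (lev Bad (fun n _ => ErrU q.1 q.2 n) t L (Tt (b q) t) i) := ae_all_iff.2 hcore
  filter_upwards [hall] with A hA K hK
  obtain ⟨V, p, ⟨M, hM⟩, hV, huniq⟩ := hK
  have hw : ∀ x, Wit M p x A ↔ x ∈ K := by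
    intro x
    rw [hV x, Wit]
    refine exists_congr fun y => and_congr_right fun _ => ?_
    rw [hM, Option.some.injEq]
  obtain ⟨t, S, ⟨i1, h1⟩, h2⟩ := hA (M, p) (by
    rintro n s ⟨_, x, _, y, y', h3, h4, h5, h6, h7⟩
    rw [hM, Option.some.injEq] at h6 h7
    exact h3 (huniq x y y' h4 h5 h6 h7))
  set f := schK Bad (fun n _ => ErrU M p n) (b (M, p)) t S (Tt (b (M, p)) t i1) with hf
  have hfn : ∀ n s, f n = some s → s ≤ n := fun n s h => schK_le h
  have hfA : ∀ n s, f n = some s → A ∉ Inv n s := by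
    intro n s h
    obtain ⟨h3, i, rfl, rfl⟩ := eq_of_schK h
    exact h1 i ((strictMono_Tt (b (M, p)) t).le_iff_le.1 h3)
  have hpf : Poly (fun x : List Unit => f x.length) :=
    H583R2.NC.p_schK' (hc (M, p)) t S _
  refine ⟨_, isUP_LL A f hpf hfn hfA, isUP_LLc A f hpf hfn hfA, ?_⟩
  rintro ⟨F, ⟨r, hr⟩, hF⟩
  obtain ⟨i, hi, h3⟩ := h2 r i1
  set n := Tt (b (M, p)) t i with hn
  set s := lev Bad (fun n _ => ErrU M p n) t S (Tt (b (M, p)) t) i with hs
  have hfi : f n = some s := schK_Tt ((strictMono_Tt (b (M, p)) t).monotone hi)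
  refine h3 fun bb hbb j hj ho => ⟨_, hr _, ?_⟩
  rw [hw, ← hF]
  exact (Z2_mem hfi hbb hj ho).symm

end Pool.Agent.H673R3.UC
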